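import Mathlib

/-!
# Complex Chebyshev systems (MP_e9314e_an): linear algebra
-/

set_option autoImplicit false

open Topology Set

namespace MPe9314e

variable {Q : Type*} [TopologicalSpace Q] {d : ℕ}

/-- `x 0, …, x (n-1)` is a complex Chebyshev system on `Q`: no combination with a nonzero
coefficient vector vanishes at `n` different points. -/
def IsChebyshevSystem {n : ℕ} (x : Fin n → C(Q, ℂ)) : Prop :=
  ∀ α : Fin n → ℂ, α ≠ 0 → ∀ S : Finset Q, (∀ q ∈ S, ∑ k, α k * x k q = 0) → S.card ≤ n - 1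

/-- the combination with coefficient vector `α` -/
noncomputable def ev {n : ℕ} (x : Fin n → C(Q, ℂ)) (α : Fin n → ℂ) (q : Q) : ℂ := ∑ k, α k * x k q

section
variable {n : ℕ} (x : Fin n → C(Q, ℂ))

theorem ev_add (α β : Fin n → ℂ) (q : Q) : ev x (α + β) q = ev x α q + ev x β q := by
  simp [ev, add_mul, Finset.sum_add_distrib]

theorem ev_sub (α β : Fin n → ℂ) (q : Q) : ev x (α - β) q = ev x α q - ev x β q := by
  simp [ev, sub_mul, Finset.sum_sub_distrib]

theorem ev_smul (c : ℂ) (α : Fin n → ℂ) (q : Q) : ev x (c • α) q = c * ev x α q := by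
  simp [ev, Finset.mul_sum, mul_assoc]

theorem continuous_ev (α : Fin n → ℂ) : Continuous (ev x α) := by
  unfold ev
  fun_prop

theorem continuous_ev₂ : Continuous (fun p : (Fin n → ℂ) × Q => ev x p.1 p.2) := by
  unfold ev
  fun_prop

end

/-- in a Chebyshev system of `d + 1` functions, a combination vanishing at `d + 1` points is `0` -/
theorem IsChebyshevSystem.eq_zero {x : Fin (d + 1) → C(Q, ℂ)} (hx : IsChebyshevSystem x)
    {α : Fin (d + 1) → ℂ} {S : Finset Q} (hS : d + 1 ≤ S.card) (h : ∀ q ∈ S, ev x α q = 0) :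
    α = 0 := by
  by_contra hne
  have := hx α hne S h
  omega

/-- coefficients of the function vanishing at the points `q i` -/
noncomputable def cof (x : Fin (d + 1) → C(Q, ℂ)) (q : Fin d → Q) : Fin (d + 1) → ℂ :=
  fun k => (-1) ^ (k : ℕ) * Matrix.det (Matrix.of (fun i j : Fin d => x (k.succAbove j) (q i)))

theorem continuous_cof (x : Fin (d + 1) → C(Q, ℂ)) : Continuous (cof x) := by
  unfold cof
  refine continuous_pi fun k => ?_
  refine continuous_const.mul ?_
  refine Continuous.matrix_det ?_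
  refine continuous_matrix fun i j => ?_
  simp only [Matrix.of_apply]
  fun_prop

theorem ev_cof (x : Fin (d + 1) → C(Q, ℂ)) (q : Fin d → Q) (z : Q) :
    ev x (cof x q) z = Matrix.det (Matrix.of (fun i j : Fin (d + 1) => x j ((Fin.cons z q : Fin (d + 1) → Q) i))) := by
  rw [Matrix.det_succ_row_zero]
  unfold ev cof
  refine Finset.sum_congr rfl fun k _ => ?_
  have h1 : (Matrix.of (fun i j : Fin (d + 1) => x j ((Fin.cons z q : Fin (d + 1) → Q) i))).submatrix Fin.succ k.succAbove =
      Matrix.of (fun i j : Fin d => x (k.succAbove j) (q i)) := by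
    ext i j
    simp [Matrix.submatrix_apply]
  rw [h1]
  simp only [Matrix.of_apply, Fin.cons_zero]
  ring

theorem ev_cof_self (x : Fin (d + 1) → C(Q, ℂ)) (q : Fin d → Q) (i : Fin d) :
    ev x (cof x q) (q i) = 0 := by
  rw [ev_cof]
  apply Matrix.det_zero_of_row_eq (i := 0) (j := i.succ)
  · exact (Fin.succ_ne_zero i).symm
  · ext j
    simp

theorem ev_cof_ne (x : Fin (d + 1) → C(Q, ℂ)) (hx : IsChebyshevSystem x) {q : Fin d → Q}
    (hq : Function.Injective q) {z : Q} (hz : ∀ i, q i ≠ z) : ev x (cof x q) z ≠ 0 := by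
  rw [ev_cof]
  intro h0
  obtain ⟨v, hv, hv0⟩ := Matrix.exists_mulVec_eq_zero_iff.2 h0
  apply hv
  classical
  have hinj : Function.Injective (Fin.cons z q : Fin (d + 1) → Q) := by
    rw [Fin.cons_injective_iff]
    refine ⟨?_, hq⟩
    rintro ⟨i, hi⟩
    exact hz i hi
  apply hx.eq_zero (S := Finset.univ.image (Fin.cons z q : Fin (d + 1) → Q))
  · rw [Finset.card_image_of_injective _ hinj]
    simp
  · intro w hw
    obtain ⟨i, -, rfl⟩ := Finset.mem_image.1 hw
    have := congrFun hv0 i
    simp only [Matrix.mulVec, dotProduct, Matrix.of_apply, Pi.zero_apply] at this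
    unfold ev
    rw [← this]
    exact Finset.sum_congr rfl fun k _ => mul_comm _ _

/-- a combination vanishing at `d` points and somewhere else is zero; two nonzero combinations
vanishing at the same `d` points are proportional -/
theorem exists_smul {x : Fin (d + 1) → C(Q, ℂ)} (hx : IsChebyshevSystem x) {S : Finset Q}
    (hS : S.card = d) {z : Q} (hz : z ∉ S) {α β : Fin (d + 1) → ℂ} (hα : α ≠ 0) (hβ : β ≠ 0)
    (hα0 : ∀ q ∈ S, ev x α q = 0) (hβ0 : ∀ q ∈ S, ev x β q = 0) :
    ∃ c : ℂ, c ≠ 0 ∧ α = c • β := by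
  classical
  have hins : d + 1 ≤ (insert z S).card := by
    rw [Finset.card_insert_of_notMem hz, hS]
  have hαz : ev x α z ≠ 0 := by
    intro h
    apply hα
    apply hx.eq_zero hins
    intro q hq
    rcases Finset.mem_insert.1 hq with rfl | hq
    · exact h
    · exact hα0 q hq
  have hβz : ev x β z ≠ 0 := by
    intro h
    apply hβ
    apply hx.eq_zero hins
    intro q hq
    rcases Finset.mem_insert.1 hq with rfl | hq
    · exact h
    · exact hβ0 q hq
  refine ⟨ev x α z / ev x β z, div_ne_zero hαz hβz, ?_⟩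
  rw [← sub_eq_zero]
  apply hx.eq_zero hins
  intro q hq
  rw [ev_sub, ev_smul]
  rcases Finset.mem_insert.1 hq with rfl | hq
  · field_simp
    ring
  · rw [hα0 q hq, hβ0 q hq]
    ring

/-- there is a nonzero combination vanishing on `d` given points -/
theorem exists_vanish (x : Fin (d + 1) → C(Q, ℂ)) (S : Finset Q) (hS : S.card ≤ d) :
    ∃ α : Fin (d + 1) → ℂ, α ≠ 0 ∧ ∀ q ∈ S, ev x α q = 0 := by
  let L : (Fin (d + 1) → ℂ) →ₗ[ℂ] (S → ℂ) :=
    { toFun := fun α q => ev x α q
      map_add' := fun α β => by ext q; simp [ev_add]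
      map_smul' := fun c α => by ext q; simp [ev_smul] }
  have hlt : Module.finrank ℂ (S → ℂ) < Module.finrank ℂ (Fin (d + 1) → ℂ) := by
    simp only [Module.finrank_fintype_fun_eq_card, Fintype.card_coe, Fintype.card_fin]
    omega
  obtain ⟨α, hα, hne⟩ := (Submodule.ne_bot_iff _).1 (L.ker_ne_bot_of_finrank_lt hlt)
  refine ⟨α, hne, fun q hq => ?_⟩
  have := congrFun (LinearMap.mem_ker.1 hα) ⟨q, hq⟩
  simpa [L] using this

end MPe9314e
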