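import Pool.Agent.Lib.MP_e9314e_an.GMain

/-!
# MP_e9314e_an: closed subsets and the complementary domain of the rest

Let `Q` be a compact Hausdorff space with a complex Chebyshev system of `n ≥ 2` functions.
If `M` is closed, `C` is a connected subset of `Q \ M` with at least two points, and `P` consists of
`n - 1` points of `C`, then `Q \ P` has an injective continuous map into the plane which sends
`C \ P` into one complementary domain of the image of `M`.
-/

set_option autoImplicit false

open Topology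

namespace Pool.Agent.Lib.MP_e9314e_an.FaceResult

/-- nonvanishing determinants give the Chebyshev property -/
private theorem cheb {Q : Type*} [TopologicalSpace Q] {n : ℕ} (x : Fin n → C(Q, ℂ))
    (hx : ∀ q : Fin n → Q, Function.Injective q → (Matrix.of fun j k => x k (q j)).det ≠ 0) :
    MPe9314e.IsChebyshevSystem x := by
  intro α hα S hS
  by_contra hcard
  have h1 : n ≤ S.card := by omega
  obtain ⟨T, hTS, hT⟩ := Finset.exists_subset_card_eq h1
  let e : Fin n ≃ T := (Fintype.equivFinOfCardEq (by simpa using hT)).symm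
  have hdet := hx (fun j => (e j : Q)) (fun i j h => e.injective (Subtype.ext h))
  apply hα
  have hmul : (Matrix.of fun j k => x k ((e j : T) : Q)).mulVec α = 0 := by
    funext j
    simp only [Matrix.mulVec, dotProduct, Matrix.of_apply, Pi.zero_apply]
    have h2 := hS (e j) (hTS (e j).2)
    rw [← h2]
    exact Finset.sum_congr rfl fun k _ => mul_comm _ _
  exact Matrix.eq_zero_of_mulVec_eq_zero hdet hmul

/-- Let `Q` be a compact Hausdorff space with a complex Chebyshev system of `n ≥ 2` functions,
`M` closed, `C` a connected set with at least two points disjoint from `M`, and `P` a set of `n - 1`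
points of `C`. Then there are a continuous injective map `j : Q \ P → ℂ` and an unbounded connected
open set `Ω` disjoint from `j (M)` that contains `j (C \ P)`; the closure of `Ω` contains
`j (M ∩ closure C)`. (As `M` is compact, `j` is a homeomorphism of `M` onto `j (M)`.) -/
theorem result (n : ℕ) (hn : 2 ≤ n) (Q : Type*) [TopologicalSpace Q] [CompactSpace Q] [T2Space Q]
    (x : Fin n → C(Q, ℂ))
    (hx : ∀ q : Fin n → Q, Function.Injective q → (Matrix.of fun j k => x k (q j)).det ≠ 0)
    (M C : Set Q) (hM : IsClosed M) (hC : IsConnected C) (hC2 : C.Nontrivial)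
    (hCM : Disjoint C M) (P : Finset Q) (hPC : (P : Set Q) ⊆ C) (hP : P.card = n - 1) :
    ∃ (j : ((P : Set Q)ᶜ : Set Q) → ℂ) (Ω : Set ℂ), Continuous j ∧ Function.Injective j ∧
      IsOpen Ω ∧ IsConnected Ω ∧ ¬ Bornology.IsBounded Ω ∧
      (∀ z : ((P : Set Q)ᶜ : Set Q), (z : Q) ∈ M → j z ∉ Ω) ∧
      (∀ z : ((P : Set Q)ᶜ : Set Q), (z : Q) ∈ C → j z ∈ Ω) ∧
      (∀ z : ((P : Set Q)ᶜ : Set Q), (z : Q) ∈ M → (z : Q) ∈ closure C → j z ∈ closure Ω) := by
  have hc := cheb x hx
  obtain ⟨d, rfl⟩ : ∃ d, n = d + 1 := ⟨n - 1, by omega⟩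
  have hd : 1 ≤ d := by omega
  have hCinf := hC.isPreconnected.infinite_of_nontrivial hC2
  obtain ⟨p0, hp0C, hp0P⟩ := (hCinf.sdiff P.finite_toSet).nonempty
  obtain ⟨j, Ω, h1, h2, h3, h4, h5, h6, h7, h8⟩ := MPe9314e.face_aux hd hc hC.isPreconnected hM hCM
    hPC (by omega) hp0C hp0P
  refine ⟨fun z => j z, Ω, ?_, ?_, h3, h4, h5, ?_, fun z hz => h7 z hz z.2,
    fun z hz hz' => h8 z ⟨hz', hz⟩⟩
  · exact continuousOn_iff_continuous_domRestrict.1 h1
  · intro z w hzw
    exact Subtype.ext (h2 z.2 w.2 hzw)
  · intro z hz hzΩ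
    exact Set.disjoint_left.1 h6 hzΩ ⟨z, hz, rfl⟩

end Pool.Agent.Lib.MP_e9314e_an.FaceResult
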