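import Pool.Agent.Lib.MP_e9314e_an.Main

/-!
# The free arc theorem
-/

set_option autoImplicit false

open Topology Set

namespace MPe9314e

variable {Q : Type*} [TopologicalSpace Q] {d : ℕ}

theorem free_arc [CompactSpace Q] [T2Space Q] {x : Fin (d + 1) → C(Q, ℂ)} (hd : 1 ≤ d)
    (hx : IsChebyshevSystem x) {φ : ℝ → Q} (hφ : IsOpenEmbedding φ) :
    ∃ ψ : Q → ℂ, Continuous ψ ∧ Function.Injective ψ := by
  classical
  have hφc : Continuous φ := hφ.continuous
  have hφi : Function.Injective φ := hφ.injective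
  -- the punctures
  obtain ⟨T0, hT0, hT0c⟩ := (Ioo_infinite (show (0:ℝ) < 1 by norm_num)).exists_subset_card_eq (d + 1)
  obtain ⟨t1, ht1⟩ : T0.Nonempty := Finset.card_pos.1 (by omega)
  set T := T0.erase t1 with hTdef
  have hTc : T.card = d := by rw [hTdef, Finset.card_erase_of_mem ht1, hT0c]; rfl
  have hTI : ∀ t ∈ T, t ∈ Ioo (0:ℝ) 1 := fun t ht => hT0 (Finset.mem_of_mem_erase ht)
  have ht1T : t1 ∉ T := Finset.notMem_erase _ _
  have ht1I : t1 ∈ Ioo (0:ℝ) 1 := hT0 ht1
  have hTne : T.Nonempty := Finset.card_pos.1 (by omega)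
  obtain ⟨t0, ht0⟩ := hTne
  set P := T.image φ with hPdef
  have hPc : P.card = d := by rw [hPdef, Finset.card_image_of_injective _ hφi, hTc]
  have hmemP : ∀ t, φ t ∈ P ↔ t ∈ T := by
    intro t
    rw [hPdef]
    simp [hφi.eq_iff]
  have hx0P : φ t0 ∈ P := (hmemP t0).2 ht0
  have hx1P : φ t1 ∉ P := fun h => ht1T ((hmemP t1).1 h)
  obtain ⟨α, β, hβ, hβ0, hα0, hα⟩ := exists_quotient hx hPc hx0P hx1P
  obtain ⟨hβne, hjc, hji⟩ := quotient_props hx hPc hx0P hβ hβ0 hα0 hα
  set j : Q → ℂ := fun z => ev x α z / ev x β z with hj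
  -- the complement of the arc
  set M : Set Q := (φ '' Ioo 0 1)ᶜ with hM
  have hMcl : IsClosed M := (hφ.isOpenMap _ isOpen_Ioo).isClosed_compl
  have hMcpt : IsCompact M := hMcl.isCompact
  have hMφ : ∀ t ∈ Ioo (0:ℝ) 1, φ t ∉ M := fun t ht h => h (mem_image_of_mem _ ht)
  have hφM : ∀ t, t ∉ Ioo (0:ℝ) 1 → φ t ∈ M := by
    rintro t ht ⟨s, hs, hst⟩
    exact ht (hφi hst ▸ hs)
  have hMP : ∀ z ∈ M, z ∉ P := by
    intro z hz hzP
    obtain ⟨t, ht, rfl⟩ := Finset.mem_image.1 hzP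
    exact hMφ t (hTI t ht) hz
  have hMsub : M ⊆ {z | z ∉ P} := fun z hz => hMP z hz
  have hjMc : Continuous (fun m : M => j m) :=
    continuousOn_iff_continuous_domRestrict.1 (hjc.mono hMsub)
  have hjMi : Function.Injective (fun m : M => j m) := by
    intro m m' h
    exact Subtype.ext (hji (hMsub m.2) (hMsub m'.2) h)
  have : CompactSpace M := isCompact_iff_compactSpace.1 hMcpt
  have hemb : IsClosedEmbedding (fun m : M => j m) := hjMc.isClosedEmbedding hjMi
  set X : Set ℂ := range (fun m : M => j m) with hX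
  have hXcpt : IsCompact X := isCompact_range hjMc
  have hXmem : ∀ z ∈ M, j z ∈ X := fun z hz => ⟨⟨z, hz⟩, rfl⟩
  -- points of the arc
  have hnotX : ∀ t ∈ Ioo (0:ℝ) 1, t ∉ T → j (φ t) ∉ X := by
    rintro t ht htT ⟨m, hm⟩
    have hm' : j m = j (φ t) := hm
    have h1 : φ t ∉ P := fun h => htT ((hmemP t).1 h)
    have := hji (hMsub m.2) h1 hm'
    exact hMφ t ht (this ▸ m.2)
  have hunb : ∀ t ∈ Ioo (0:ℝ) 1, t ∉ T →
      ¬ Bornology.IsBounded (connectedComponentIn Xᶜ (j (φ t))) := by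
    intro t ht htT
    have h1 : φ t ∉ P := fun h => htT ((hmemP t).1 h)
    set γ := α - j (φ t) • β with hγ
    have hγne : γ ≠ 0 := by
      intro h0
      have h2 := congrArg (fun κ => ev x κ (φ t0)) h0
      simp only [hγ, ev_sub, ev_smul, hβ0 _ hx0P] at h2
      rw [mul_zero, sub_zero] at h2
      apply hα
      rw [h2]
      simp [ev]
    have htT' : t ∉ T.erase t0 := fun h => htT (Finset.mem_of_mem_erase h)
    have hSc : (insert t (T.erase t0)).card = d := by
      rw [Finset.card_insert_of_notMem htT', Finset.card_erase_of_mem ht0, hTc]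
      omega
    obtain ⟨Λ, hΛ, hΛ2⟩ := logRel_arc hx hφc hφi (a := 0) (b := 1) hMcpt hMφ hγne hβ hSc hTc
      (by
        intro s hs
        rcases Finset.mem_insert.1 hs with rfl | hs
        · exact ht
        · exact hTI s (Finset.mem_of_mem_erase hs))
      hTI
      (by
        intro s hs
        rw [hγ, ev_sub, ev_smul]
        rcases Finset.mem_insert.1 hs with rfl | hs
        · simp only [hj]
          rw [div_mul_cancel₀ _ (hβne _ h1), sub_self]
        · have hsT := Finset.mem_of_mem_erase hs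
          rw [hβ0 _ ((hmemP s).2 hsT), hα0 _ ((hmemP s).2 hsT)
            (fun h => (Finset.ne_of_mem_erase hs) (hφi h))]
          ring)
      (fun s hs => hβ0 _ ((hmemP s).2 hs))
    apply borsuk_embedding hemb (hnotX t ht htT) (Λ := fun m : M => Λ m)
      (continuousOn_iff_continuous_domRestrict.1 hΛ)
    intro m
    have h3 := hΛ2 m m.2
    have h4 := hβne m (hMP m m.2)
    rw [hγ, ev_sub, ev_smul] at h3
    change ev x α m / ev x β m - j (φ t) = Complex.exp (Λ m)
    rw [div_sub' h4, div_eq_iff h4, ← h3]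
    ring
  set Ω := connectedComponentIn Xᶜ (j (φ t1)) with hΩ
  have hΩo : IsOpen Ω := hXcpt.isClosed.isOpen_compl.connectedComponentIn
  have hΩc : IsPreconnected Ω := isPreconnected_connectedComponentIn
  have hΩX : ∀ w ∈ Ω, w ∉ X := fun w hw => connectedComponentIn_subset _ _ hw
  have harcΩ : ∀ t ∈ Ioo (0:ℝ) 1, t ∉ T → j (φ t) ∈ Ω := by
    intro t ht htT
    rw [hΩ, component_eq hXcpt (hunb t1 ht1I ht1T) (hunb t ht htT)]
    exact mem_connectedComponentIn (hnotX t ht htT)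
  -- the ends
  have h0M : φ 0 ∈ M := hφM 0 (by simp)
  have h1M : φ 1 ∈ M := hφM 1 (by simp)
  have hαΩ : j (φ 0) ∉ Ω := fun h => hΩX _ h (hXmem _ h0M)
  have hβΩ : j (φ 1) ∉ Ω := fun h => hΩX _ h (hXmem _ h1M)
  have hne01 : j (φ 0) ≠ j (φ 1) := by
    intro h
    have := hφi (hji (hMsub h0M) (hMsub h1M) h)
    norm_num at this
  -- whiskers
  have hTne : T.Nonempty := ⟨t0, ht0⟩
  set a := T.min' hTne / 2 with ha
  set b := (T.max' hTne + 1) / 2 with hb
  have hmin0 : 0 < T.min' hTne := (hTI _ (T.min'_mem hTne)).1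
  have hmin1 : T.min' hTne < 1 := (hTI _ (T.min'_mem hTne)).2
  have hmax0 : 0 < T.max' hTne := (hTI _ (T.max'_mem hTne)).1
  have hmax1 : T.max' hTne < 1 := (hTI _ (T.max'_mem hTne)).2
  have haT : ∀ t ∈ Icc 0 a, t ∉ T := by
    intro t ht htT
    have := T.min'_le t htT
    have := ht.2
    rw [ha] at this
    linarith
  have hbT : ∀ t ∈ Icc b 1, t ∉ T := by
    intro t ht htT
    have := T.le_max' t htT
    have := ht.1
    rw [hb] at this
    linarith
  have hwc : ∀ I : Set ℝ, (∀ t ∈ I, t ∉ T) → ContinuousOn (fun t => j (φ t)) I := by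
    intro I hI
    apply hjc.comp hφc.continuousOn
    intro t ht h
    exact hI t ht ((hmemP t).1 h)
  have hwi : ∀ I : Set ℝ, (∀ t ∈ I, t ∉ T) → InjOn (fun t => j (φ t)) I := by
    intro I hI s hs t ht hst
    apply hφi
    exact hji (fun h => hI s hs ((hmemP s).1 h)) (fun h => hI t ht ((hmemP t).1 h)) hst
  obtain ⟨δ, hδc, hδi, hδ0, hδ1, hδΩ⟩ := exists_arc hΩo hΩc hαΩ hβΩ hne01
    (γ := fun t => j (φ t)) (η := fun t => j (φ t)) (a := 0) (b := a) (s := b) (e := 1)
    (by rw [ha]; linarith) (by rw [hb]; linarith) (hwc _ haT) (hwi _ haT) rfl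
    (fun t ht => harcΩ t ⟨ht.1, by have := ht.2; rw [ha] at this; linarith⟩ (haT t ⟨ht.1.le, ht.2⟩))
    (hwc _ hbT) (hwi _ hbT) rfl
    (fun t ht => harcΩ t ⟨by have := ht.1; rw [hb] at this; linarith, ht.2⟩ (hbT t ⟨ht.1, ht.2.le⟩))
    (u := 0) (v := 1) (by norm_num)
  -- the embedding
  set ρ := (hφ.toOpenPartialHomeomorph φ).symm with hρ
  have hρφ : ∀ t, ρ (φ t) = t := fun t => hφ.toOpenPartialHomeomorph_left_inv φ
  have hρc : ContinuousOn ρ (range φ) := by
    have := ρ.continuousOn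
    have hs : ρ.source = range φ := by
      rw [hρ]
      simp
    rwa [hs] at this
  set ψ : Q → ℂ := fun z => if z ∈ M then j z else δ (ρ z) with hψ
  have hψM : ∀ z ∈ M, ψ z = j z := fun z hz => by simp only [hψ, if_pos hz]
  have hψφ : ∀ t ∈ Icc (0:ℝ) 1, ψ (φ t) = δ t := by
    intro t ht
    rcases ht.1.eq_or_lt with h | h
    · rw [← h, hψM _ h0M, hδ0]
    rcases ht.2.eq_or_lt with h' | h'
    · rw [h', hψM _ h1M, hδ1]
    · simp only [hψ, if_neg (hMφ t ⟨h, h'⟩), hρφ]
  refine ⟨ψ, ?_, ?_⟩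
  · have hun : (univ : Set Q) = M ∪ φ '' Icc 0 1 := by
      symm
      rw [eq_univ_iff_forall]
      intro z
      by_cases hz : z ∈ M
      · exact Or.inl hz
      · right
        obtain ⟨t, ht, rfl⟩ := not_not.1 hz
        exact mem_image_of_mem _ (Ioo_subset_Icc_self ht)
    rw [← continuousOn_univ, hun]
    apply ContinuousOn.union_of_isClosed _ _ hMcl (isCompact_Icc.image hφc).isClosed
    · exact (hjc.mono hMsub).congr hψM
    · have h1 : ContinuousOn (fun z => δ (ρ z)) (φ '' Icc 0 1) := by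
        apply hδc.comp (hρc.mono (image_subset_range _ _))
        rintro z ⟨t, ht, rfl⟩
        rw [hρφ]
        exact ht
      apply h1.congr
      rintro z ⟨t, ht, rfl⟩
      change ψ (φ t) = δ (ρ (φ t))
      rw [hψφ t ht, hρφ]
  · have hcross : ∀ z ∈ M, ∀ w, w ∉ M → ψ z ≠ ψ w := by
      intro z hz w hw heq
      obtain ⟨t, ht, rfl⟩ := not_not.1 hw
      rw [hψM z hz, hψφ t (Ioo_subset_Icc_self ht)] at heq
      exact hΩX _ (hδΩ t ht) (heq ▸ hXmem z hz)
    intro z w heq
    by_cases hz : z ∈ M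
    · by_cases hw : w ∈ M
      · rw [hψM z hz, hψM w hw] at heq
        exact hji (hMsub hz) (hMsub hw) heq
      · exact absurd heq (hcross z hz w hw)
    · by_cases hw : w ∈ M
      · exact absurd heq.symm (hcross w hw z hz)
      · obtain ⟨s, hs, rfl⟩ := not_not.1 hz
        obtain ⟨t, ht, rfl⟩ := not_not.1 hw
        rw [hψφ s (Ioo_subset_Icc_self hs), hψφ t (Ioo_subset_Icc_self ht)] at heq
        rw [hδi (Ioo_subset_Icc_self hs) (Ioo_subset_Icc_self ht) heq]

end MPe9314e
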