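import Mathlib
import Pool.Agent.Lib.MP_e9314e_an.Basic

section

/-!
# A lemma of Borsuk: no continuous logarithm of `w - p` if `p` is in a bounded complementary
component
-/

set_option autoImplicit false

open Topology Set

namespace MPe9314e

/-- every nonvanishing continuous function on `ℂ` has a continuous logarithm -/
theorem exists_log {F : ℂ → ℂ} (hF : Continuous F) (h0 : ∀ w, F w ≠ 0) :
    ∃ L : ℂ → ℂ, Continuous L ∧ ∀ w, Complex.exp (L w) = F w := by
  have hs : IsSimplyConnected (univ : Set ℂ) := by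
    have : ContractibleSpace (univ : Set ℂ) := convex_univ.contractibleSpace univ_nonempty
    exact (inferInstance : SimplyConnectedSpace (univ : Set ℂ))
  obtain ⟨L, hL, hL2⟩ := Complex.exists_continuousOn_eqOn_exp_comp hs isOpen_univ
    (g := F) hF.continuousOn (by rintro ⟨w, -, hw⟩; exact h0 w hw)
  exact ⟨L, continuousOn_univ.1 hL, fun w => hL2 (mem_univ w)⟩

/-- `w - p` has no continuous logarithm on a circle around `p` -/
theorem no_log_circle {p : ℂ} {R : ℝ} (hR : 0 < R) {L : ℂ → ℂ} (hL : Continuous L)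
    (h : ∀ θ : ℝ, Complex.exp (L (p + R * Complex.exp (θ * Complex.I))) = R * Complex.exp (θ * Complex.I)) :
    False := by
  set u : ℝ → ℝ := fun θ => (L (p + R * Complex.exp (θ * Complex.I))).im - θ with hu
  have huc : Continuous u := by
    apply Continuous.sub _ continuous_id
    apply Complex.continuous_im.comp
    apply hL.comp
    fun_prop
  have h2 : u (2 * Real.pi) = u 0 - 2 * Real.pi := by
    simp only [hu]
    have : Complex.exp (((2 * Real.pi : ℝ) : ℂ) * Complex.I) = Complex.exp (((0 : ℝ) : ℂ) * Complex.I) := by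
      push_cast
      rw [Complex.exp_two_pi_mul_I]
      simp
    rw [this]
    ring
  have hcos : ∀ θ, Real.cos (u θ) = 1 := by
    intro θ
    have h3 := h θ
    have h4 : Complex.exp (L (p + R * Complex.exp (θ * Complex.I)) - θ * Complex.I) = R := by
      rw [Complex.exp_sub, h3, mul_div_assoc, div_self (Complex.exp_ne_zero _), mul_one]
    have h5 := congrArg Complex.re h4
    have h6 := congrArg Complex.im h4
    rw [Complex.exp_re] at h5
    rw [Complex.exp_im] at h6
    simp only [Complex.sub_im, Complex.mul_im, Complex.ofReal_re, Complex.I_im, mul_one,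
      Complex.ofReal_im, Complex.I_re, mul_zero, add_zero, Complex.ofReal_re, Complex.ofReal_im] at h5 h6
    have h7 : Real.sin (u θ) = 0 := by
      rcases mul_eq_zero.1 h6 with h8 | h8
      · exact absurd h8 (Real.exp_pos _).ne'
      · exact h8
    have h8 : 0 < Real.cos (u θ) := by
      have h9 : 0 < Real.exp (L (p + R * Complex.exp (θ * Complex.I)) - θ * Complex.I).re * Real.cos (u θ) := by
        have : (L (p + R * Complex.exp (θ * Complex.I))).im - θ = u θ := rfl
        rw [this] at h5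
        rw [h5]
        exact hR
      exact (pos_iff_pos_of_mul_pos h9).1 (Real.exp_pos _)
    have h10 := Real.sin_sq_add_cos_sq (u θ)
    rw [h7] at h10
    nlinarith
  have hpi := Real.pi_pos
  have hmem : u 0 - Real.pi ∈ Icc (u (2 * Real.pi)) (u 0) := by
    rw [h2]
    constructor <;> linarith
  obtain ⟨θ, -, hθ⟩ := intermediate_value_Icc' (by linarith) huc.continuousOn hmem
  have h11 := hcos θ
  rw [hθ, Real.cos_sub_pi, hcos 0] at h11
  linarith

theorem frontier_component {X : Set ℂ} (hX : IsClosed X) (p : ℂ) :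
    frontier (connectedComponentIn Xᶜ p) ⊆ X := by
  intro w hw
  by_contra hwX
  have hopen : IsOpen (connectedComponentIn Xᶜ p) := hX.isOpen_compl.connectedComponentIn
  have hw1 : w ∈ closure (connectedComponentIn Xᶜ p) := frontier_subset_closure hw
  have hw2 : w ∉ connectedComponentIn Xᶜ p := by
    intro h
    have := hopen.frontier_eq
    rw [this] at hw
    exact hw.2 h
  have hopen' : IsOpen (connectedComponentIn Xᶜ w) := hX.isOpen_compl.connectedComponentIn
  have hmem : w ∈ connectedComponentIn Xᶜ w := mem_connectedComponentIn hwX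
  obtain ⟨v, hv1, hv2⟩ := mem_closure_iff.1 hw1 _ hopen' hmem
  have e1 := connectedComponentIn_eq hv1
  have e2 := connectedComponentIn_eq hv2
  apply hw2
  rw [e2, ← e1]
  exact hmem

/-- Borsuk: if `w - p` has a continuous logarithm on the compact set `X`, then the component of
`p` in the complement of `X` is unbounded. -/
theorem borsuk {X : Set ℂ} (hX : IsClosed X) {p : ℂ} (hp : p ∉ X) {Λ : ℂ → ℂ}
    (hΛ : ContinuousOn Λ X) (h : ∀ w ∈ X, w - p = Complex.exp (Λ w)) :
    ¬ Bornology.IsBounded (connectedComponentIn Xᶜ p) := by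
  classical
  intro hb
  set V := connectedComponentIn Xᶜ p with hV
  have hpV : p ∈ V := mem_connectedComponentIn hp
  obtain ⟨g, hg⟩ := ContinuousMap.exists_restrict_eq hX
    (⟨X.domRestrict Λ, continuousOn_iff_continuous_domRestrict.1 hΛ⟩ : C(X, ℂ))
  have hgX : ∀ w ∈ X, g w = Λ w := by
    intro w hw
    have := congrArg (fun f : C(X, ℂ) => f ⟨w, hw⟩) hg
    simpa using this
  set F : ℂ → ℂ := V.piecewise (fun w => Complex.exp (g w)) (fun w => w - p) with hF
  have hFc : Continuous F := by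
    apply Continuous.piecewise
    · intro w hw
      have hwX := frontier_component hX p hw
      rw [hgX w hwX, ← h w hwX]
    · exact Complex.continuous_exp.comp g.continuous
    · fun_prop
  have hF0 : ∀ w, F w ≠ 0 := by
    intro w
    by_cases hw : w ∈ V
    · rw [hF, Set.piecewise_eq_of_mem _ _ _ hw]
      exact Complex.exp_ne_zero _
    · rw [hF, Set.piecewise_eq_of_notMem _ _ _ hw]
      intro h0
      apply hw
      rw [sub_eq_zero.1 h0]
      exact hpV
  obtain ⟨L, hL, hL2⟩ := exists_log hFc hF0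
  obtain ⟨R, hR⟩ := hb.subset_closedBall p
  have hR1 : (0:ℝ) < |R| + 1 := by positivity
  apply no_log_circle (p := p) hR1 hL
  intro θ
  rw [hL2]
  have hnot : p + ((|R| + 1 : ℝ) : ℂ) * Complex.exp (θ * Complex.I) ∉ V := by
    intro hmem
    have := hR hmem
    rw [mem_closedBall_iff_norm, add_sub_cancel_left, norm_mul, Complex.norm_exp_ofReal_mul_I,
      mul_one, Complex.norm_real, Real.norm_eq_abs, abs_of_pos hR1] at this
    have := le_abs_self R
    linarith
  rw [hF, Set.piecewise_eq_of_notMem _ _ _ hnot]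
  ring

end MPe9314e
end

section

section

/-!
# Injective paths in open connected subsets of the plane
-/

set_option autoImplicit false

open Topology Set

namespace MPe9314e

/-- the first time a path meets a closed set -/
theorem first_hit {γ : ℝ → ℂ} {a b : ℝ} (hab : a ≤ b) (hγ : ContinuousOn γ (Icc a b)) {W : Set ℂ}
    (hW : IsClosed W) (hb : γ b ∈ W) :
    ∃ t ∈ Icc a b, γ t ∈ W ∧ ∀ s ∈ Ico a t, γ s ∉ W := by
  have hK : IsCompact (Icc a b ∩ γ ⁻¹' W) :=
    (isCompact_Icc).of_isClosed_subset (hγ.preimage_isClosed_of_isClosed isClosed_Icc hW)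
      inter_subset_left
  obtain ⟨t, ht, hmin⟩ := hK.exists_isLeast ⟨b, ⟨hab, le_refl b⟩, hb⟩
  refine ⟨t, ht.1, ht.2, fun s hs hsW => ?_⟩
  have := hmin ⟨⟨hs.1, hs.2.le.trans ht.1.2⟩, hsW⟩
  exact absurd hs.2 (not_lt.2 this)

/-- concatenation of two injective paths which meet only at the joint -/
theorem concat {γ η : ℝ → ℂ} {a t s e : ℝ} (hat : a ≤ t) (hse : s ≤ e)
    (hγ : ContinuousOn γ (Icc a t)) (hη : ContinuousOn η (Icc s e)) (hγi : InjOn γ (Icc a t))
    (hηi : InjOn η (Icc s e)) (hj : γ t = η s) (hd : ∀ u ∈ Ico a t, ∀ v ∈ Icc s e, γ u ≠ η v) :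
    ∃ δ : ℝ → ℂ, ContinuousOn δ (Icc a (t + (e - s))) ∧ InjOn δ (Icc a (t + (e - s))) ∧
      (∀ u ≤ t, δ u = γ u) ∧ ∀ u, t ≤ u → δ u = η (u - t + s) := by
  classical
  set δ : ℝ → ℂ := fun u => if u ≤ t then γ u else η (u - t + s) with hδ
  have h1 : ∀ u ≤ t, δ u = γ u := fun u hu => by simp only [hδ, if_pos hu]
  have h2 : ∀ u, t ≤ u → δ u = η (u - t + s) := by
    intro u hu
    rcases hu.eq_or_lt with rfl | hu
    · rw [h1 t le_rfl, hj]
      congr 1
      ring
    · simp only [hδ, if_neg (not_le.2 hu)]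
  refine ⟨δ, ?_, ?_, h1, h2⟩
  · have hun : Icc a (t + (e - s)) = Icc a t ∪ Icc t (t + (e - s)) :=
      (Icc_union_Icc_eq_Icc hat (by linarith)).symm
    rw [hun]
    apply ContinuousOn.union_of_isClosed
    · exact hγ.congr fun u hu => h1 u hu.2
    · have hc : ContinuousOn (fun u => η (u - t + s)) (Icc t (t + (e - s))) := by
        apply hη.comp (by fun_prop)
        intro u hu
        exact ⟨by linarith [hu.1], by linarith [hu.2]⟩
      exact hc.congr fun u hu => h2 u hu.1
    · exact isClosed_Icc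
    · exact isClosed_Icc
  · have key : ∀ u ∈ Icc a (t + (e - s)), ∀ v ∈ Icc a (t + (e - s)), u < v → δ u ≠ δ v := by
      intro u hu v hv huv heq
      rcases le_or_gt v t with hvt | hvt
      · rw [h1 u (huv.le.trans hvt), h1 v hvt] at heq
        have := hγi ⟨hu.1, huv.le.trans hvt⟩ ⟨hv.1, hvt⟩ heq
        exact huv.ne this
      · rcases lt_or_ge u t with hut | hut
        · rw [h1 u hut.le, h2 v hvt.le] at heq
          exact hd u ⟨hu.1, hut⟩ (v - t + s) ⟨by linarith, by linarith [hv.2]⟩ heq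
        · rw [h2 u hut, h2 v hvt.le] at heq
          have := hηi (show u - t + s ∈ Icc s e from ⟨by linarith, by linarith [hu.2]⟩)
            (show v - t + s ∈ Icc s e from ⟨by linarith, by linarith [hv.2]⟩) heq
          linarith
    intro u hu v hv heq
    rcases lt_trichotomy u v with h | h | h
    · exact absurd heq (key u hu v hv h)
    · exact h
    · exact absurd heq.symm (key v hv u hu h)

/-- there is an injective path from `α` to `q`, with values in `Ω` except for the start -/
def HasArc (Ω : Set ℂ) (α q : ℂ) : Prop :=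
  ∃ (γ : ℝ → ℂ) (a b : ℝ), a < b ∧ ContinuousOn γ (Icc a b) ∧ InjOn γ (Icc a b) ∧ γ a = α ∧
    γ b = q ∧ ∀ t ∈ Ioc a b, γ t ∈ Ω

theorem HasArc.step {Ω : Set ℂ} {α q r : ℂ} (hα : α ∉ Ω) (h : HasArc Ω α q)
    (hseg : segment ℝ q r ⊆ Ω) : HasArc Ω α r := by
  obtain ⟨γ, a, b, hab, hγ, hγi, hγa, hγb, hγΩ⟩ := h
  have hcl : IsClosed (segment ℝ q r) := by
    have : IsCompact (segment ℝ q r) := by
      rw [segment_eq_image_lineMap]
      exact isCompact_Icc.image (by fun_prop)
    exact this.isClosed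
  obtain ⟨t, ht, htW, hmin⟩ := first_hit hab.le hγ hcl (by rw [hγb]; exact left_mem_segment ℝ q r)
  have hat : a < t := by
    rcases ht.1.eq_or_lt with h | h
    · exfalso
      apply hα
      rw [← hγa, h]
      exact hseg htW
    · exact h
  have hsub : Icc a t ⊆ Icc a b := Icc_subset_Icc le_rfl ht.2
  rcases eq_or_ne (γ t) r with hr | hr
  · exact ⟨γ, a, t, hat, hγ.mono hsub, hγi.mono hsub, hγa, hr,
      fun s hs => hγΩ s ⟨hs.1, hs.2.trans ht.2⟩⟩
  · have hseg2 : ∀ v ∈ Icc (0:ℝ) 1, AffineMap.lineMap (γ t) r v ∈ segment ℝ q r := by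
      intro v hv
      have h1 : segment ℝ (γ t) r ⊆ segment ℝ q r :=
        (convex_segment q r).segment_subset htW (right_mem_segment ℝ q r)
      apply h1
      rw [segment_eq_image_lineMap]
      exact mem_image_of_mem _ hv
    obtain ⟨δ, hδ, hδi, h1, h2⟩ := concat (γ := γ) (η := fun v => AffineMap.lineMap (γ t) r v)
      (a := a) (t := t) (s := 0) (e := 1) hat.le zero_le_one (hγ.mono hsub) (by fun_prop)
      (hγi.mono hsub)
      (by
        intro u _ v _ huv
        exact AffineMap.lineMap_injective ℝ hr huv)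
      (by simp)
      (by
        intro u hu v hv heq
        apply hmin u hu
        rw [heq]
        exact hseg2 v hv)
    refine ⟨δ, a, t + (1 - 0), by linarith, hδ, hδi, ?_, ?_, ?_⟩
    · rw [h1 a hat.le, hγa]
    · rw [h2 _ (by linarith)]
      have : t + (1 - 0) - t + 0 = (1:ℝ) := by ring
      rw [this]
      simp
    · intro u hu
      rcases le_or_gt u t with hut | hut
      · rw [h1 u hut]
        exact hγΩ u ⟨hu.1, hut.trans ht.2⟩
      · rw [h2 u hut.le]
        apply hseg
        apply hseg2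
        exact ⟨by linarith, by linarith [hu.2]⟩

theorem HasArc.all {Ω : Set ℂ} (hΩ : IsOpen Ω) (hc : IsPreconnected Ω) {α q r : ℂ} (hα : α ∉ Ω)
    (hq : q ∈ Ω) (hr : r ∈ Ω) (h : HasArc Ω α q) : HasArc Ω α r := by
  refine hc.induction₂' (fun u v => HasArc Ω α u → HasArc Ω α v) ?_ ?_ hq hr h
  · intro u hu
    obtain ⟨ε, hε, hball⟩ := Metric.isOpen_iff.1 hΩ u hu
    apply Filter.Eventually.filter_mono nhdsWithin_le_nhds
    filter_upwards [Metric.ball_mem_nhds u hε] with v hv
    have hs : segment ℝ u v ⊆ Ω :=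
      ((convex_ball u ε).segment_subset (Metric.mem_ball_self hε) hv).trans hball
    exact ⟨fun h => h.step hα hs, fun h => h.step hα (by rw [segment_symm]; exact hs)⟩
  · intro x y z _ _ _ h1 h2 h3
    exact h2 (h1 h3)

/-- two whiskers of an open connected set are joined by an injective path, parametrised by a given
interval -/
theorem exists_arc {Ω : Set ℂ} (hΩ : IsOpen Ω) (hc : IsPreconnected Ω) {α β : ℂ} (hα : α ∉ Ω)
    (hβ : β ∉ Ω) (hαβ : α ≠ β) {γ η : ℝ → ℂ} {a b s e : ℝ} (hab : a < b) (hse : s < e)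
    (hγ : ContinuousOn γ (Icc a b)) (hγi : InjOn γ (Icc a b)) (hγa : γ a = α)
    (hγΩ : ∀ t ∈ Ioc a b, γ t ∈ Ω) (hη : ContinuousOn η (Icc s e)) (hηi : InjOn η (Icc s e))
    (hηe : η e = β) (hηΩ : ∀ t ∈ Ico s e, η t ∈ Ω) {u v : ℝ} (huv : u < v) :
    ∃ δ : ℝ → ℂ, ContinuousOn δ (Icc u v) ∧ InjOn δ (Icc u v) ∧ δ u = α ∧ δ v = β ∧
      ∀ t ∈ Ioo u v, δ t ∈ Ω := by
  have hA : HasArc Ω α (γ b) := ⟨γ, a, b, hab, hγ, hγi, hγa, rfl, hγΩ⟩
  have hB : HasArc Ω α (η s) :=
    hA.all hΩ hc hα (hγΩ b ⟨hab, le_rfl⟩) (hηΩ s ⟨le_rfl, hse⟩)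
  obtain ⟨κ, a', b', hab', hκ, hκi, hκa, hκb, hκΩ⟩ := hB
  have hcl : IsClosed (η '' Icc s e) := (isCompact_Icc.image_of_continuousOn hη).isClosed
  obtain ⟨t, ht, htW, hmin⟩ := first_hit hab'.le hκ hcl
    (by rw [hκb]; exact mem_image_of_mem _ ⟨le_rfl, hse.le⟩)
  obtain ⟨w, hw, hwt⟩ := htW
  have hat : a' < t := by
    rcases ht.1.eq_or_lt with h | h
    · exfalso
      rw [← h, hκa] at hwt
      rcases hw.2.eq_or_lt with h3 | h3
      · rw [h3, hηe] at hwt
        exact hαβ hwt.symm
      · apply hα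
        rw [← hwt]
        exact hηΩ w ⟨hw.1, h3⟩
    · exact h
  have hwe : w < e := by
    rcases hw.2.eq_or_lt with h3 | h3
    · exfalso
      apply hβ
      rw [← hηe, ← h3, hwt]
      exact hκΩ t ⟨hat, ht.2⟩
    · exact h3
  have hsub : Icc a' t ⊆ Icc a' b' := Icc_subset_Icc le_rfl ht.2
  have hsub2 : Icc w e ⊆ Icc s e := Icc_subset_Icc hw.1 le_rfl
  obtain ⟨δ, hδ, hδi, h1, h2⟩ := concat (γ := κ) (η := η) (a := a') (t := t) (s := w) (e := e)
    hat.le hwe.le (hκ.mono hsub) (hη.mono hsub2) (hκi.mono hsub) (hηi.mono hsub2) hwt.symm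
    (by
      intro x hx y hy heq
      apply hmin x hx
      rw [heq]
      exact mem_image_of_mem _ (hsub2 hy))
  -- reparametrisation
  set c := t + (e - w) with hcdef
  have hac : a' < c := by rw [hcdef]; linarith
  have hvu : 0 < v - u := by linarith
  set ρ : ℝ → ℝ := fun x => a' + (x - u) * ((c - a') / (v - u)) with hρ
  have hk : 0 < (c - a') / (v - u) := div_pos (by linarith) hvu
  have hρu : ρ u = a' := by simp [hρ]
  have hρv : ρ v = c := by
    simp only [hρ]
    field_simp
    ring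
  have hmono : StrictMono ρ := by
    intro x y hxy
    simp only [hρ]
    have := mul_lt_mul_of_pos_right (sub_lt_sub_right hxy u) hk
    linarith
  have hmaps : MapsTo ρ (Icc u v) (Icc a' c) := by
    intro x hx
    rw [← hρu, ← hρv]
    exact ⟨hmono.monotone hx.1, hmono.monotone hx.2⟩
  refine ⟨δ ∘ ρ, hδ.comp (by fun_prop) hmaps, hδi.comp hmono.injective.injOn hmaps, ?_, ?_, ?_⟩
  · simp only [Function.comp]
    rw [hρu, h1 a' hat.le, hκa]
  · simp only [Function.comp]
    rw [hρv, h2 c (by rw [hcdef]; linarith)]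
    have : c - t + w = e := by rw [hcdef]; ring
    rw [this, hηe]
  · intro x hx
    have hx1 : a' < ρ x := by rw [← hρu]; exact hmono hx.1
    have hx2 : ρ x < c := by rw [← hρv]; exact hmono hx.2
    simp only [Function.comp]
    rcases le_or_gt (ρ x) t with hxt | hxt
    · rw [h1 _ hxt]
      exact hκΩ _ ⟨hx1, hxt.trans ht.2⟩
    · rw [h2 _ hxt.le]
      apply hηΩ
      constructor
      · linarith [hw.1]
      · rw [hcdef] at hx2
        linarith

end MPe9314e
end

section

/-!
# Complex Chebyshev systems (MP_e9314e_an): zeros moving along an arc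
-/

set_option autoImplicit false

open Topology Set

namespace MPe9314e

variable {Q : Type*} [TopologicalSpace Q] {d : ℕ}

/-- the functions `G`, `H` differ by the exponential of a continuous function on `M` -/
def LogRel (M : Set Q) (G H : Q → ℂ) : Prop :=
  ∃ Λ : Q → ℂ, ContinuousOn Λ M ∧ ∀ z ∈ M, G z = Complex.exp (Λ z) * H z

theorem LogRel.symm {M : Set Q} {G H : Q → ℂ} (h : LogRel M G H) : LogRel M H G := by
  obtain ⟨Λ, hΛ, h⟩ := h
  refine ⟨fun z => -Λ z, hΛ.neg, fun z hz => ?_⟩
  rw [h z hz, ← mul_assoc, ← Complex.exp_add]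
  simp

theorem LogRel.trans {M : Set Q} {G H K : Q → ℂ} (h : LogRel M G H) (h' : LogRel M H K) :
    LogRel M G K := by
  obtain ⟨Λ, hΛ, h⟩ := h
  obtain ⟨Λ', hΛ', h'⟩ := h'
  refine ⟨fun z => Λ z + Λ' z, hΛ.add hΛ', fun z hz => ?_⟩
  rw [h z hz, h' z hz, Complex.exp_add, mul_assoc]

theorem LogRel.smul_left {M : Set Q} {G H : Q → ℂ} (h : LogRel M G H) {c : ℂ} (hc : c ≠ 0) :
    LogRel M (fun z => c * G z) H := by
  obtain ⟨Λ, hΛ, h⟩ := h
  refine ⟨fun z => Complex.log c + Λ z, continuousOn_const.add hΛ, fun z hz => ?_⟩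
  simp only []
  rw [Complex.exp_add, Complex.exp_log hc, h z hz, mul_assoc]

/-- ordered configurations in an interval -/
def Conf (d : ℕ) (a b : ℝ) : Set (Fin d → ℝ) := {s | StrictMono s ∧ ∀ i, s i ∈ Ioo a b}

theorem convex_conf (d : ℕ) (a b : ℝ) : Convex ℝ (Conf d a b) := by
  intro s hs s' hs' u v hu hv huv
  refine ⟨?_, fun i => ?_⟩
  · intro i j hij
    have h1 := hs.1 hij
    have h2 := hs'.1 hij
    simp only [Pi.add_apply, Pi.smul_apply, smul_eq_mul]
    rcases hu.eq_or_lt with h | h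
    · subst h
      have : v = 1 := by linarith
      subst this
      linarith
    · have h3 := mul_lt_mul_of_pos_left h1 h
      have h4 := mul_le_mul_of_nonneg_left h2.le hv
      linarith
  · exact (convex_Ioo a b) (hs.2 i) (hs'.2 i) hu hv huv

theorem logRel_near {x : Fin (d + 1) → C(Q, ℂ)} (hx : IsChebyshevSystem x) {φ : ℝ → Q}
    (hφ : Continuous φ) (hinj : Function.Injective φ) {a b : ℝ} {M : Set Q} (hM : IsCompact M)
    (hMφ : ∀ t ∈ Ioo a b, φ t ∉ M) {s : Fin d → ℝ} (hs : s ∈ Conf d a b) :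
    ∀ᶠ s' in 𝓝 s, LogRel M (ev x (cof x (φ ∘ s'))) (ev x (cof x (φ ∘ s))) := by
  set G : (Fin d → ℝ) → Q → ℂ := fun s z => ev x (cof x (φ ∘ s)) z with hG
  have hGc : Continuous (fun p : (Fin d → ℝ) × Q => G p.1 p.2) := by
    have h1 : Continuous (fun p : (Fin d → ℝ) × Q => ((cof x (φ ∘ p.1), p.2) : (Fin (d + 1) → ℂ) × Q)) := by
      refine Continuous.prodMk ?_ continuous_snd
      refine (continuous_cof x).comp ?_
      refine continuous_pi fun i => ?_
      exact hφ.comp ((continuous_apply i).comp continuous_fst)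
    exact (continuous_ev₂ x).comp h1
  have hne : ∀ z ∈ M, G s z ≠ 0 := by
    intro z hz
    apply ev_cof_ne x hx (hinj.comp hs.1.injective)
    intro i h
    apply hMφ (s i) (hs.2 i)
    have : φ (s i) = z := h
    rw [this]
    exact hz
  have hev : ∀ᶠ s' in 𝓝 s, ∀ z ∈ M, ‖G s' z - G s z‖ < ‖G s z‖ := by
    apply hM.eventually_forall_of_forall_eventually
    intro z hz
    have hopen : IsOpen {p : (Fin d → ℝ) × Q | ‖G p.1 p.2 - G s p.2‖ < ‖G s p.2‖} := by
      apply isOpen_lt
      · have h2 : Continuous (fun p : (Fin d → ℝ) × Q => G s p.2) :=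
          (continuous_ev x _).comp continuous_snd
        exact (hGc.sub h2).norm
      · exact ((continuous_ev x _).comp continuous_snd).norm
    apply hopen.mem_nhds
    simp only [mem_setOf_eq, sub_self, norm_zero]
    exact norm_pos_iff.2 (hne z hz)
  filter_upwards [hev] with s' hs'
  refine ⟨fun z => Complex.log (G s' z / G s z), ?_, fun z hz => ?_⟩
  · intro z hz
    apply ContinuousWithinAt.clog
    · apply ContinuousWithinAt.div
      · exact (continuous_ev x _).continuousWithinAt
      · exact (continuous_ev x _).continuousWithinAt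
      · exact hne z hz
    · have h1 : G s' z / G s z = 1 + (G s' z - G s z) / G s z := by
        have := hne z hz
        field_simp
        ring
      rw [h1]
      apply Complex.mem_slitPlane_of_norm_lt_one
      rw [norm_div, div_lt_one (norm_pos_iff.2 (hne z hz))]
      exact hs' z hz
  · simp only []
    rw [Complex.exp_log]
    · rw [div_mul_cancel₀]
      exact hne z hz
    · apply div_ne_zero _ (hne z hz)
      intro h0
      have := hs' z hz
      rw [h0, zero_sub, norm_neg] at this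
      exact lt_irrefl _ this

theorem logRel_cof {x : Fin (d + 1) → C(Q, ℂ)} (hx : IsChebyshevSystem x) {φ : ℝ → Q}
    (hφ : Continuous φ) (hinj : Function.Injective φ) {a b : ℝ} {M : Set Q} (hM : IsCompact M)
    (hMφ : ∀ t ∈ Ioo a b, φ t ∉ M) {s s' : Fin d → ℝ} (hs : s ∈ Conf d a b)
    (hs' : s' ∈ Conf d a b) :
    LogRel M (ev x (cof x (φ ∘ s))) (ev x (cof x (φ ∘ s'))) := by
  apply (convex_conf d a b).isPreconnected.induction₂
    (fun s s' => LogRel M (ev x (cof x (φ ∘ s))) (ev x (cof x (φ ∘ s')))) ?_ ?_ ?_ hs hs'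
  · intro s hs
    apply Filter.Eventually.filter_mono nhdsWithin_le_nhds
    filter_upwards [logRel_near hx hφ hinj hM hMφ hs] with t ht
    exact ht.symm
  · intro s1 s2 s3 _ _ _ h h'
    exact h.trans h'
  · intro s1 s2 _ _ h
    exact h.symm

/-- two nonzero combinations, each vanishing at `d` points of the open arc `φ (a,b)`, differ on a
compact set disjoint from the arc by the exponential of a continuous function -/
theorem logRel_arc {x : Fin (d + 1) → C(Q, ℂ)} (hx : IsChebyshevSystem x) {φ : ℝ → Q}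
    (hφ : Continuous φ) (hinj : Function.Injective φ) {a b : ℝ} {M : Set Q} (hM : IsCompact M)
    (hMφ : ∀ t ∈ Ioo a b, φ t ∉ M) {α β : Fin (d + 1) → ℂ} (hα : α ≠ 0) (hβ : β ≠ 0)
    {S T : Finset ℝ} (hS : S.card = d) (hT : T.card = d) (hSab : ∀ t ∈ S, t ∈ Ioo a b)
    (hTab : ∀ t ∈ T, t ∈ Ioo a b) (hαS : ∀ t ∈ S, ev x α (φ t) = 0)
    (hβT : ∀ t ∈ T, ev x β (φ t) = 0) : LogRel M (ev x α) (ev x β) := by
  classical
  rcases M.eq_empty_or_nonempty with rfl | ⟨z, hz⟩
  · exact ⟨fun _ => 0, continuousOn_empty _, by simp⟩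
  -- reduction to `cof`
  have key : ∀ {γ : Fin (d + 1) → ℂ} (_ : γ ≠ 0) {R : Finset ℝ} (hR : R.card = d)
      (_ : ∀ t ∈ R, t ∈ Ioo a b) (_ : ∀ t ∈ R, ev x γ (φ t) = 0),
      (⇑(R.orderEmbOfFin hR) : Fin d → ℝ) ∈ Conf d a b ∧
        LogRel M (ev x γ) (ev x (cof x (φ ∘ R.orderEmbOfFin hR))) := by
    intro γ hγ R hR hRab hγR
    have hC : (⇑(R.orderEmbOfFin hR) : Fin d → ℝ) ∈ Conf d a b :=
      ⟨(R.orderEmbOfFin hR).strictMono, fun i => hRab _ (R.orderEmbOfFin_mem hR i)⟩
    refine ⟨hC, ?_⟩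
    have hzne : ∀ i, (φ ∘ R.orderEmbOfFin hR) i ≠ z := by
      intro i h
      apply hMφ _ (hC.2 i)
      have : φ (R.orderEmbOfFin hR i) = z := h
      rw [this]
      exact hz
    have hev := ev_cof_ne x hx (q := φ ∘ R.orderEmbOfFin hR) (hinj.comp hC.1.injective) hzne
    have hcof : cof x (φ ∘ R.orderEmbOfFin hR) ≠ 0 := by
      intro h
      apply hev
      rw [h]
      simp [ev]
    have hcard : (R.image φ).card = d := by
      rw [Finset.card_image_of_injective _ hinj, hR]
    have hzn : z ∉ R.image φ := by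
      intro h
      obtain ⟨t, ht, rfl⟩ := Finset.mem_image.1 h
      exact hMφ t (hRab t ht) hz
    obtain ⟨c, hc, h⟩ := exists_smul hx hcard hzn hγ hcof
      (by
        intro q hq
        obtain ⟨t, ht, rfl⟩ := Finset.mem_image.1 hq
        exact hγR t ht)
      (by
        intro q hq
        obtain ⟨t, ht, rfl⟩ := Finset.mem_image.1 hq
        have hr : t ∈ Set.range (R.orderEmbOfFin hR) := by
          rw [Finset.range_orderEmbOfFin]
          exact ht
        obtain ⟨i, rfl⟩ := hr
        exact ev_cof_self x (φ ∘ R.orderEmbOfFin hR) i)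
    refine ⟨fun _ => Complex.log c, continuousOn_const, fun w _ => ?_⟩
    simp only []
    rw [Complex.exp_log hc, h, ev_smul]
  obtain ⟨hC1, h1⟩ := key hα hS hSab hαS
  obtain ⟨hC2, h2⟩ := key hβ hT hTab hβT
  exact (h1.trans (logRel_cof hx hφ hinj hM hMφ hC1 hC2)).trans h2.symm

end MPe9314e
end

section

/-!
# Compact spaces with a free arc and a complex Chebyshev system are planar
-/

set_option autoImplicit false

open Topology Set

namespace MPe9314e

theorem isPreconnected_far {R : ℝ} (hR : 0 < R) : IsPreconnected {w : ℂ | R < ‖w‖} := by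
  have h : {w : ℂ | R < ‖w‖} = Complex.exp '' {z : ℂ | Real.log R < z.re} := by
    ext w
    constructor
    · intro hw
      have hw' : R < ‖w‖ := hw
      have hw0 : w ≠ 0 := by
        rintro rfl
        rw [norm_zero] at hw'
        linarith
      refine ⟨Complex.log w, ?_, Complex.exp_log hw0⟩
      change Real.log R < (Complex.log w).re
      rw [Complex.log_re]
      exact Real.log_lt_log hR hw'
    · rintro ⟨z, hz, rfl⟩
      have hz' : Real.log R < z.re := hz
      change R < ‖Complex.exp z‖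
      rw [Complex.norm_exp]
      exact (Real.log_lt_iff_lt_exp hR).1 hz'
  rw [h]
  apply IsPreconnected.image _ _ Complex.continuous_exp.continuousOn
  exact (convex_halfSpace_re_gt _).isPreconnected

theorem component_eq {X : Set ℂ} (hX : IsCompact X) {p q : ℂ}
    (hp : ¬ Bornology.IsBounded (connectedComponentIn Xᶜ p))
    (hq : ¬ Bornology.IsBounded (connectedComponentIn Xᶜ q)) :
    connectedComponentIn Xᶜ p = connectedComponentIn Xᶜ q := by
  obtain ⟨R, hR⟩ := hX.isBounded.subset_closedBall 0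
  set R' := |R| + 1 with hR'
  have hR'0 : 0 < R' := by positivity
  have hsub : {w : ℂ | R' < ‖w‖} ⊆ Xᶜ := by
    intro w hw hwX
    have h1 := hR hwX
    rw [mem_closedBall_zero_iff] at h1
    have h2 : R' < ‖w‖ := hw
    have := le_abs_self R
    linarith
  have key : ∀ r : ℂ, ¬ Bornology.IsBounded (connectedComponentIn Xᶜ r) →
      ∃ u, R' < ‖u‖ ∧ u ∈ connectedComponentIn Xᶜ r := by
    intro r hr
    by_contra hcon
    push Not at hcon
    apply hr
    apply Metric.isBounded_closedBall.subset (s := connectedComponentIn Xᶜ r) (t := Metric.closedBall 0 R')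
    intro u hu
    rw [mem_closedBall_zero_iff]
    by_contra h
    exact hcon u (not_le.1 h) hu
  obtain ⟨u, hu, hup⟩ := key p hp
  obtain ⟨v, hv, hvq⟩ := key q hq
  have h1 : {w : ℂ | R' < ‖w‖} ⊆ connectedComponentIn Xᶜ u :=
    (isPreconnected_far hR'0).subset_connectedComponentIn hu hsub
  have h2 : v ∈ connectedComponentIn Xᶜ u := h1 hv
  rw [connectedComponentIn_eq hup, connectedComponentIn_eq h2, connectedComponentIn_eq hvq]

theorem borsuk_embedding {K : Type*} [TopologicalSpace K] {e : K → ℂ} (he : IsClosedEmbedding e)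
    {p : ℂ} (hp : p ∉ range e) {Λ : K → ℂ} (hΛ : Continuous Λ)
    (h : ∀ k, e k - p = Complex.exp (Λ k)) :
    ¬ Bornology.IsBounded (connectedComponentIn (range e)ᶜ p) := by
  obtain ⟨g, hg⟩ := ContinuousMap.exists_extension' he (⟨Λ, hΛ⟩ : C(K, ℂ))
  apply borsuk he.isClosed_range hp (Λ := g) g.continuous.continuousOn
  rintro w ⟨k, rfl⟩
  rw [h k]
  have := congrFun hg k
  simp only [Function.comp, ContinuousMap.coe_mk] at this
  rw [this]

variable {Q : Type*} [TopologicalSpace Q] {d : ℕ}

/-- the quotient of two combinations with `d - 1` common zeros -/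
theorem quotient_props {x : Fin (d + 1) → C(Q, ℂ)} (hx : IsChebyshevSystem x) {P : Finset Q}
    (hP : P.card = d) {x0 : Q} (hx0 : x0 ∈ P) {α β : Fin (d + 1) → ℂ} (hβ : β ≠ 0)
    (hβ0 : ∀ q ∈ P, ev x β q = 0) (hα0 : ∀ q ∈ P, q ≠ x0 → ev x α q = 0) (hα : ev x α x0 ≠ 0) :
    (∀ z, z ∉ P → ev x β z ≠ 0) ∧ ContinuousOn (fun z => ev x α z / ev x β z) {z | z ∉ P} ∧
      InjOn (fun z => ev x α z / ev x β z) {z | z ∉ P} := by
  classical
  have h1 : ∀ z, z ∉ P → ev x β z ≠ 0 := by
    intro z hz h0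
    apply hβ
    apply hx.eq_zero (S := insert z P)
    · rw [Finset.card_insert_of_notMem hz, hP]
    · intro q hq
      rcases Finset.mem_insert.1 hq with rfl | hq
      · exact h0
      · exact hβ0 q hq
  refine ⟨h1, ?_, ?_⟩
  · exact (continuous_ev x α).continuousOn.div (continuous_ev x β).continuousOn h1
  · intro z hz w hw hzw
    by_contra hne
    have hzw' : ev x α z / ev x β z = ev x α w / ev x β w := hzw
    set c := ev x α z / ev x β z with hc
    have h2 : α - c • β = 0 := by
      apply hx.eq_zero (S := insert z (insert w (P.erase x0)))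
      · rw [Finset.card_insert_of_notMem, Finset.card_insert_of_notMem, Finset.card_erase_of_mem hx0,
          hP]
        · have : 0 < P.card := Finset.card_pos.2 ⟨x0, hx0⟩
          omega
        · intro h
          exact hw (Finset.mem_of_mem_erase h)
        · intro h
          rcases Finset.mem_insert.1 h with h | h
          · exact hne h
          · exact hz (Finset.mem_of_mem_erase h)
      · intro q hq
        rw [ev_sub, ev_smul]
        rcases Finset.mem_insert.1 hq with rfl | hq
        · rw [hc, div_mul_cancel₀ _ (h1 _ hz), sub_self]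
        rcases Finset.mem_insert.1 hq with rfl | hq
        · rw [hzw', div_mul_cancel₀ _ (h1 _ hw), sub_self]
        · rw [hα0 q (Finset.mem_of_mem_erase hq) (Finset.ne_of_mem_erase hq),
            hβ0 q (Finset.mem_of_mem_erase hq)]
          ring
    apply hα
    have h3 := congrArg (fun γ => ev x γ x0) h2
    simp only [ev_sub, ev_smul, hβ0 x0 hx0] at h3
    rw [mul_zero, sub_zero] at h3
    rw [h3]
    simp [ev]

/-- existence of the quotient -/
theorem exists_quotient {x : Fin (d + 1) → C(Q, ℂ)} (hx : IsChebyshevSystem x) {P : Finset Q}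
    (hP : P.card = d) {x0 x1 : Q} (hx0 : x0 ∈ P) (hx1 : x1 ∉ P) :
    ∃ α β : Fin (d + 1) → ℂ, β ≠ 0 ∧ (∀ q ∈ P, ev x β q = 0) ∧
      (∀ q ∈ P, q ≠ x0 → ev x α q = 0) ∧ ev x α x0 ≠ 0 := by
  classical
  obtain ⟨β, hβ, hβ0⟩ := exists_vanish x P hP.le
  have hd : 0 < P.card := Finset.card_pos.2 ⟨x0, hx0⟩
  have hx1' : x1 ∉ P.erase x0 := fun h => hx1 (Finset.mem_of_mem_erase h)
  have hc : (insert x1 (P.erase x0)).card = d := by
    rw [Finset.card_insert_of_notMem hx1', Finset.card_erase_of_mem hx0, hP]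
    omega
  obtain ⟨α, hα, hα0⟩ := exists_vanish x (insert x1 (P.erase x0)) hc.le
  refine ⟨α, β, hβ, hβ0, ?_, ?_⟩
  · intro q hq hne
    exact hα0 q (Finset.mem_insert_of_mem (Finset.mem_erase.2 ⟨hne, hq⟩))
  · intro h0
    apply hα
    apply hx.eq_zero (S := insert x1 P)
    · rw [Finset.card_insert_of_notMem hx1, hP]
    · intro q hq
      rcases Finset.mem_insert.1 hq with rfl | hq
      · exact hα0 _ (Finset.mem_insert_self _ _)
      · rcases eq_or_ne q x0 with rfl | hne
        · exact h0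
        · exact hα0 q (Finset.mem_insert_of_mem (Finset.mem_erase.2 ⟨hne, hq⟩))

/-- closed sets whose complement has at least `d` points embed in the plane -/
theorem closed_planar {x : Fin (d + 1) → C(Q, ℂ)} (hd : 1 ≤ d) (hx : IsChebyshevSystem x)
    {Z : Set Q} {P : Finset Q} (hP : P.card = d) (hPZ : ∀ q ∈ P, q ∉ Z) :
    ∃ ψ : Q → ℂ, ContinuousOn ψ Z ∧ InjOn ψ Z := by
  classical
  rcases Z.eq_empty_or_nonempty with rfl | ⟨x1, hx1⟩
  · exact ⟨fun _ => 0, continuousOn_empty _, injOn_empty _⟩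
  have hx1P : x1 ∉ P := fun h => hPZ x1 h hx1
  obtain ⟨x0, hx0⟩ : P.Nonempty := Finset.card_pos.1 (by omega)
  obtain ⟨α, β, hβ, hβ0, hα0, hα⟩ := exists_quotient hx hP hx0 hx1P
  obtain ⟨-, h2, h3⟩ := quotient_props hx hP hx0 hβ hβ0 hα0 hα
  have hsub : Z ⊆ {z | z ∉ P} := fun z hz h => hPZ z h hz
  exact ⟨_, h2.mono hsub, h3.mono hsub⟩

end MPe9314e
end
end
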