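import Mathlib
import Pool.Agent.Lib.MP_e9314e_an.Main

section

/-!
# Moving finite subsets of a connected set, one point at a time
-/

set_option autoImplicit false

open Topology Set

namespace MPe9314e

variable {X : Type*} [TopologicalSpace X]

/-- if `U` is connected and `U \ {x}` is separated by `O1`, `O2`, then the first part together with
`x` is connected -/
theorem preconnected_part {U : Set X} (hU : IsPreconnected U) {x : X} (hx : x ∈ U) {O1 O2 : Set X}
    (hO1 : IsOpen O1) (hO2 : IsOpen O2) (hcov : U \ {x} ⊆ O1 ∪ O2)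
    (hdis : ∀ z ∈ U \ {x}, z ∈ O1 → z ∈ O2 → False) :
    IsPreconnected (insert x ((U \ {x}) ∩ O1)) := by
  intro V W hV hW hVW hnV hnW
  by_contra hcon
  have hno : ∀ z ∈ insert x ((U \ {x}) ∩ O1), z ∈ V → z ∈ W → False := by
    intro z hz hzV hzW
    exact hcon ⟨z, hz, hzV, hzW⟩
  -- reduce to `x ∈ V`
  have key : ∀ V W : Set X, IsOpen V → IsOpen W → insert x ((U \ {x}) ∩ O1) ⊆ V ∪ W →
      (insert x ((U \ {x}) ∩ O1) ∩ W).Nonempty →
      (∀ z ∈ insert x ((U \ {x}) ∩ O1), z ∈ V → z ∈ W → False) → x ∈ V → False := by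
    intro V W hV hW hVW hnW hno hxV
    have hxW : x ∉ W := fun h => hno x (mem_insert _ _) hxV h
    obtain ⟨w, hw, hwW⟩ := hnW
    have hwx : w ≠ x := fun h => hxW (h ▸ hwW)
    have hwA : w ∈ (U \ {x}) ∩ O1 := by
      rcases hw with h | h
      · exact absurd h hwx
      · exact h
    have hcov' : U ⊆ (V ∪ O2) ∪ (W ∩ O1) := by
      intro u hu
      by_cases hux : u = x
      · subst hux
        exact Or.inl (Or.inl hxV)
      · have hu' : u ∈ U \ {x} := ⟨hu, hux⟩
        rcases hcov hu' with h | h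
        · rcases hVW (mem_insert_of_mem x ⟨hu', h⟩) with h' | h'
          · exact Or.inl (Or.inl h')
          · exact Or.inr ⟨h', h⟩
        · exact Or.inl (Or.inr h)
    obtain ⟨u, hu, hu1, hu2⟩ := hU (V ∪ O2) (W ∩ O1) (hV.union hO2) (hW.inter hO1) hcov'
      ⟨x, hx, Or.inl hxV⟩ ⟨w, hwA.1.1, hwW, hwA.2⟩
    have hux : u ≠ x := fun h => hxW (h ▸ hu2.1)
    have hu' : u ∈ U \ {x} := ⟨hu, hux⟩
    rcases hu1 with h | h
    · exact hno u (mem_insert_of_mem x ⟨hu', hu2.2⟩) h hu2.1
    · exact hdis u hu' hu2.2 h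
  rcases hVW (mem_insert x _) with h | h
  · exact key V W hV hW hVW hnW hno h
  · exact key W V hW hV (by rw [union_comm]; exact hVW) hnV (fun z hz h1 h2 => hno z hz h2 h1) h

theorem config [T1Space X] [DecidableEq X] (m : ℕ) : ∀ (U : Set X), IsPreconnected U →
    ∀ (R : Finset X → Finset X → Prop), (∀ S, R S S) → (∀ S T, R S T → R T S) →
    (∀ S T W, R S T → R T W → R S W) →
    (∀ (S0 : Finset X) (c : X), (S0 : Set X) ⊆ U → S0.card + 1 = m → c ∈ U → c ∉ S0 →
      ∀ᶠ c' in 𝓝[U] c, R (insert c' S0) (insert c S0)) →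
    ∀ S T : Finset X, (S : Set X) ⊆ U → (T : Set X) ⊆ U → S.card = m → T.card = m → R S T := by
  induction m using Nat.strong_induction_on with
  | _ m ih =>
  intro U hU R hrefl hsymm htrans hloc S T hS hT hSm hTm
  rcases Nat.lt_or_ge m 2 with hm2 | hm2
  · interval_cases m
    · rw [Finset.card_eq_zero] at hSm hTm
      rw [hSm, hTm]
      exact hrefl _
    · obtain ⟨s, rfl⟩ := Finset.card_eq_one.1 hSm
      obtain ⟨t, rfl⟩ := Finset.card_eq_one.1 hTm
      have hs : s ∈ U := hS (by simp)
      have ht : t ∈ U := hT (by simp)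
      refine hU.induction₂ (fun x y => R {x} {y}) ?_ ?_ ?_ hs ht
      · intro x hx
        have := hloc ∅ x (by simp) (by simp) hx (by simp)
        simp only [insert_empty_eq] at this
        filter_upwards [this] with y hy
        exact hsymm _ _ hy
      · intro x y z _ _ _ h1 h2
        exact htrans _ _ _ h1 h2
      · intro x y _ _ h
        exact hsymm _ _ h
  -- moving the points outside a fixed nonempty set `D`
  have move : ∀ (D : Finset X) (U' : Set X), D.Nonempty → (D : Set X) ⊆ U → U' ⊆ U →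
      IsPreconnected U' → (∀ d ∈ D, d ∉ U') → D.card ≤ m →
      ∀ S' T' : Finset X, (S' : Set X) ⊆ U' → (T' : Set X) ⊆ U' → S'.card = m - D.card →
      T'.card = m - D.card → R (D ∪ S') (D ∪ T') := by
    intro D U' hD hDU hU'U hU' hDU' hDm S' T' hS' hT' hS'c hT'c
    have hDpos : 0 < D.card := Finset.card_pos.2 hD
    refine ih (m - D.card) (by omega) U' hU' (fun A B => R (D ∪ A) (D ∪ B)) (fun A => hrefl _)
      (fun A B h => hsymm _ _ h) (fun A B C h1 h2 => htrans _ _ _ h1 h2) ?_ S' T' hS' hT' hS'c hT'c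
    intro S0 c hS0 hS0c hc hcS0
    have hdisj : Disjoint D S0 := by
      rw [Finset.disjoint_left]
      intro d hd hd'
      exact hDU' d hd (hS0 hd')
    have hcard : (D ∪ S0).card + 1 = m := by
      rw [Finset.card_union_of_disjoint hdisj]
      omega
    have hsub : ((D ∪ S0 : Finset X) : Set X) ⊆ U := by
      rw [Finset.coe_union]
      exact union_subset hDU (hS0.trans hU'U)
    have hcn : c ∉ D ∪ S0 := by
      rw [Finset.mem_union]
      rintro (h | h)
      · exact hDU' c h hc
      · exact hcS0 h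
    have h1 := hloc (D ∪ S0) c hsub hcard (hU'U hc) hcn
    have h2 : ∀ᶠ c' in 𝓝[U'] c, R (insert c' (D ∪ S0)) (insert c (D ∪ S0)) :=
      h1.filter_mono (nhdsWithin_mono c hU'U)
    filter_upwards [h2] with c' hc'
    rwa [Finset.union_insert, Finset.union_insert]
  -- all sets containing `x` are related
  have hC : ∀ x ∈ U, ∀ S T : Finset X, (S : Set X) ⊆ U → (T : Set X) ⊆ U → S.card = m →
      T.card = m → x ∈ S → x ∈ T → R S T := by
    intro x hx
    by_cases hUx : IsPreconnected (U \ {x})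
    · intro S T hS hT hSm hTm hxS hxT
      have h := move {x} (U \ {x}) (Finset.singleton_nonempty x) (by simpa using hx) sdiff_subset
        hUx (by simp) (by simp; omega) (S.erase x) (T.erase x)
        (by
          intro y hy
          rw [Finset.coe_erase] at hy
          exact ⟨hS hy.1, hy.2⟩)
        (by
          intro y hy
          rw [Finset.coe_erase] at hy
          exact ⟨hT hy.1, hy.2⟩)
        (by rw [Finset.card_erase_of_mem hxS, Finset.card_singleton, hSm])
        (by rw [Finset.card_erase_of_mem hxT, Finset.card_singleton, hTm])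
      rwa [← Finset.insert_eq, ← Finset.insert_eq, Finset.insert_erase hxS,
        Finset.insert_erase hxT] at h
    · -- the separation
      unfold IsPreconnected at hUx
      push Not at hUx
      obtain ⟨O1, O2, hO1, hO2, hcov, hn1, hn2, hn⟩ := hUx
      have hdis : ∀ z ∈ U \ {x}, z ∈ O1 → z ∈ O2 → False := by
        intro z hz h1 h2
        have : z ∈ (U \ {x}) ∩ (O1 ∩ O2) := ⟨hz, h1, h2⟩
        rw [hn] at this
        exact this
      set A : Set X := (U \ {x}) ∩ O1 with hA
      set B : Set X := (U \ {x}) ∩ O2 with hB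
      have hxA : x ∉ A := fun h => h.1.2 rfl
      have hxB : x ∉ B := fun h => h.1.2 rfl
      have hAB : ∀ z ∈ A, z ∉ B := fun z hz hz' => hdis z hz.1 hz.2 hz'.2
      have hAU : A ⊆ U := fun z hz => hz.1.1
      have hBU : B ⊆ U := fun z hz => hz.1.1
      have hcovU : ∀ z ∈ U, z ≠ x → z ∉ A → z ∈ B := by
        intro z hz hzx hzA
        rcases hcov ⟨hz, hzx⟩ with h | h
        · exact absurd ⟨⟨hz, hzx⟩, h⟩ hzA
        · exact ⟨⟨hz, hzx⟩, h⟩
      have hcA : IsPreconnected (insert x A) := preconnected_part hU hx hO1 hO2 hcov hdis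
      have hcB : IsPreconnected (insert x B) :=
        preconnected_part hU hx hO2 hO1 (by rw [union_comm]; exact hcov)
          (fun z hz h1 h2 => hdis z hz h2 h1)
      have hAne : A.Nonempty := hn1
      have hBne : B.Nonempty := hn2
      have hBinf : B.Infinite := by
        obtain ⟨b, hb⟩ := hBne
        have h1 : (insert x B).Infinite := hcB.infinite_of_nontrivial
          ⟨x, mem_insert _ _, b, mem_insert_of_mem _ hb, fun h => hxB (h ▸ hb)⟩
        intro h
        exact h1 (h.insert x)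
      have hsubA : insert x A ⊆ U := insert_subset hx hAU
      have hsubB : insert x B ⊆ U := insert_subset hx hBU
      obtain ⟨Y, hYB, hYc⟩ := hBinf.exists_subset_card_eq (m - 1)
      obtain ⟨a, ha⟩ := hAne
      have haB : a ∉ B := hAB a ha
      have hax : a ≠ x := fun h => hxA (h ▸ ha)
      -- sets without points in `A`
      have base : ∀ Z : Finset X, (Z : Set X) ⊆ B → Z.card = m - 1 → R (insert x Z) (insert x Y) := by
        intro Z hZ hZc
        have hne : ∀ Z : Finset X, Z.card = m - 1 → Z.Nonempty := fun Z h =>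
          Finset.card_pos.1 (by omega)
        have hmv : ∀ Z : Finset X, (Z : Set X) ⊆ B → Z.card = m - 1 → R (Z ∪ {x}) (Z ∪ {a}) := by
          intro Z hZ hZc
          apply move Z (insert x A) (hne Z hZc) (hZ.trans hBU) hsubA hcA
          · intro d hd hd'
            rcases hd' with h | h
            · exact hxB (h ▸ hZ hd)
            · exact hAB d h (hZ hd)
          · omega
          · simp
          · simp [ha]
          · rw [Finset.card_singleton]
            omega
          · rw [Finset.card_singleton]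
            omega
        have h2 : R ({a} ∪ Z) ({a} ∪ Y) := by
          apply move {a} (insert x B) (Finset.singleton_nonempty a) (by simpa using hAU ha) hsubB hcB
          · intro d hd hd'
            rw [Finset.mem_singleton] at hd
            subst hd
            rcases hd' with h | h
            · exact hax h
            · exact haB h
          · simp
            omega
          · exact hZ.trans (subset_insert _ _)
          · exact hYB.trans (subset_insert _ _)
          · rw [Finset.card_singleton, hZc]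
          · rw [Finset.card_singleton, hYc]
        have h1 := hmv Z hZ hZc
        have h3 := hmv Y hYB hYc
        have e1 : insert x Z = Z ∪ {x} := by rw [Finset.union_comm, Finset.insert_eq]
        have e3 : insert x Y = Y ∪ {x} := by rw [Finset.union_comm, Finset.insert_eq]
        rw [e1, e3]
        refine htrans _ _ _ h1 (htrans _ _ _ ?_ (hsymm _ _ h3))
        rw [Finset.union_comm Z, Finset.union_comm Y]
        exact h2
      have main : ∀ p : ℕ, ∀ (SA S' : Finset X), (SA : Set X) ⊆ A → (S' : Set X) ⊆ insert x B →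
          x ∈ S' → SA.card = p → SA.card + S'.card = m → R (SA ∪ S') (insert x Y) := by
        intro p
        induction p with
        | zero =>
          intro SA S' _ hS' hxS' hSA0 hc
          rw [Finset.card_eq_zero] at hSA0
          subst hSA0
          rw [Finset.empty_union, ← Finset.insert_erase hxS']
          apply base
          · intro y hy
            rw [Finset.coe_erase] at hy
            rcases hS' hy.1 with h | h
            · exact absurd h hy.2
            · exact h
          · rw [Finset.card_erase_of_mem hxS']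
            simp at hc
            omega
        | succ p ihp =>
          intro SA S' hSA hS' hxS' hSAc hc
          have hS'pos : 0 < S'.card := Finset.card_pos.2 ⟨x, hxS'⟩
          obtain ⟨B', hB'B, hB'c⟩ := hBinf.exists_subset_card_eq S'.card
          obtain ⟨a', ha'⟩ : SA.Nonempty := Finset.card_pos.1 (by omega)
          have h1 : R (SA ∪ S') (SA ∪ B') := by
            apply move SA (insert x B) ⟨a', ha'⟩ (hSA.trans hAU) hsubB hcB
            · intro d hd hd'
              rcases hd' with h | h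
              · exact hxA (h ▸ hSA hd)
              · exact hAB d (hSA hd) h
            · omega
            · exact hS'
            · exact hB'B.trans (subset_insert _ _)
            · omega
            · omega
          have hxSA : x ∉ SA.erase a' := fun h => hxA (hSA (Finset.mem_of_mem_erase h))
          have h2 : R (B' ∪ SA) (B' ∪ insert x (SA.erase a')) := by
            apply move B' (insert x A) (Finset.card_pos.1 (by omega)) (hB'B.trans hBU) hsubA hcA
            · intro d hd hd'
              rcases hd' with h | h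
              · exact hxB (h ▸ hB'B hd)
              · exact hAB d h (hB'B hd)
            · omega
            · exact hSA.trans (subset_insert _ _)
            · rw [Finset.coe_insert]
              apply insert_subset_insert
              rw [Finset.coe_erase]
              exact sdiff_subset.trans hSA
            · omega
            · rw [Finset.card_insert_of_notMem hxSA, Finset.card_erase_of_mem ha']
              omega
          have h3 : R (SA.erase a' ∪ insert x B') (insert x Y) := by
            have hxB' : x ∉ B' := fun h => hxB (hB'B h)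
            apply ihp
            · rw [Finset.coe_erase]
              exact sdiff_subset.trans hSA
            · rw [Finset.coe_insert]
              exact insert_subset_insert hB'B
            · exact Finset.mem_insert_self _ _
            · rw [Finset.card_erase_of_mem ha']
              omega
            · rw [Finset.card_erase_of_mem ha', Finset.card_insert_of_notMem hxB']
              omega
          have e : B' ∪ insert x (SA.erase a') = SA.erase a' ∪ insert x B' := by
            rw [Finset.union_insert, Finset.union_insert, Finset.union_comm]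
          rw [e] at h2
          rw [Finset.union_comm B' SA] at h2
          exact htrans _ _ _ h1 (htrans _ _ _ h2 h3)
      have all : ∀ S : Finset X, (S : Set X) ⊆ U → S.card = m → x ∈ S → R S (insert x Y) := by
        classical
        intro S hS hSm hxS
        have e : S = S.filter (fun z => z ∈ A) ∪ S.filter (fun z => ¬ z ∈ A) :=
          (Finset.filter_union_filter_not_eq _ S).symm
        have hcard : (S.filter (fun z => z ∈ A)).card + (S.filter (fun z => ¬ z ∈ A)).card = m := by
          rw [Finset.card_filter_add_card_filter_not, hSm]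
        rw [e]
        apply main _ _ _ _ _ _ rfl hcard
        · intro z hz
          exact (Finset.mem_filter.1 hz).2
        · intro z hz
          have hz' := Finset.mem_filter.1 hz
          by_cases hzx : z = x
          · exact Or.inl hzx
          · exact Or.inr (hcovU z (hS hz'.1) hzx hz'.2)
        · exact Finset.mem_filter.2 ⟨hxS, hxA⟩
      intro S T hS hT hSm hTm hxS hxT
      exact htrans _ _ _ (all S hS hSm hxS) (hsymm _ _ (all T hT hTm hxT))
  -- conclusion
  obtain ⟨x, hx⟩ : S.Nonempty := Finset.card_pos.1 (by omega)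
  obtain ⟨y, hy⟩ : T.Nonempty := Finset.card_pos.1 (by omega)
  have hUinf : U.Infinite := by
    obtain ⟨p, hp, q, hq, hpq⟩ := Finset.one_lt_card.1 (show 1 < S.card by omega)
    exact hU.infinite_of_nontrivial ⟨p, hS hp, q, hS hq, hpq⟩
  have hinf2 : (U \ (({x, y} : Finset X) : Set X)).Infinite := hUinf.sdiff (Finset.finite_toSet _)
  have hxyc : ({x, y} : Finset X).card ≤ 2 := Finset.card_le_two
  obtain ⟨Z, hZ, hZc⟩ := hinf2.exists_subset_card_eq (m - ({x, y} : Finset X).card)
  have hWc : (({x, y} : Finset X) ∪ Z).card = m := by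
    rw [Finset.card_union_of_disjoint]
    · omega
    · rw [Finset.disjoint_left]
      intro z hz hz'
      exact (hZ hz').2 hz
  have hWU : ((({x, y} : Finset X) ∪ Z : Finset X) : Set X) ⊆ U := by
    rw [Finset.coe_union]
    apply union_subset
    · intro z hz
      simp only [Finset.coe_insert, Finset.coe_singleton, mem_insert_iff, mem_singleton_iff] at hz
      rcases hz with rfl | rfl
      · exact hS hx
      · exact hT hy
    · exact fun z hz => (hZ hz).1
  exact htrans _ _ _ (hC x (hS hx) S _ hS hWU hSm hWc hx (by simp))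
    (hC y (hT hy) _ T hWU hT hWc hTm (by simp) hy)

end MPe9314e
end

section

/-!
# Irreducible continua
-/

set_option autoImplicit false

open Topology Set

namespace MPe9314e

/-- In a compact Hausdorff space, if no connected component meets both closed sets `A` and `B`,
then `A` and `B` are separated by a clopen set. -/
theorem exists_clopen_sep {X : Type*} [TopologicalSpace X] [CompactSpace X] [T2Space X]
    {A B : Set X} (hA : IsClosed A) (hB : IsClosed B)
    (h : ∀ a ∈ A, Disjoint (connectedComponent a) B) :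
    ∃ U : Set X, IsClopen U ∧ A ⊆ U ∧ Disjoint U B := by
  classical
  have h1 : ∀ a ∈ A, ∃ U : Set X, IsClopen U ∧ a ∈ U ∧ Disjoint U B := by
    intro a ha
    have h2 := h a ha
    rw [connectedComponent_eq_iInter_isClopen, Set.disjoint_iff_inter_eq_empty, inter_comm] at h2
    obtain ⟨u, hu⟩ := hB.isCompact.elim_finite_subfamily_closed
      (fun s : {s : Set X // IsClopen s ∧ a ∈ s} => (s : Set X)) (fun s => s.2.1.isClosed) h2
    refine ⟨⋂ i ∈ u, (i : Set X), isClopen_biInter_finset fun i _ => i.2.1, ?_, ?_⟩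
    · exact mem_iInter₂.2 fun i _ => i.2.2
    · rw [Set.disjoint_iff_inter_eq_empty, inter_comm]
      exact hu
  choose! U hU1 hU2 hU3 using h1
  obtain ⟨t, ht1⟩ := hA.isCompact.elim_nhds_subcover' (fun a _ => U a)
    (fun a ha => (hU1 a ha).isOpen.mem_nhds (hU2 a ha))
  refine ⟨⋃ x ∈ t, U x, isClopen_biUnion_finset fun x _ => hU1 _ x.2, ht1, ?_⟩
  rw [Set.disjoint_iUnion₂_left]
  intro x _
  exact hU3 _ x.2

variable {Q : Type*} [TopologicalSpace Q] [CompactSpace Q] [T2Space Q]

/-- closed subset version -/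
theorem exists_closed_sep {Z A B : Set Q} (hZ : IsClosed Z) (hA : IsClosed A) (hB : IsClosed B)
    (h : ∀ T : Set Q, T ⊆ Z → IsClosed T → IsPreconnected T → (T ∩ A).Nonempty →
      (T ∩ B).Nonempty → False) :
    ∃ F G : Set Q, IsClosed F ∧ IsClosed G ∧ Z = F ∪ G ∧ Disjoint F G ∧ Z ∩ A ⊆ F ∧
      Z ∩ B ⊆ G := by
  have hcs : CompactSpace Z := isCompact_iff_compactSpace.1 hZ.isCompact
  have hemb : IsClosedEmbedding (Subtype.val : Z → Q) := hZ.isClosedEmbedding_subtypeVal
  obtain ⟨U, hU1, hU2, hU3⟩ := exists_clopen_sep (X := Z) (A := Subtype.val ⁻¹' A)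
    (B := Subtype.val ⁻¹' B) (hA.preimage continuous_subtype_val)
    (hB.preimage continuous_subtype_val) (by
      intro a ha
      rw [Set.disjoint_left]
      intro b hb1 hb2
      apply h (Subtype.val '' connectedComponent a)
      · rintro _ ⟨z, _, rfl⟩
        exact z.2
      · exact hemb.isClosedMap _ isClosed_connectedComponent
      · exact isPreconnected_connectedComponent.image _ continuous_subtype_val.continuousOn
      · exact ⟨a, ⟨a, mem_connectedComponent, rfl⟩, ha⟩
      · exact ⟨b, ⟨b, hb1, rfl⟩, hb2⟩)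
  refine ⟨Subtype.val '' U, Subtype.val '' Uᶜ, hemb.isClosedMap _ hU1.isClosed,
    hemb.isClosedMap _ hU1.compl.isClosed, ?_, ?_, ?_, ?_⟩
  · rw [← image_union, union_compl_self, image_univ, Subtype.range_coe]
  · rw [Set.disjoint_left]
    rintro _ ⟨z, hz, rfl⟩ ⟨w, hw, hwz⟩
    have : w = z := Subtype.ext hwz
    subst this
    exact hw hz
  · rintro z ⟨hz, hzA⟩
    exact ⟨⟨z, hz⟩, hU2 hzA, rfl⟩
  · rintro z ⟨hz, hzB⟩
    refine ⟨⟨z, hz⟩, fun hzU => ?_, rfl⟩
    exact Set.disjoint_left.1 hU3 hzU hzB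

/-- the intersection of a chain of continua is a continuum -/
theorem chain_inter {c : Set (Set Q)} (hne : c.Nonempty) (hch : IsChain (· ⊆ ·) c)
    (hcl : ∀ s ∈ c, IsClosed s) (hco : ∀ s ∈ c, IsPreconnected s) : IsPreconnected (⋂₀ c) := by
  classical
  have hnes : Nonempty c := hne.to_subtype
  have hdir : Directed (· ⊇ ·) (fun s : c => (s : Set Q)) := by
    intro s t
    rcases hch.total s.2 t.2 with h | h
    · exact ⟨s, subset_rfl, h⟩
    · exact ⟨t, h, subset_rfl⟩
  have hclI : IsClosed (⋂₀ c) := isClosed_sInter hcl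
  rw [isPreconnected_closed_iff]
  intro A B hA hB hAB hnA hnB
  by_contra hcon
  have hd : Disjoint (⋂₀ c ∩ A) (⋂₀ c ∩ B) := by
    rw [Set.disjoint_left]
    intro z hz hz'
    exact hcon ⟨z, hz.1, hz.2, hz'.2⟩
  obtain ⟨O1, O2, hO1, hO2, h1, h2, hO⟩ :=
    SeparatedNhds.of_isCompact_isCompact (hclI.inter hA).isCompact (hclI.inter hB).isCompact hd
  have hsub : ⋂ s : c, (s : Set Q) ⊆ O1 ∪ O2 := by
    rw [← sInter_eq_iInter]
    intro z hz
    rcases hAB hz with h | h
    · exact Or.inl (h1 ⟨hz, h⟩)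
    · exact Or.inr (h2 ⟨hz, h⟩)
  obtain ⟨s, hs⟩ : ∃ s : c, (s : Set Q) ⊆ O1 ∪ O2 := by
    have := (hO1.union hO2).isClosed_compl.isCompact.elim_directed_family_closed
      (fun s : c => (s : Set Q)) (fun s => hcl s s.2) (by
        rw [inter_comm, ← Set.disjoint_iff_inter_eq_empty, Set.disjoint_compl_right_iff_subset]
        exact hsub) hdir
    obtain ⟨s, hs⟩ := this
    refine ⟨s, ?_⟩
    rw [inter_comm, ← Set.disjoint_iff_inter_eq_empty, Set.disjoint_compl_right_iff_subset] at hs
    exact hs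
  obtain ⟨a, ha, haA⟩ := hnA
  obtain ⟨b, hb, hbB⟩ := hnB
  have hsI : ⋂₀ c ⊆ (s : Set Q) := sInter_subset_of_mem s.2
  obtain ⟨z, -, hz1, hz2⟩ := hco s s.2 O1 O2 hO1 hO2 hs ⟨a, hsI ha, h1 ⟨ha, haA⟩⟩
    ⟨b, hsI hb, h2 ⟨hb, hbB⟩⟩
  exact Set.disjoint_left.1 hO hz1 hz2

/-- a continuum meeting two disjoint closed sets contains a connected set in the complement of
these sets whose closure meets both -/
theorem exists_bridge {K A B : Set Q} (hK : IsClosed K) (hKc : IsPreconnected K)
    (hA : IsClosed A) (hB : IsClosed B) (hAB : Disjoint A B) (hKA : (K ∩ A).Nonempty)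
    (hKB : (K ∩ B).Nonempty) :
    ∃ C : Set Q, C ⊆ K \ (A ∪ B) ∧ IsPreconnected C ∧ C.Infinite ∧ (closure C ∩ A).Nonempty ∧
      (closure C ∩ B).Nonempty := by
  classical
  set S : Set (Set Q) := {T | IsClosed T ∧ IsPreconnected T ∧ (T ∩ A).Nonempty ∧
    (T ∩ B).Nonempty} with hS
  obtain ⟨K0, hK0K, hmin⟩ := zorn_superset_nonempty S (by
    intro c hcS hch hne
    have hnes : Nonempty c := hne.to_subtype
    have hdir : Directed (· ⊇ ·) (fun s : c => (s : Set Q)) := by
      intro s t
      rcases hch.total s.2 t.2 with h | h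
      · exact ⟨s, subset_rfl, h⟩
      · exact ⟨t, h, subset_rfl⟩
    have meet : ∀ D : Set Q, IsClosed D → (∀ s ∈ c, (s ∩ D).Nonempty) → (⋂₀ c ∩ D).Nonempty := by
      intro D hD hm
      have h1 := IsCompact.nonempty_iInter_of_directed_nonempty_isCompact_isClosed
        (fun s : c => (s : Set Q) ∩ D) (by
          intro s t
          obtain ⟨r, hr1, hr2⟩ := hdir s t
          exact ⟨r, inter_subset_inter_left _ hr1, inter_subset_inter_left _ hr2⟩)
        (fun s => hm s s.2) (fun s => ((hcS s.2).1.inter hD).isCompact)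
        (fun s => (hcS s.2).1.inter hD)
      obtain ⟨z, hz⟩ := h1
      rw [mem_iInter] at hz
      obtain ⟨s0⟩ := hnes
      exact ⟨z, mem_sInter.2 fun s hs => (hz ⟨s, hs⟩).1, (hz s0).2⟩
    refine ⟨⋂₀ c, ⟨isClosed_sInter fun s hs => (hcS hs).1,
      chain_inter hne hch (fun s hs => (hcS hs).1) (fun s hs => (hcS hs).2.1),
      meet A hA fun s hs => (hcS hs).2.2.1, meet B hB fun s hs => (hcS hs).2.2.2⟩,
      fun s hs => sInter_subset_of_mem hs⟩) K ⟨hK, hKc, hKA, hKB⟩
  obtain ⟨h1, h2, h3, h4⟩ := hmin.prop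
  have hminT : ∀ T : Set Q, T ⊆ K0 → IsClosed T → IsPreconnected T → (T ∩ A).Nonempty →
      (T ∩ B).Nonempty → T = K0 := by
    intro T hTK g1 g2 g3 g4
    exact subset_antisymm hTK (hmin.le_of_le ⟨g1, g2, g3, g4⟩ hTK)
  -- no separation of `K0` between `A` and `B`
  have hnosep : ∀ F G : Set Q, IsClosed F → IsClosed G → K0 ⊆ F ∪ G → K0 ∩ A ⊆ F → K0 ∩ B ⊆ G →
      (K0 ∩ (F ∩ G)).Nonempty := by
    intro F G hF hG hcov hAF hBG
    rw [isPreconnected_closed_iff] at h2
    obtain ⟨a, ha⟩ := h3
    obtain ⟨b, hb⟩ := h4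
    exact h2 F G hF hG hcov ⟨a, ha.1, hAF ha⟩ ⟨b, hb.1, hBG hb⟩
  set C : Set Q := K0 \ (A ∪ B) with hC
  have hABn : ∀ z, z ∈ A → z ∉ B := fun z hz hz' => Set.disjoint_left.1 hAB hz hz'
  have hclC : closure C ⊆ K0 := closure_minimal sdiff_subset h1
  -- the closure of `C` meets `A` and `B`
  have hmeetA : (closure C ∩ A).Nonempty := by
    by_contra hcon
    rw [not_nonempty_iff_eq_empty] at hcon
    obtain ⟨z, hz1, hz2, hz3⟩ := hnosep A (closure C ∪ B) hA (isClosed_closure.union hB)
      (by
        intro z hz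
        by_cases hzA : z ∈ A
        · exact Or.inl hzA
        · by_cases hzB : z ∈ B
          · exact Or.inr (Or.inr hzB)
          · exact Or.inr (Or.inl (subset_closure ⟨hz, by rintro (h | h); exacts [hzA h, hzB h]⟩)))
      (fun z hz => hz.2) (fun z hz => Or.inr hz.2)
    rcases hz3 with h | h
    · have : z ∈ closure C ∩ A := ⟨h, hz2⟩
      rw [hcon] at this
      exact this
    · exact hABn z hz2 h
  have hmeetB : (closure C ∩ B).Nonempty := by
    by_contra hcon
    rw [not_nonempty_iff_eq_empty] at hcon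
    obtain ⟨z, hz1, hz2, hz3⟩ := hnosep (closure C ∪ A) B (isClosed_closure.union hA) hB
      (by
        intro z hz
        by_cases hzB : z ∈ B
        · exact Or.inr hzB
        · by_cases hzA : z ∈ A
          · exact Or.inl (Or.inr hzA)
          · exact Or.inl (Or.inl (subset_closure ⟨hz, by rintro (h | h); exacts [hzA h, hzB h]⟩)))
      (fun z hz => Or.inr hz.2) (fun z hz => hz.2)
    rcases hz2 with h | h
    · have : z ∈ closure C ∩ B := ⟨h, hz3⟩
      rw [hcon] at this
      exact this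
    · exact hABn z h hz3
  -- `C` is connected
  have hCc : IsPreconnected C := by
    intro O1 O2 hO1 hO2 hcov hn1 hn2
    by_contra hcon
    have hdis : ∀ z ∈ C, z ∈ O1 → z ∈ O2 → False := fun z hz g1 g2 => hcon ⟨z, hz, g1, g2⟩
    -- removing one part
    have part : ∀ O : Set Q, IsOpen O → (C ∩ O).Nonempty → ∃ F G : Set Q, IsClosed F ∧
        IsClosed G ∧ K0 \ (O \ (A ∪ B)) = F ∪ G ∧ Disjoint F G ∧ K0 ∩ A ⊆ F ∧ K0 ∩ B ⊆ G := by
      intro O hO hne
      have hop : IsOpen (O \ (A ∪ B)) := hO.sdiff (hA.union hB)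
      have hcl : IsClosed (K0 \ (O \ (A ∪ B))) := h1.sdiff hop
      obtain ⟨F, G, hF, hG, g1, g2, g3, g4⟩ := exists_closed_sep hcl hA hB (by
        intro T hT hTcl hTc hTA hTB
        have hTK : T = K0 := hminT T (hT.trans sdiff_subset) hTcl hTc hTA hTB
        obtain ⟨z, hz, hzO⟩ := hne
        have hzT : z ∈ T := by rw [hTK]; exact hz.1
        exact (hT hzT).2 ⟨hzO, hz.2⟩)
      refine ⟨F, G, hF, hG, g1, g2, ?_, ?_⟩
      · rintro z ⟨hz1, hz2⟩
        exact g3 ⟨⟨hz1, fun h => h.2 (Or.inl hz2)⟩, hz2⟩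
      · rintro z ⟨hz1, hz2⟩
        exact g4 ⟨⟨hz1, fun h => h.2 (Or.inr hz2)⟩, hz2⟩
    obtain ⟨F1, G1, hF1, hG1, a1, a2, a3, a4⟩ := part O1 hO1 hn1
    obtain ⟨F2, G2, hF2, hG2, b1, b2, b3, b4⟩ := part O2 hO2 hn2
    -- points of both remainders are in `A ∪ B`
    have hboth : ∀ z, z ∈ F1 ∪ G1 → z ∈ F2 ∪ G2 → z ∈ K0 ∩ (A ∪ B) := by
      intro z hz1 hz2
      rw [← a1] at hz1
      rw [← b1] at hz2
      refine ⟨hz1.1, ?_⟩
      by_contra hzAB
      rcases hcov ⟨hz1.1, hzAB⟩ with h | h
      · exact hz1.2 ⟨h, hzAB⟩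
      · exact hz2.2 ⟨h, hzAB⟩
    obtain ⟨z, hz, hzF, hzG⟩ := hnosep (F1 ∪ F2) (G1 ∪ G2) (hF1.union hF2) (hG1.union hG2)
      (by
        intro z hz
        by_cases hzAB : z ∈ A ∪ B
        · have : z ∈ F1 ∪ G1 := by
            rw [← a1]
            exact ⟨hz, fun h => h.2 hzAB⟩
          rcases this with h | h
          · exact Or.inl (Or.inl h)
          · exact Or.inr (Or.inl h)
        · have hzC : z ∈ C := ⟨hz, hzAB⟩
          rcases hcov hzC with h | h
          · have : z ∈ F2 ∪ G2 := by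
              rw [← b1]
              exact ⟨hz, fun h' => hdis z hzC h h'.1⟩
            rcases this with h' | h'
            · exact Or.inl (Or.inr h')
            · exact Or.inr (Or.inr h')
          · have : z ∈ F1 ∪ G1 := by
              rw [← a1]
              exact ⟨hz, fun h' => hdis z hzC h'.1 h⟩
            rcases this with h' | h'
            · exact Or.inl (Or.inl h')
            · exact Or.inr (Or.inl h'))
      (fun z hz => Or.inl (a3 hz)) (fun z hz => Or.inl (a4 hz))
    have final : ∀ F G F' G' : Set Q, Disjoint F G → Disjoint F' G' → K0 ∩ A ⊆ F → K0 ∩ B ⊆ G →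
        K0 ∩ A ⊆ F' → K0 ∩ B ⊆ G' → z ∈ F → z ∈ G' → z ∈ K0 ∩ (A ∪ B) → False := by
      intro F G F' G' d1 d2 c1 c2 c3 c4 zF zG' zK
      rcases zK.2 with h | h
      · exact Set.disjoint_left.1 d2 (c3 ⟨zK.1, h⟩) zG'
      · exact Set.disjoint_left.1 d1 zF (c2 ⟨zK.1, h⟩)
    rcases hzF with h | h
    · rcases hzG with h' | h'
      · exact Set.disjoint_left.1 a2 h h'
      · exact final F1 G1 F2 G2 a2 b2 a3 a4 b3 b4 h h' (hboth z (Or.inl h) (Or.inr h'))
    · rcases hzG with h' | h'
      · exact final F2 G2 F1 G1 b2 a2 b3 b4 a3 a4 h h' (hboth z (Or.inr h') (Or.inl h))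
      · exact Set.disjoint_left.1 b2 h h'
  refine ⟨C, fun z hz => ⟨hK0K hz.1, hz.2⟩, hCc, ?_, hmeetA, hmeetB⟩
  intro hfin
  obtain ⟨z, hz1, hz2⟩ := hmeetA
  rw [hfin.isClosed.closure_eq] at hz1
  exact hz1.2 (Or.inl hz2)

end MPe9314e
end

section

/-!
# No drawing of `K₅` or `K₃,₃` with disjoint paths for vertex-disjoint edges
-/

set_option autoImplicit false

open Topology Set

namespace MPe9314e

/-- a continuous function whose exponential is constant is constant -/
theorem const_of_exp {D : ℝ → ℂ} (hD : Continuous D) (h : ∀ t, Complex.exp (D t) = Complex.exp (D 0))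
    (t : ℝ) : D t = D 0 := by
  have h1 : ∀ t, ∃ k : ℤ, D t = D 0 + k * (2 * Real.pi * Complex.I) := fun t =>
    Complex.exp_eq_exp_iff_exists_int.1 (h t)
  choose k hk using h1
  have hpi : (2 * (Real.pi : ℂ) * Complex.I) ≠ 0 := Complex.two_pi_I_ne_zero
  have h2 : ∀ t, ((k t : ℤ) : ℝ) = ((D t - D 0) / (2 * Real.pi * Complex.I)).re := by
    intro t
    have : (D t - D 0) / (2 * Real.pi * Complex.I) = ((k t : ℤ) : ℂ) := by
      conv_lhs => rw [hk t]
      rw [add_sub_cancel_left, mul_div_assoc, div_self hpi, mul_one]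
    rw [this]
    simp
  have hc : Continuous k := by
    rw [Int.isClosedEmbedding_coe_real.isEmbedding.continuous_iff]
    have : ((fun z : ℤ => (z : ℝ)) ∘ k) =
        fun t => ((D t - D 0) / (2 * Real.pi * Complex.I)).re := funext h2
    rw [this]
    exact Complex.continuous_re.comp ((hD.sub continuous_const).div_const _)
  have h3 : k t = k 0 := PreconnectedSpace.constant inferInstance hc
  have h4 := hk 0
  rw [hk t, h3, ← h4]

/-- `θ` is the change of the logarithm of `γ - p` along `[0, 1]` -/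
def Wn (γ : ℝ → ℂ) (p θ : ℂ) : Prop :=
  ∃ L : ℝ → ℂ, Continuous L ∧ (∀ t, Complex.exp (L t) = γ t - p) ∧ L 1 - L 0 = θ

theorem Wn.unique {γ : ℝ → ℂ} {p θ θ' : ℂ} (h : Wn γ p θ) (h' : Wn γ p θ') : θ = θ' := by
  obtain ⟨L, hL, h1, rfl⟩ := h
  obtain ⟨L', hL', h2, rfl⟩ := h'
  have := const_of_exp (D := fun t => L t - L' t) (hL.sub hL') (by
    intro t
    rw [Complex.exp_sub, Complex.exp_sub, h1, h1, h2, h2]
    have e1 : γ t - p ≠ 0 := by rw [← h1]; exact Complex.exp_ne_zero _
    have e2 : γ 0 - p ≠ 0 := by rw [← h1]; exact Complex.exp_ne_zero _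
    rw [div_self e1, div_self e2]) 1
  linear_combination this

theorem Wn.exp {γ : ℝ → ℂ} {p θ : ℂ} (h : Wn γ p θ) :
    Complex.exp θ = (γ 1 - p) / (γ 0 - p) := by
  obtain ⟨L, hL, h1, rfl⟩ := h
  rw [Complex.exp_sub, h1, h1]

/-- the square relation -/
theorem square {γ δ : ℝ → ℂ} (hγ : Continuous γ) (hδ : Continuous δ) (h : ∀ s t, γ s ≠ δ t) :
    ∃ θ₁ θ₂ θ₃ θ₄, Wn γ (δ 0) θ₁ ∧ Wn γ (δ 1) θ₂ ∧ Wn δ (γ 0) θ₃ ∧ Wn δ (γ 1) θ₄ ∧
      θ₁ + θ₄ = θ₂ + θ₃ := by
  obtain ⟨L, hL, hL2⟩ := exists_log (F := fun w => γ w.re - δ w.im)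
    ((hγ.comp Complex.continuous_re).sub (hδ.comp Complex.continuous_im))
    (fun w => sub_ne_zero.2 (h _ _))
  have key1 : ∀ s : ℝ, Wn γ (δ s) (L (⟨1, s⟩) - L ⟨0, s⟩) := by
    intro s
    refine ⟨fun t => L ⟨t, s⟩, hL.comp ?_, fun t => hL2 _, rfl⟩
    have : (fun t : ℝ => (⟨t, s⟩ : ℂ)) = fun t : ℝ => (t : ℂ) + s * Complex.I := by
      funext t
      apply Complex.ext <;> simp
    rw [this]
    fun_prop
  have key2 : ∀ s : ℝ, Wn δ (γ s) (L (⟨s, 1⟩) - L ⟨s, 0⟩) := by
    intro s
    refine ⟨fun t => L ⟨s, t⟩ + Real.pi * Complex.I, ?_, fun t => ?_, by ring⟩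
    · have h1 : (fun t : ℝ => (⟨s, t⟩ : ℂ)) = fun t : ℝ => (s : ℂ) + t * Complex.I := by
        funext t
        apply Complex.ext <;> simp
      have h2 : Continuous (fun t : ℝ => (⟨s, t⟩ : ℂ)) := by
        rw [h1]
        fun_prop
      exact (hL.comp h2).add continuous_const
    · rw [Complex.exp_add, hL2, Complex.exp_pi_mul_I]
      ring
  exact ⟨_, _, _, _, key1 0, key1 1, key2 0, key2 1, by ring⟩

/-- the sign -/
def sgn {N : ℕ} (i j : Fin N) : ℤ := if i < j then 1 else -1

/-- a choice of the logarithm of `a i - a j` -/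
noncomputable def ell {N : ℕ} (a : Fin N → ℂ) (i j : Fin N) : ℂ :=
  if i < j then Complex.log (a i - a j) else Complex.log (a j - a i) + Real.pi * Complex.I

theorem exp_ell {N : ℕ} (a : Fin N → ℂ) {i j : Fin N} (h : a i ≠ a j) :
    Complex.exp (ell a i j) = a i - a j := by
  unfold ell
  split_ifs with h1
  · exact Complex.exp_log (sub_ne_zero.2 h)
  · rw [Complex.exp_add, Complex.exp_log (sub_ne_zero.2 h.symm), Complex.exp_pi_mul_I]
    ring

theorem ell_sub {N : ℕ} (a : Fin N → ℂ) {i j : Fin N} (h : i ≠ j) :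
    ell a i j - ell a j i = - (Real.pi * Complex.I) * (sgn i j : ℤ) := by
  unfold ell sgn
  rcases lt_or_gt_of_ne h with h1 | h1
  · rw [if_pos h1, if_neg h1.not_gt, if_pos h1]
    push_cast
    ring
  · rw [if_neg h1.not_gt, if_pos h1, if_neg h1.not_gt]
    push_cast
    ring

/-- the integers attached to a drawing -/
theorem exists_int {N : ℕ} (a : Fin N → ℂ) (γ : Fin N → Fin N → ℝ → ℂ)
    (adj : Fin N → Fin N → Prop)
    (hγ : ∀ i j, i < j → adj i j → Continuous (γ i j) ∧ γ i j 0 = a i ∧ γ i j 1 = a j)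
    (hdis : ∀ i j k l, i < j → k < l → adj i j → adj k l → i ≠ k → i ≠ l → j ≠ k → j ≠ l →
      ∀ s t, γ i j s ≠ γ k l t) :
    ∃ n : Fin N → Fin N → Fin N → ℤ, ∀ i j k l, i < j → k < l → adj i j → adj k l → i ≠ k →
      i ≠ l → j ≠ k → j ≠ l →
      2 * (n i j k + n k l j - n i j l - n k l i) = sgn j k - sgn i k - sgn j l + sgn i l := by
  classical
  -- the choice
  have hex : ∀ i j k : Fin N, ∃ m : ℤ, ∀ θ, Wn (γ i j) (a k) θ → i < j → adj i j →
      a i ≠ a k → a j ≠ a k → θ = ell a j k - ell a i k + m * (2 * Real.pi * Complex.I) := by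
    intro i j k
    by_cases h : ∃ θ, Wn (γ i j) (a k) θ ∧ i < j ∧ adj i j ∧ a i ≠ a k ∧ a j ≠ a k
    · obtain ⟨θ, h1, h2, h3, h4, h5⟩ := h
      obtain ⟨-, g1, g2⟩ := hγ i j h2 h3
      have e1 := h1.exp
      rw [g1, g2, ← exp_ell a h4, ← exp_ell a h5, ← Complex.exp_sub] at e1
      obtain ⟨m, hm⟩ := Complex.exp_eq_exp_iff_exists_int.1 e1
      refine ⟨m, fun θ' h' _ _ _ _ => ?_⟩
      rw [h'.unique h1, hm]
    · exact ⟨0, fun θ h1 h2 h3 h4 h5 => absurd ⟨θ, h1, h2, h3, h4, h5⟩ h⟩
  choose n hn using hex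
  refine ⟨n, ?_⟩
  intro i j k l hij hkl aij akl hik hil hjk hjl
  obtain ⟨c1, g1, g2⟩ := hγ i j hij aij
  obtain ⟨c2, g3, g4⟩ := hγ k l hkl akl
  have hd := hdis i j k l hij hkl aij akl hik hil hjk hjl
  obtain ⟨θ₁, θ₂, θ₃, θ₄, w1, w2, w3, w4, hrel⟩ := square c1 c2 hd
  rw [g3] at w1
  rw [g4] at w2
  rw [g1] at w3
  rw [g2] at w4
  have n1 : a i ≠ a k := by
    have := hd 0 0
    rwa [g1, g3] at this
  have n2 : a i ≠ a l := by
    have := hd 0 1
    rwa [g1, g4] at this
  have n3 : a j ≠ a k := by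
    have := hd 1 0
    rwa [g2, g3] at this
  have n4 : a j ≠ a l := by
    have := hd 1 1
    rwa [g2, g4] at this
  have e1 := hn i j k θ₁ w1 hij aij n1 n3
  have e2 := hn i j l θ₂ w2 hij aij n2 n4
  have e3 := hn k l i θ₃ w3 hkl akl n1.symm n2.symm
  have e4 := hn k l j θ₄ w4 hkl akl n3.symm n4.symm
  have s1 := ell_sub a hjk
  have s2 := ell_sub a hik
  have s3 := ell_sub a hjl
  have s4 := ell_sub a hil
  rw [e1, e2, e3, e4] at hrel
  have hpi : ((Real.pi : ℂ) * Complex.I) ≠ 0 :=
    mul_ne_zero (by exact_mod_cast Real.pi_ne_zero) Complex.I_ne_zero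
  have key : ((Real.pi : ℂ) * Complex.I) * ((2 * (n i j k + n k l j - n i j l - n k l i) : ℤ) : ℂ) =
      ((Real.pi : ℂ) * Complex.I) * ((sgn j k - sgn i k - sgn j l + sgn i l : ℤ) : ℂ) := by
    push_cast
    linear_combination hrel - s1 + s2 + s3 - s4
  exact_mod_cast mul_left_cancel₀ hpi key

theorem no_K5 (a : Fin 5 → ℂ) (γ : Fin 5 → Fin 5 → ℝ → ℂ)
    (hγ : ∀ i j, i < j → Continuous (γ i j) ∧ γ i j 0 = a i ∧ γ i j 1 = a j)
    (hdis : ∀ i j k l, i < j → k < l → i ≠ k → i ≠ l → j ≠ k → j ≠ l →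
      ∀ s t, γ i j s ≠ γ k l t) : False := by
  obtain ⟨n, hn⟩ := exists_int a γ (fun _ _ => True) (fun i j h _ => hγ i j h)
    (fun i j k l h1 h2 _ _ => hdis i j k l h1 h2)
  have q := fun i j k l h1 h2 h3 h4 h5 h6 => hn i j k l h1 h2 trivial trivial h3 h4 h5 h6
  have q1 := q 0 1 2 3 (by decide) (by decide) (by decide) (by decide) (by decide) (by decide)
  have q2 := q 0 1 2 4 (by decide) (by decide) (by decide) (by decide) (by decide) (by decide)
  have q3 := q 0 1 3 4 (by decide) (by decide) (by decide) (by decide) (by decide) (by decide)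
  have q4 := q 0 2 1 3 (by decide) (by decide) (by decide) (by decide) (by decide) (by decide)
  have q5 := q 0 2 1 4 (by decide) (by decide) (by decide) (by decide) (by decide) (by decide)
  have q6 := q 0 2 3 4 (by decide) (by decide) (by decide) (by decide) (by decide) (by decide)
  have q7 := q 0 3 1 2 (by decide) (by decide) (by decide) (by decide) (by decide) (by decide)
  have q8 := q 0 3 1 4 (by decide) (by decide) (by decide) (by decide) (by decide) (by decide)
  have q9 := q 0 3 2 4 (by decide) (by decide) (by decide) (by decide) (by decide) (by decide)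
  have q10 := q 0 4 1 2 (by decide) (by decide) (by decide) (by decide) (by decide) (by decide)
  have q11 := q 0 4 1 3 (by decide) (by decide) (by decide) (by decide) (by decide) (by decide)
  have q12 := q 0 4 2 3 (by decide) (by decide) (by decide) (by decide) (by decide) (by decide)
  have q13 := q 1 2 3 4 (by decide) (by decide) (by decide) (by decide) (by decide) (by decide)
  have q14 := q 1 3 2 4 (by decide) (by decide) (by decide) (by decide) (by decide) (by decide)
  have q15 := q 1 4 2 3 (by decide) (by decide) (by decide) (by decide) (by decide) (by decide)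
  simp (decide := true) only [sgn, if_true, if_false] at q1 q2 q3 q4 q5 q6 q7 q8 q9 q10 q11 q12 q13 q14 q15
  omega

theorem no_K33 (a : Fin 6 → ℂ) (γ : Fin 6 → Fin 6 → ℝ → ℂ)
    (hγ : ∀ i j, i < 3 → 3 ≤ j → Continuous (γ i j) ∧ γ i j 0 = a i ∧ γ i j 1 = a j)
    (hdis : ∀ i j k l, i < 3 → 3 ≤ j → k < 3 → 3 ≤ l → i ≠ k → j ≠ l →
      ∀ s t, γ i j s ≠ γ k l t) : False := by
  obtain ⟨n, hn⟩ := exists_int a γ (fun i j => i < 3 ∧ 3 ≤ j) (fun i j _ h => hγ i j h.1 h.2)
    (fun i j k l _ _ h1 h2 h3 _ _ h4 => hdis i j k l h1.1 h1.2 h2.1 h2.2 h3 h4)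
  have q : ∀ i j k l : Fin 6, i < 3 → 3 ≤ j → k < 3 → 3 ≤ l → i ≠ k → j ≠ l →
      2 * (n i j k + n k l j - n i j l - n k l i) = sgn j k - sgn i k - sgn j l + sgn i l := by
    intro i j k l h1 h2 h3 h4 h5 h6
    exact hn i j k l (h1.trans_le h2) (h3.trans_le h4) ⟨h1, h2⟩ ⟨h3, h4⟩ h5
      (h1.trans_le h4).ne (h3.trans_le h2).ne' h6
  have r : ∀ i j k l : Fin 6, (i < 3 ∧ 3 ≤ j ∧ k < 3 ∧ 3 ≤ l ∧ i ≠ k ∧ j ≠ l) →
      2 * (n i j k + n k l j - n i j l - n k l i) = sgn j k - sgn i k - sgn j l + sgn i l := by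
    intro i j k l h
    exact q i j k l h.1 h.2.1 h.2.2.1 h.2.2.2.1 h.2.2.2.2.1 h.2.2.2.2.2
  have r01a := r 0 3 1 4 (by decide)
  have r01b := r 0 3 1 5 (by decide)
  have r01c := r 0 4 1 3 (by decide)
  have r01d := r 0 4 1 5 (by decide)
  have r01e := r 0 5 1 3 (by decide)
  have r01f := r 0 5 1 4 (by decide)
  have r02a := r 0 3 2 4 (by decide)
  have r02b := r 0 3 2 5 (by decide)
  have r02c := r 0 4 2 3 (by decide)
  have r02d := r 0 4 2 5 (by decide)
  have r02e := r 0 5 2 3 (by decide)
  have r02f := r 0 5 2 4 (by decide)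
  have r12a := r 1 3 2 4 (by decide)
  have r12b := r 1 3 2 5 (by decide)
  have r12c := r 1 4 2 3 (by decide)
  have r12d := r 1 4 2 5 (by decide)
  have r12e := r 1 5 2 3 (by decide)
  have r12f := r 1 5 2 4 (by decide)
  simp (decide := true) only [sgn, if_true, if_false] at r01a r01b r01c r01d r01e r01f r02a r02b r02c r02d r02e r02f r12a r12b r12c r12d r12e r12f
  omega

end MPe9314e
end

section

/-!
# Zeros moving in a connected set
-/

set_option autoImplicit false

open Topology Set

namespace MPe9314e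

variable {Q : Type*} [TopologicalSpace Q] {d : ℕ}

/-- functions which are close on a compact set are related -/
theorem logRel_of_close {M : Set Q} {G H : Q → ℂ} (hG : Continuous G) (hH : Continuous H)
    (hH0 : ∀ z ∈ M, H z ≠ 0) (h : ∀ z ∈ M, ‖G z - H z‖ < ‖H z‖) : LogRel M G H := by
  refine ⟨fun z => Complex.log (G z / H z), ?_, fun z hz => ?_⟩
  · intro z hz
    apply ContinuousWithinAt.clog
    · exact hG.continuousWithinAt.div hH.continuousWithinAt (hH0 z hz)
    · have h1 : G z / H z = 1 + (G z - H z) / H z := by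
        have := hH0 z hz
        field_simp
        ring
      rw [h1]
      apply Complex.mem_slitPlane_of_norm_lt_one
      rw [norm_div, div_lt_one (norm_pos_iff.2 (hH0 z hz))]
      exact h z hz
  · simp only []
    rw [Complex.exp_log]
    · rw [div_mul_cancel₀]
      exact hH0 z hz
    · apply div_ne_zero _ (hH0 z hz)
      intro h0
      have := h z hz
      rw [h0, zero_sub, norm_neg] at this
      exact lt_irrefl _ this

theorem LogRel.refl {M : Set Q} (G : Q → ℂ) : LogRel M G G :=
  ⟨fun _ => 0, continuousOn_const, fun z _ => by simp⟩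

/-- two nonzero combinations, each vanishing at `d` points of the connected set `C`, differ on a
compact set disjoint from `C` by the exponential of a continuous function -/
theorem logRel_conn [T1Space Q] {x : Fin (d + 1) → C(Q, ℂ)} (hx : IsChebyshevSystem x)
    {C M : Set Q} (hC : IsPreconnected C) (hM : IsCompact M) (hCM : Disjoint C M)
    {α β : Fin (d + 1) → ℂ} (hα : α ≠ 0) (hβ : β ≠ 0) {S T : Finset Q} (hS : S.card = d)
    (hT : T.card = d) (hSC : (S : Set Q) ⊆ C) (hTC : (T : Set Q) ⊆ C)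
    (hαS : ∀ q ∈ S, ev x α q = 0) (hβT : ∀ q ∈ T, ev x β q = 0) :
    LogRel M (ev x α) (ev x β) := by
  classical
  rcases M.eq_empty_or_nonempty with rfl | ⟨z0, hz0⟩
  · exact ⟨fun _ => 0, continuousOn_empty _, by simp⟩
  have hCMn : ∀ z ∈ C, z ∉ M := fun z hz hz' => Set.disjoint_left.1 hCM hz hz'
  -- a nonzero vector vanishing on `S`
  have hex : ∀ S : Finset Q, ∃ α : Fin (d + 1) → ℂ, S.card ≤ d → (α ≠ 0 ∧ ∀ q ∈ S, ev x α q = 0) := by
    intro S
    by_cases h : S.card ≤ d
    · obtain ⟨α, h1, h2⟩ := exists_vanish x S h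
      exact ⟨α, fun _ => ⟨h1, h2⟩⟩
    · exact ⟨0, fun h' => absurd h' h⟩
  choose v hv using hex
  -- comparison with `v S`
  have hprop : ∀ (S : Finset Q), S.card = d → (S : Set Q) ⊆ C → ∀ α : Fin (d + 1) → ℂ, α ≠ 0 →
      (∀ q ∈ S, ev x α q = 0) → LogRel M (ev x α) (ev x (v S)) := by
    intro S hS hSC α hα hαS
    obtain ⟨h1, h2⟩ := hv S hS.le
    obtain ⟨c, hc, h⟩ := exists_smul hx hS (z := z0) (fun h => hCMn _ (hSC h) hz0) hα h1 hαS h2
    refine ⟨fun _ => Complex.log c, continuousOn_const, fun w _ => ?_⟩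
    simp only []
    rw [Complex.exp_log hc, h, ev_smul]
  have hne : ∀ (S : Finset Q), S.card = d → (S : Set Q) ⊆ C → ∀ α : Fin (d + 1) → ℂ, α ≠ 0 →
      (∀ q ∈ S, ev x α q = 0) → ∀ z ∈ M, ev x α z ≠ 0 := by
    intro S hS hSC α hα hαS z hz h0
    apply hα
    apply hx.eq_zero (S := insert z S)
    · rw [Finset.card_insert_of_notMem (fun h => hCMn _ (hSC h) hz), hS]
    · intro q hq
      rcases Finset.mem_insert.1 hq with rfl | hq
      · exact h0
      · exact hαS q hq
  have main := config d C hC (fun S T => LogRel M (ev x (v S)) (ev x (v T)))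
    (fun S => LogRel.refl _) (fun S T h => h.symm) (fun S T W h h' => h.trans h')
    (by
      intro S0 c hS0 hS0c hc hcS0
      -- the two functions
      have hcard : (insert c S0).card = d := by
        rw [Finset.card_insert_of_notMem hcS0, hS0c]
      have hsub : ((insert c S0 : Finset Q) : Set Q) ⊆ C := by
        rw [Finset.coe_insert]
        exact insert_subset hc hS0
      obtain ⟨hf1, hf2⟩ := hv (insert c S0) hcard.le
      set f := v (insert c S0) with hf
      have hz0S : z0 ∉ S0 := fun h => hCMn _ (hS0 h) hz0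
      obtain ⟨g, hg1, hg2⟩ := exists_vanish x (insert z0 S0) (by
        rw [Finset.card_insert_of_notMem hz0S]
        omega)
      have hgc : ev x g c ≠ 0 := by
        intro h0
        apply hg1
        apply hx.eq_zero (S := insert c (insert z0 S0))
        · rw [Finset.card_insert_of_notMem, Finset.card_insert_of_notMem hz0S]
          · omega
          · intro h
            rcases Finset.mem_insert.1 h with h | h
            · exact hCMn c hc (h ▸ hz0)
            · exact hcS0 h
        · intro q hq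
          rcases Finset.mem_insert.1 hq with rfl | hq
          · exact h0
          · exact hg2 q hq
      have hfc : ev x f c = 0 := hf2 c (Finset.mem_insert_self _ _)
      have hfM : ∀ z ∈ M, ev x f z ≠ 0 := hne _ hcard hsub f hf1 hf2
      -- the moving function
      set F : Q → (Fin (d + 1) → ℂ) := fun c' => ev x g c' • f - ev x f c' • g with hF
      have hFev : ∀ c' z, ev x (F c') z = ev x g c' * ev x f z - ev x f c' * ev x g z := by
        intro c' z
        rw [hF]
        simp only []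
        rw [ev_sub, ev_smul, ev_smul]
      have hFc : ∀ z, ev x (F c) z = ev x g c * ev x f z := by
        intro z
        rw [hFev, hfc, zero_mul, sub_zero]
      have hcont : Continuous (fun p : Q × Q => ev x (F p.1) p.2) := by
        simp only [hFev]
        exact (((continuous_ev x g).comp continuous_fst).mul
          ((continuous_ev x f).comp continuous_snd)).sub
          (((continuous_ev x f).comp continuous_fst).mul
          ((continuous_ev x g).comp continuous_snd))
      have hFcne : ∀ z ∈ M, ev x (F c) z ≠ 0 := by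
        intro z hz
        rw [hFc]
        exact mul_ne_zero hgc (hfM z hz)
      have hev : ∀ᶠ c' in 𝓝 c, ∀ z ∈ M, ‖ev x (F c') z - ev x (F c) z‖ < ‖ev x (F c) z‖ := by
        apply hM.eventually_forall_of_forall_eventually
        intro z hz
        have hopen : IsOpen {p : Q × Q | ‖ev x (F p.1) p.2 - ev x (F c) p.2‖ < ‖ev x (F c) p.2‖} := by
          apply isOpen_lt
          · exact (hcont.sub ((continuous_ev x _).comp continuous_snd)).norm
          · exact ((continuous_ev x _).comp continuous_snd).norm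
        apply hopen.mem_nhds
        simp only [mem_setOf_eq, sub_self, norm_zero]
        exact norm_pos_iff.2 (hFcne z hz)
      have hev2 : ∀ᶠ c' in 𝓝 c, c' ∉ S0 := by
        have : (S0 : Set Q)ᶜ ∈ 𝓝 c := S0.finite_toSet.isClosed.isOpen_compl.mem_nhds hcS0
        exact this
      filter_upwards [hev.filter_mono nhdsWithin_le_nhds, hev2.filter_mono nhdsWithin_le_nhds,
        self_mem_nhdsWithin] with c' h1 h2 h3
      have hcard' : (insert c' S0).card = d := by
        rw [Finset.card_insert_of_notMem h2, hS0c]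
      have hsub' : ((insert c' S0 : Finset Q) : Set Q) ⊆ C := by
        rw [Finset.coe_insert]
        exact insert_subset h3 hS0
      have hFz0 : ev x (F c') z0 ≠ 0 := by
        intro h0
        have := h1 z0 hz0
        rw [h0, zero_sub, norm_neg] at this
        exact lt_irrefl _ this
      have hFne : F c' ≠ 0 := by
        intro h
        apply hFz0
        rw [h]
        simp [ev]
      have hFvan : ∀ q ∈ insert c' S0, ev x (F c') q = 0 := by
        intro q hq
        rw [hFev]
        rcases Finset.mem_insert.1 hq with rfl | hq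
        · ring
        · rw [hf2 q (Finset.mem_insert_of_mem hq), hg2 q (Finset.mem_insert_of_mem hq)]
          ring
      have r1 := hprop _ hcard' hsub' (F c') hFne hFvan
      have r2 : LogRel M (ev x (F c')) (ev x (F c)) :=
        logRel_of_close (continuous_ev x _) (continuous_ev x _) hFcne h1
      have hFcne0 : F c ≠ 0 := by
        intro h
        apply hFcne z0 hz0
        rw [h]
        simp [ev]
      have hFcvan : ∀ q ∈ insert c S0, ev x (F c) q = 0 := by
        intro q hq
        rw [hFc, hf2 q hq, mul_zero]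
      have r3 := hprop _ hcard hsub (F c) hFcne0 hFcvan
      exact (r1.symm.trans r2).trans r3) S T hSC hTC hS hT
  exact ((hprop S hS hSC α hα hαS).trans main).trans (hprop T hT hTC β hβ hβT).symm

end MPe9314e
end

section

/-!
# Drawing continuum models of graphs in the plane
-/

set_option autoImplicit false

open Topology Set

namespace MPe9314e

theorem preconnected_thickening {D : Set ℂ} (hD : IsPreconnected D) (δ : ℝ) :
    IsPreconnected (Metric.thickening δ D) := by
  have h : Metric.thickening δ D = (fun p : ℂ × ℂ => p.1 + p.2) '' (D ×ˢ Metric.ball 0 δ) := by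
    ext z
    rw [Metric.mem_thickening_iff]
    constructor
    · rintro ⟨x, hx, hz⟩
      refine ⟨(x, z - x), ⟨hx, ?_⟩, by simp⟩
      rw [mem_ball_zero_iff, ← dist_eq_norm]
      exact hz
    · rintro ⟨⟨x, y⟩, ⟨hx, hy⟩, rfl⟩
      refine ⟨x, hx, ?_⟩
      simp only [dist_eq_norm, add_sub_cancel_left]
      rwa [mem_ball_zero_iff] at hy
  rw [h]
  exact (hD.prod (convex_ball (0 : ℂ) δ).isPreconnected).image _ (by fun_prop)

theorem path_in_open {W : Set ℂ} (hW : IsOpen W) (hc : IsPreconnected W) {u v : ℂ} (hu : u ∈ W)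
    (hv : v ∈ W) : ∃ γ : ℝ → ℂ, Continuous γ ∧ γ 0 = u ∧ γ 1 = v ∧ ∀ t, γ t ∈ W := by
  have h1 : IsPathConnected W := hW.isConnected_iff_isPathConnected.1 ⟨⟨u, hu⟩, hc⟩
  obtain ⟨γ, hγ⟩ := h1.joinedIn u hu v hv
  refine ⟨γ.extend, γ.continuous_extend, γ.extend_zero, γ.extend_one, fun t => ?_⟩
  have : γ.extend t ∈ range γ := by
    rw [← γ.extend_range]
    exact mem_range_self t
  obtain ⟨s, hs⟩ := this
  rw [← hs]
  exact hγ s

/-- disjoint continua can be replaced by disjoint paths -/
theorem exists_paths {ε : Type*} [Finite ε] (D : ε → Set ℂ) (u v : ε → ℂ)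
    (h : ∀ e, IsCompact (D e) ∧ IsPreconnected (D e) ∧ u e ∈ D e ∧ v e ∈ D e) :
    ∃ γ : ε → ℝ → ℂ, (∀ e, Continuous (γ e) ∧ γ e 0 = u e ∧ γ e 1 = v e) ∧
      ∀ e f, Disjoint (D e) (D f) → ∀ s t, γ e s ≠ γ f t := by
  have h1 : ∀ᶠ δ in 𝓝[>] (0 : ℝ), ∀ e f, Disjoint (D e) (D f) →
      Disjoint (Metric.thickening δ (D e)) (Metric.thickening δ (D f)) := by
    rw [Filter.eventually_all]
    intro e
    rw [Filter.eventually_all]
    intro f
    by_cases hd : Disjoint (D e) (D f)
    · obtain ⟨δ, hδ, hdis⟩ := hd.exists_thickenings (h e).1 (h f).1.isClosed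
      filter_upwards [Ioc_mem_nhdsGT hδ] with δ' hδ' _
      exact hdis.mono (Metric.thickening_mono hδ'.2 _) (Metric.thickening_mono hδ'.2 _)
    · exact Filter.Eventually.of_forall fun δ hd' => absurd hd' hd
  obtain ⟨δ, hδ, hδ0⟩ := (h1.and self_mem_nhdsWithin).exists
  have hδ0' : 0 < δ := hδ0
  have h2 : ∀ e, ∃ γ : ℝ → ℂ, Continuous γ ∧ γ 0 = u e ∧ γ 1 = v e ∧
      ∀ t, γ t ∈ Metric.thickening δ (D e) := by
    intro e
    obtain ⟨-, g2, g3, g4⟩ := h e
    exact path_in_open Metric.isOpen_thickening (preconnected_thickening g2 δ)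
      (Metric.self_subset_thickening hδ0' _ g3) (Metric.self_subset_thickening hδ0' _ g4)
  choose γ hγ1 hγ2 hγ3 hγ4 using h2
  refine ⟨γ, fun e => ⟨hγ1 e, hγ2 e, hγ3 e⟩, ?_⟩
  intro e f hd s t heq
  have := hδ e f hd
  rw [Set.disjoint_left] at this
  exact this (hγ4 e s) (heq ▸ hγ4 f t)

variable {Q : Type*} [TopologicalSpace Q] {d : ℕ}

/-- the face containing the remaining part of a connected set: for `d` points `P` of `C` there is
an injective continuous function `j` on the complement of `P` which maps `C \ P` into one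
complementary component of `j '' M` -/
theorem face_aux [CompactSpace Q] [T2Space Q] {x : Fin (d + 1) → C(Q, ℂ)} (hd : 1 ≤ d)
    (hx : IsChebyshevSystem x) {C M : Set Q} (hC : IsPreconnected C)
    (hM : IsClosed M) (hCM : Disjoint C M) {P : Finset Q} (hPC : (P : Set Q) ⊆ C)
    (hP : P.card = d) {p0 : Q} (hp0C : p0 ∈ C) (hp0P : p0 ∉ P) :
    ∃ (j : Q → ℂ) (Ω : Set ℂ), ContinuousOn j {z | z ∉ P} ∧ InjOn j {z | z ∉ P} ∧ IsOpen Ω ∧
      IsConnected Ω ∧ ¬ Bornology.IsBounded Ω ∧ Disjoint Ω (j '' M) ∧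
      (∀ p ∈ C, p ∉ P → j p ∈ Ω) ∧ ∀ v ∈ closure C ∩ M, j v ∈ closure Ω := by
  classical
  have hCMn : ∀ z ∈ C, z ∉ M := fun z hz hz' => Set.disjoint_left.1 hCM hz hz'
  obtain ⟨x0, hx0⟩ : P.Nonempty := Finset.card_pos.1 (by omega)
  obtain ⟨α, β, hβ, hβ0, hα0, hα⟩ := exists_quotient hx hP hx0 (x1 := p0) hp0P
  obtain ⟨hβne, hcont, hinj⟩ := quotient_props hx hP hx0 hβ hβ0 hα0 hα
  set j : Q → ℂ := fun z => ev x α z / ev x β z with hj
  have hMP : M ⊆ {z | z ∉ P} := fun z hz hzP => hCMn z (hPC hzP) hz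
  have hcM : ContinuousOn j M := hcont.mono hMP
  have hiM : InjOn j M := hinj.mono hMP
  have hcs : CompactSpace M := isCompact_iff_compactSpace.1 hM.isCompact
  have hemb : IsClosedEmbedding (fun z : M => j z) :=
    (continuousOn_iff_continuous_domRestrict.1 hcM).isClosedEmbedding
      (fun z w hzw => Subtype.ext (hiM z.2 w.2 hzw))
  have hrange : range (fun z : M => j z) = j '' M := by
    ext w
    simp [Set.mem_image]
  -- unbounded components
  have hunb : ∀ p ∈ C \ (P : Set Q),
      ¬ Bornology.IsBounded (connectedComponentIn (j '' M)ᶜ (j p)) := by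
    rintro p ⟨hpC, hpP⟩
    have hpP' : p ∉ P := hpP
    have hγ : α - j p • β ≠ 0 := by
      intro h0
      apply hα
      have h3 := congrArg (fun γ => ev x γ x0) h0
      simp only [ev_sub, ev_smul, hβ0 x0 hx0] at h3
      rw [mul_zero, sub_zero] at h3
      rw [h3]
      simp [ev]
    have hpe : p ∉ P.erase x0 := fun h => hpP' (Finset.mem_of_mem_erase h)
    have hcard : (insert p (P.erase x0)).card = d := by
      rw [Finset.card_insert_of_notMem hpe, Finset.card_erase_of_mem hx0, hP]
      omega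
    have hsub : ((insert p (P.erase x0) : Finset Q) : Set Q) ⊆ C := by
      rw [Finset.coe_insert, Finset.coe_erase]
      exact insert_subset hpC (sdiff_subset.trans hPC)
    have hvan : ∀ q ∈ insert p (P.erase x0), ev x (α - j p • β) q = 0 := by
      intro q hq
      rw [ev_sub, ev_smul]
      rcases Finset.mem_insert.1 hq with rfl | hq
      · rw [hj]
        simp only []
        rw [div_mul_cancel₀ _ (hβne _ hpP'), sub_self]
      · rw [hα0 q (Finset.mem_of_mem_erase hq) (Finset.ne_of_mem_erase hq),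
          hβ0 q (Finset.mem_of_mem_erase hq)]
        ring
    obtain ⟨Λ, hΛ, hrel⟩ := logRel_conn hx hC hM.isCompact hCM hγ hβ hcard hP hsub hPC hvan hβ0
    rw [← hrange]
    apply borsuk_embedding hemb (Λ := fun z : M => Λ z)
    · rintro ⟨z, hz⟩
      have hz' : j z = j p := hz
      have := hinj (hMP z.2) hpP' hz'
      exact hCMn p hpC (this ▸ z.2)
    · exact continuousOn_iff_continuous_domRestrict.1 hΛ
    · intro z
      have h1 := hrel z z.2
      have h2 := hβne z (hMP z.2)
      rw [ev_sub, ev_smul] at h1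
      have h3 : ev x α z / ev x β z - j p = Complex.exp (Λ z) := by
        field_simp
        linear_combination h1
      exact h3
  have hXc : IsCompact (j '' M) := hM.isCompact.image_of_continuousOn hcM
  set Ω := connectedComponentIn (j '' M)ᶜ (j p0) with hΩ
  have hmem : ∀ p ∈ C \ (P : Set Q), j p ∈ Ω := by
    intro p hp
    rw [hΩ, component_eq hXc (hunb p0 ⟨hp0C, hp0P⟩) (hunb p hp)]
    apply mem_connectedComponentIn
    rintro ⟨z, hz, hzp⟩
    have := hinj (hMP hz) hp.2 hzp
    exact hCMn p hp.1 (this ▸ hz)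
  refine ⟨j, Ω, hcont, hinj, hXc.isClosed.isOpen_compl.connectedComponentIn,
    ⟨⟨j p0, hmem p0 ⟨hp0C, hp0P⟩⟩, isPreconnected_connectedComponentIn⟩,
    hunb p0 ⟨hp0C, hp0P⟩, ?_, fun p hp hpP => hmem p ⟨hp, hpP⟩, ?_⟩
  · exact Set.disjoint_left.2 fun z hz hz' => connectedComponentIn_subset _ _ hz hz'
  · rintro v ⟨hv, hvM⟩
    have hvcl : v ∈ closure (C \ (P : Set Q)) := by
      have h1 : C ⊆ (C \ (P : Set Q)) ∪ (P : Set Q) := by
        intro z hz
        by_cases hzP : z ∈ P
        · exact Or.inr hzP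
        · exact Or.inl ⟨hz, hzP⟩
      have h2 := closure_mono h1 hv
      rw [closure_union, P.finite_toSet.isClosed.closure_eq] at h2
      rcases h2 with h2 | h2
      · exact h2
      · exact absurd hvM (hCMn v (hPC h2))
    have h3 : ContinuousWithinAt j (C \ (P : Set Q)) v :=
      (hcont v (hMP hvM)).mono fun z hz => hz.2
    have h4 := h3.mem_closure_image hvcl
    refine closure_mono ?_ h4
    rintro _ ⟨p, hp, rfl⟩
    exact hmem p hp

/-- the face containing the remaining part of a connected set -/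
theorem face [CompactSpace Q] [T2Space Q] {x : Fin (d + 1) → C(Q, ℂ)} (hd : 1 ≤ d)
    (hx : IsChebyshevSystem x) {C M : Set Q} (hC : IsPreconnected C) (hCinf : C.Infinite)
    (hM : IsClosed M) (hCM : Disjoint C M) :
    ∃ (j : Q → ℂ) (Ω : Set ℂ), ContinuousOn j M ∧ InjOn j M ∧ IsOpen Ω ∧ IsConnected Ω ∧
      Disjoint Ω (j '' M) ∧ ∀ v ∈ closure C ∩ M, j v ∈ closure Ω := by
  obtain ⟨P, hPC, hP⟩ := hCinf.exists_subset_card_eq d
  obtain ⟨p0, hp0C, hp0P⟩ := (hCinf.sdiff P.finite_toSet).nonempty
  obtain ⟨j, Ω, h1, h2, h3, h4, -, h5, -, h6⟩ := face_aux hd hx hC hM hCM hPC hP hp0C hp0P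
  have hMP : M ⊆ {z | z ∉ P} := fun z hz hzP => Set.disjoint_left.1 hCM (hPC hzP) hz
  exact ⟨j, Ω, h1.mono hMP, h2.mono hMP, h3, h4, h5, h6⟩

end MPe9314e
end

section

/-!
# Continuum models of graphs in spaces with a complex Chebyshev system
-/

set_option autoImplicit false

open Topology Set

namespace MPe9314e

variable {Q : Type*} [TopologicalSpace Q] {d : ℕ}

/-- two edges without a common vertex -/
def VDis {ι ε : Type*} (s t : ε → ι) (e f : ε) : Prop :=
  s e ≠ s f ∧ s e ≠ t f ∧ t e ≠ s f ∧ t e ≠ t f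

theorem VDis.symm {ι ε : Type*} {s t : ε → ι} {e f : ε} (h : VDis s t e f) : VDis s t f e :=
  ⟨h.1.symm, h.2.2.1.symm, h.2.1.symm, h.2.2.2.symm⟩

theorem draw [CompactSpace Q] [T2Space Q] {x : Fin (d + 1) → C(Q, ℂ)} (hd : 1 ≤ d)
    (hx : IsChebyshevSystem x) {ι ε : Type*} [Finite ι] [Finite ε] (s t : ε → ι)
    (V : ι → Set Q) (E : ε → Set Q) (hVc : ∀ i, IsClosed (V i)) (hVp : ∀ i, IsConnected (V i))
    (hVd : ∀ i j, i ≠ j → Disjoint (V i) (V j)) (hEc : ∀ e, IsClosed (E e))
    (hEp : ∀ e, IsPreconnected (E e)) (hEs : ∀ e, (E e ∩ V (s e)).Nonempty)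
    (hEt : ∀ e, (E e ∩ V (t e)).Nonempty)
    (hEV : ∀ e k, k ≠ s e → k ≠ t e → Disjoint (E e) (V k))
    (hEE : ∀ e f, VDis s t e f → Disjoint (E e) (E f)) (e0 : ε) (h0 : s e0 ≠ t e0)
    (hE0 : ∀ f, f ≠ e0 → E e0 ∩ E f ⊆ V (s e0) ∪ V (t e0)) :
    ∃ (a : ι → ℂ) (D : ε → Set ℂ),
      (∀ e, IsCompact (D e) ∧ IsPreconnected (D e) ∧ a (s e) ∈ D e ∧ a (t e) ∈ D e) ∧
      ∀ e f, VDis s t e f → Disjoint (D e) (D f) := by
  classical
  obtain ⟨C, hCK, hCp, hCinf, hCA, hCB⟩ := exists_bridge (hEc e0) (hEp e0) (hVc (s e0))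
    (hVc (t e0)) (hVd _ _ h0) (hEs e0) (hEt e0)
  set M : Set Q := (⋃ i, V i) ∪ ⋃ e : {e : ε // e ≠ e0}, E e with hM
  have hMc : IsClosed M := (isClosed_iUnion_of_finite hVc).union
    (isClosed_iUnion_of_finite fun e => hEc e)
  have hVM : ∀ i, V i ⊆ M := fun i => (subset_iUnion V i).trans subset_union_left
  have hEM : ∀ e, e ≠ e0 → E e ⊆ M := fun e he =>
    (subset_iUnion (fun e : {e : ε // e ≠ e0} => E e) ⟨e, he⟩).trans subset_union_right
  have hCM : Disjoint C M := by
    rw [Set.disjoint_left]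
    intro z hz hzM
    obtain ⟨hzE, hzV⟩ := hCK hz
    rcases hzM with h | h
    · obtain ⟨i, hi⟩ := mem_iUnion.1 h
      by_cases h1 : i = s e0
      · exact hzV (Or.inl (h1 ▸ hi))
      by_cases h2 : i = t e0
      · exact hzV (Or.inr (h2 ▸ hi))
      exact Set.disjoint_left.1 (hEV e0 i h1 h2) hzE hi
    · obtain ⟨⟨e, he⟩, hi⟩ := mem_iUnion.1 h
      exact hzV (hE0 e he ⟨hzE, hi⟩)
  obtain ⟨j, Ω, hj, hjinj, hΩo, hΩc, hΩd, hΩcl⟩ := face hd hx hCp hCinf hMc hCM
  choose v hv using fun i => (hVp i).nonempty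
  -- the closed unions
  set U : ε → Set Q := fun e => V (s e) ∪ E e ∪ V (t e) with hU
  have hUM : ∀ e, e ≠ e0 → U e ⊆ M := fun e he =>
    union_subset (union_subset (hVM _) (hEM e he)) (hVM _)
  have hUc : ∀ e, IsClosed (U e) := fun e => ((hVc _).union (hEc e)).union (hVc _)
  have hUp : ∀ e, IsPreconnected (U e) := by
    intro e
    obtain ⟨z, hz1, hz2⟩ := hEs e
    obtain ⟨w, hw1, hw2⟩ := hEt e
    exact ((hVp _).isPreconnected.union z hz2 hz1 (hEp e)).union w (Or.inr hw1) hw2
      (hVp _).isPreconnected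
  have hUd : ∀ e f, VDis s t e f → Disjoint (U e) (U f) := by
    intro e f h
    obtain ⟨g1, g2, g3, g4⟩ := h
    rw [Set.disjoint_left]
    intro z hz hz'
    rcases hz with (hz | hz) | hz <;> rcases hz' with (hz' | hz') | hz'
    · exact Set.disjoint_left.1 (hVd _ _ g1) hz hz'
    · exact Set.disjoint_left.1 (hEV f (s e) g1 g2) hz' hz
    · exact Set.disjoint_left.1 (hVd _ _ g2) hz hz'
    · exact Set.disjoint_left.1 (hEV e (s f) g1.symm g3.symm) hz hz'
    · exact Set.disjoint_left.1 (hEE e f ⟨g1, g2, g3, g4⟩) hz hz'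
    · exact Set.disjoint_left.1 (hEV e (t f) g2.symm g4.symm) hz hz'
    · exact Set.disjoint_left.1 (hVd _ _ g3) hz hz'
    · exact Set.disjoint_left.1 (hEV f (t e) g3 g4) hz' hz
    · exact Set.disjoint_left.1 (hVd _ _ g4) hz hz'
  have hne : ∀ f, VDis s t e0 f → f ≠ e0 := by
    rintro f hf rfl
    exact hf.1 rfl
  -- images of disjoint subsets of `M`
  have himg : ∀ A B : Set Q, A ⊆ M → B ⊆ M → Disjoint A B → Disjoint (j '' A) (j '' B) := by
    intro A B hA hB hAB
    rw [Set.disjoint_left]
    rintro _ ⟨z, hz, rfl⟩ ⟨w, hw, hwz⟩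
    have := hjinj (hB hw) (hA hz) hwz
    exact Set.disjoint_left.1 hAB hz (this ▸ hw)
  have hcomp : ∀ A : Set Q, IsClosed A → A ⊆ M → IsCompact (j '' A) := fun A hA hAM =>
    hA.isCompact.image_of_continuousOn (hj.mono hAM)
  set X : Set ℂ := ⋃ f : {f : ε // VDis s t e0 f}, j '' U f with hX
  have hXc : IsClosed X := isClosed_iUnion_of_finite fun f =>
    (hcomp _ (hUc f) (hUM f (hne f f.2))).isClosed
  have hXM : X ⊆ j '' M := by
    apply iUnion_subset
    intro f
    exact image_mono (hUM f (hne f f.2))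
  have hsubX : ∀ A : Set Q, A ⊆ U e0 → A ⊆ M → j '' A ⊆ Xᶜ := by
    intro A hA hAM
    rw [Set.subset_compl_iff_disjoint_right, hX, disjoint_iUnion_right]
    rintro ⟨f, hf⟩
    exact himg A (U f) hAM (hUM f (hne f hf)) ((hUd e0 f hf).mono_left hA)
  obtain ⟨δ₁, hδ₁, hT₁⟩ := (hcomp _ (hVc (s e0)) (hVM _)).exists_thickening_subset_open
    hXc.isOpen_compl (hsubX _ (fun z hz => Or.inl (Or.inl hz)) (hVM _))
  obtain ⟨δ₂, hδ₂, hT₂⟩ := (hcomp _ (hVc (t e0)) (hVM _)).exists_thickening_subset_open
    hXc.isOpen_compl (hsubX _ (fun z hz => Or.inr hz) (hVM _))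
  set W : Set ℂ := Metric.thickening δ₁ (j '' V (s e0)) ∪ Ω ∪ Metric.thickening δ₂ (j '' V (t e0))
    with hW
  have hmeet : ∀ (i : ι) (δ : ℝ), 0 < δ → (closure C ∩ V i).Nonempty →
      (Metric.thickening δ (j '' V i) ∩ Ω).Nonempty := by
    rintro i δ hδ ⟨w, hwC, hwV⟩
    have h1 := hΩcl w ⟨hwC, hVM i hwV⟩
    obtain ⟨y, hy1, hy2⟩ := Metric.mem_closure_iff.1 h1 δ hδ
    refine ⟨y, ?_, hy1⟩
    rw [Metric.mem_thickening_iff]
    exact ⟨j w, mem_image_of_mem j hwV, by rwa [dist_comm]⟩
  have hVp' : ∀ i, IsPreconnected (j '' V i) := fun i =>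
    (hVp i).isPreconnected.image j (hj.mono (hVM i))
  have hWp : IsPreconnected W := by
    obtain ⟨y, hy1, hy2⟩ := hmeet (s e0) δ₁ hδ₁ hCA
    obtain ⟨y', hy1', hy2'⟩ := hmeet (t e0) δ₂ hδ₂ hCB
    exact ((preconnected_thickening (hVp' _) δ₁).union y hy1 hy2 hΩc.isPreconnected).union y' (Or.inr hy2') hy1'
      (preconnected_thickening (hVp' _) δ₂)
  have hWo : IsOpen W := (Metric.isOpen_thickening.union hΩo).union Metric.isOpen_thickening
  have hWX : Disjoint W X := by
    rw [Set.disjoint_left]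
    rintro z ((hz | hz) | hz) hzX
    · exact hT₁ hz hzX
    · exact Set.disjoint_left.1 hΩd hz (hXM hzX)
    · exact hT₂ hz hzX
  obtain ⟨γ, hγ, hγ0, hγ1, hγW⟩ := path_in_open hWo hWp (u := j (v (s e0))) (v := j (v (t e0)))
    (Or.inl (Or.inl (Metric.self_subset_thickening hδ₁ _ (mem_image_of_mem j (hv _)))))
    (Or.inr (Metric.self_subset_thickening hδ₂ _ (mem_image_of_mem j (hv _))))
  refine ⟨fun i => j (v i), fun e => if e = e0 then γ '' Icc 0 1 else j '' U e, ?_, ?_⟩
  · intro e
    by_cases he : e = e0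
    · subst he
      simp only [if_true]
      refine ⟨isCompact_Icc.image hγ, isPreconnected_Icc.image _ hγ.continuousOn, ?_, ?_⟩
      · exact ⟨0, by simp, hγ0⟩
      · exact ⟨1, by simp, hγ1⟩
    · simp only [if_neg he]
      refine ⟨hcomp _ (hUc e) (hUM e he), (hUp e).image _ (hj.mono (hUM e he)), ?_, ?_⟩
      · exact mem_image_of_mem j (Or.inl (Or.inl (hv _)))
      · exact mem_image_of_mem j (Or.inr (hv _))
  · have key : ∀ f, VDis s t e0 f → Disjoint (γ '' Icc 0 1) (j '' U f) := by
      intro f hf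
      apply hWX.mono
      · rintro _ ⟨r, _, rfl⟩
        exact hγW r
      · exact subset_iUnion (fun f : {f : ε // VDis s t e0 f} => j '' U f) ⟨f, hf⟩
    intro e f hef
    by_cases he : e = e0
    · subst he
      simp only [if_true, if_neg (hne f hef)]
      exact key f hef
    · by_cases hf : f = e0
      · subst hf
        simp only [if_true, if_neg he]
        exact (key e hef.symm).symm
      · simp only [if_neg he, if_neg hf]
        exact himg _ _ (hUM e he) (hUM f hf) (hUd e f hef)

end MPe9314e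
end
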