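import Pool.Agent.Lib.MP_e9314e_an.GDraw

/-!
# No models of `K₅` and `K₃,₃` by continua
-/

set_option autoImplicit false

open Topology Set

namespace MPe9314e

variable {Q : Type*} [TopologicalSpace Q] {d : ℕ}

/-- A model of the graph `G` in `Q` by closed connected sets: `V i` for the vertices, `E i j` for
the edges; at least one of the edge sets meets the other edge sets only inside its end sets. -/
structure IsModel {ι : Type*} (G : SimpleGraph ι) (V : ι → Set Q) (E : ι → ι → Set Q) : Prop where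
  /-- the vertex sets are closed and connected -/
  vertex : ∀ i, IsClosed (V i) ∧ IsConnected (V i)
  /-- the vertex sets are pairwise disjoint -/
  vertex_disjoint : ∀ i j, i ≠ j → Disjoint (V i) (V j)
  /-- the edge sets do not depend on the orientation -/
  edge_symm : ∀ i j, G.Adj i j → E i j = E j i
  /-- the edge sets are closed and connected -/
  edge : ∀ i j, G.Adj i j → IsClosed (E i j) ∧ IsConnected (E i j)
  /-- the edge sets meet their end sets -/
  edge_meets : ∀ i j, G.Adj i j → (E i j ∩ V i).Nonempty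
  /-- the edge sets are disjoint from the other vertex sets -/
  edge_vertex : ∀ i j k, G.Adj i j → k ≠ i → k ≠ j → Disjoint (E i j) (V k)
  /-- the edge sets of edges without a common vertex are disjoint -/
  edge_edge : ∀ i j k l, G.Adj i j → G.Adj k l → i ≠ k → i ≠ l → j ≠ k → j ≠ l →
    Disjoint (E i j) (E k l)
  /-- one edge set meets the other edge sets only inside its end sets -/
  special : ∃ i j, G.Adj i j ∧ ∀ k l, G.Adj k l → ¬ (k = i ∧ l = j) → ¬ (k = j ∧ l = i) →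
    E i j ∩ E k l ⊆ V i ∪ V j

/-- models can be transported along graph isomorphisms -/
theorem IsModel.comap {ι κ : Type*} {G : SimpleGraph ι} {H : SimpleGraph κ} {V : ι → Set Q}
    {E : ι → ι → Set Q} (hm : IsModel G V E) (φ : H ≃g G) :
    IsModel H (fun i => V (φ i)) (fun i j => E (φ i) (φ j)) where
  vertex i := hm.vertex _
  vertex_disjoint i j h := hm.vertex_disjoint _ _ (fun h' => h (φ.injective h'))
  edge_symm i j h := hm.edge_symm _ _ (φ.map_adj_iff.2 h)
  edge i j h := hm.edge _ _ (φ.map_adj_iff.2 h)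
  edge_meets i j h := hm.edge_meets _ _ (φ.map_adj_iff.2 h)
  edge_vertex i j k h h1 h2 := hm.edge_vertex _ _ _ (φ.map_adj_iff.2 h)
    (fun h' => h1 (φ.injective h')) (fun h' => h2 (φ.injective h'))
  edge_edge i j k l h h' h1 h2 h3 h4 := hm.edge_edge _ _ _ _ (φ.map_adj_iff.2 h)
    (φ.map_adj_iff.2 h') (fun g => h1 (φ.injective g)) (fun g => h2 (φ.injective g))
    (fun g => h3 (φ.injective g)) (fun g => h4 (φ.injective g))
  special := by
    obtain ⟨i, j, h1, h2⟩ := hm.special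
    refine ⟨φ.symm i, φ.symm j, ?_, ?_⟩
    · rw [← φ.map_adj_iff]
      simpa using h1
    · intro k l hkl g1 g2
      have := h2 (φ k) (φ l) (φ.map_adj_iff.2 hkl) (by
        rintro ⟨e1, e2⟩
        apply g1
        rw [← e1, ← e2]
        simp) (by
        rintro ⟨e1, e2⟩
        apply g2
        rw [← e1, ← e2]
        simp)
      simpa using this

/-- a model of a graph gives a drawing in which edges without a common vertex are disjoint -/
theorem draw_model [CompactSpace Q] [T2Space Q] {x : Fin (d + 1) → C(Q, ℂ)} (hd : 1 ≤ d)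
    (hx : IsChebyshevSystem x) {ι : Type*} [Finite ι] {G : SimpleGraph ι} {V : ι → Set Q}
    {E : ι → ι → Set Q} (hm : IsModel G V E) (O : ι → ι → Prop) (hO : ∀ i j, O i j → G.Adj i j)
    (hO2 : ∀ i j, G.Adj i j → O i j ∨ O j i) (hO3 : ∀ i j, O i j → ¬ O j i) :
    ∃ (a : ι → ℂ) (γ : ι → ι → ℝ → ℂ),
      (∀ i j, O i j → Continuous (γ i j) ∧ γ i j 0 = a i ∧ γ i j 1 = a j) ∧
      ∀ i j k l, O i j → O k l → i ≠ k → i ≠ l → j ≠ k → j ≠ l → ∀ s t, γ i j s ≠ γ k l t := by
  classical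
  -- the special edge, correctly oriented
  obtain ⟨i0, j0, h1, h2⟩ : ∃ i j, O i j ∧ ∀ k l, G.Adj k l → ¬ (k = i ∧ l = j) →
      ¬ (k = j ∧ l = i) → E i j ∩ E k l ⊆ V i ∪ V j := by
    obtain ⟨i, j, h1, h2⟩ := hm.special
    rcases hO2 i j h1 with h | h
    · exact ⟨i, j, h, h2⟩
    · refine ⟨j, i, h, fun k l hkl hne hne' => ?_⟩
      rw [← hm.edge_symm i j h1, union_comm]
      exact h2 k l hkl hne' hne
  obtain ⟨a, D, hD, hdis⟩ := draw hd hx (ε := {p : ι × ι // O p.1 p.2}) (fun e => e.1.1)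
    (fun e => e.1.2) V (fun e => E e.1.1 e.1.2) (fun i => (hm.vertex i).1)
    (fun i => (hm.vertex i).2) hm.vertex_disjoint (fun e => (hm.edge _ _ (hO _ _ e.2)).1)
    (fun e => (hm.edge _ _ (hO _ _ e.2)).2.isPreconnected)
    (fun e => hm.edge_meets _ _ (hO _ _ e.2))
    (fun e => by
      rw [hm.edge_symm _ _ (hO _ _ e.2)]
      exact hm.edge_meets _ _ (hO _ _ e.2).symm)
    (fun e k => hm.edge_vertex _ _ k (hO _ _ e.2))
    (fun e f h => hm.edge_edge _ _ _ _ (hO _ _ e.2) (hO _ _ f.2) h.1 h.2.1 h.2.2.1 h.2.2.2)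
    ⟨(i0, j0), h1⟩ (hO _ _ h1).ne
    (fun f hf => by
      refine h2 f.1.1 f.1.2 (hO _ _ f.2) ?_ ?_
      · rintro ⟨g1, g2⟩
        exact hf (Subtype.ext (Prod.ext g1 g2))
      · rintro ⟨g1, g2⟩
        have := f.2
        rw [g1, g2] at this
        exact hO3 _ _ h1 this)
  obtain ⟨γ, hγ, hγd⟩ := exists_paths D (fun e => a e.1.1) (fun e => a e.1.2) hD
  refine ⟨a, fun i j => if h : O i j then γ ⟨(i, j), h⟩ else 0, ?_, ?_⟩
  · intro i j h
    simp only [dif_pos h]
    exact hγ ⟨(i, j), h⟩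
  · intro i j k l hij hkl g1 g2 g3 g4
    simp only [dif_pos hij, dif_pos hkl]
    exact hγd _ _ (hdis ⟨(i, j), hij⟩ ⟨(k, l), hkl⟩ ⟨g1, g2, g3, g4⟩)

theorem no_model_K5 [CompactSpace Q] [T2Space Q] {x : Fin (d + 1) → C(Q, ℂ)} (hd : 1 ≤ d)
    (hx : IsChebyshevSystem x) {V : Fin 5 → Set Q} {E : Fin 5 → Fin 5 → Set Q} :
    ¬ IsModel (⊤ : SimpleGraph (Fin 5)) V E := by
  intro hm
  obtain ⟨a, γ, h1, h2⟩ := draw_model hd hx hm (fun i j => i < j) (fun i j h => h.ne)
    (fun i j h => lt_or_gt_of_ne h) (fun i j h h' => lt_asymm h h')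
  exact no_K5 a γ h1 (fun i j k l hij hkl => h2 i j k l hij hkl)

theorem no_model_K33 [CompactSpace Q] [T2Space Q] {x : Fin (d + 1) → C(Q, ℂ)} (hd : 1 ≤ d)
    (hx : IsChebyshevSystem x) {V : Fin 3 ⊕ Fin 3 → Set Q}
    {E : Fin 3 ⊕ Fin 3 → Fin 3 ⊕ Fin 3 → Set Q} :
    ¬ IsModel (completeBipartiteGraph (Fin 3) (Fin 3)) V E := by
  intro hm
  obtain ⟨a, γ, h1, h2⟩ := draw_model hd hx hm (fun i j => i.isLeft = true ∧ j.isRight = true)
    (fun i j h => Or.inl h) (fun i j h => h.imp id fun h' => ⟨h'.2, h'.1⟩)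
    (by
      rintro (i | i) (j | j) ⟨g1, g2⟩ ⟨g3, g4⟩
      · simp at g2
      · simp at g3
      · simp at g1
      · simp at g1)
  let e : Fin 6 ≃ Fin 3 ⊕ Fin 3 := (finSumFinEquiv (m := 3) (n := 3)).symm
  have e1 : ∀ i : Fin 6, i < 3 → (e i).isLeft = true := by decide
  have e2 : ∀ i : Fin 6, 3 ≤ i → (e i).isRight = true := by decide
  refine no_K33 (fun i => a (e i)) (fun i j => γ (e i) (e j))
    (fun i j hi hj => h1 _ _ ⟨e1 i hi, e2 j hj⟩) ?_
  intro i j k l hi hj hk hl hik hjl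
  have hx1 : ∀ i l : Fin 6, i < 3 → 3 ≤ l → i ≠ l := fun i l h h' => (h.trans_le h').ne
  exact h2 _ _ _ _ ⟨e1 i hi, e2 j hj⟩ ⟨e1 k hk, e2 l hl⟩ (fun h => hik (e.injective h))
    (fun h => hx1 i l hi hl (e.injective h)) (fun h => hx1 k j hk hj (e.injective h.symm))
    (fun h => hjl (e.injective h))

theorem no_model [CompactSpace Q] [T2Space Q] {x : Fin (d + 1) → C(Q, ℂ)} (hd : 1 ≤ d)
    (hx : IsChebyshevSystem x) {ι : Type*} {G : SimpleGraph ι} {V : ι → Set Q}
    {E : ι → ι → Set Q} (hG : Nonempty (G ≃g (⊤ : SimpleGraph (Fin 5))) ∨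
      Nonempty (G ≃g completeBipartiteGraph (Fin 3) (Fin 3))) : ¬ IsModel G V E := by
  intro hm
  rcases hG with ⟨⟨φ⟩⟩ | ⟨⟨φ⟩⟩
  · exact no_model_K5 hd hx (hm.comap φ.symm)
  · exact no_model_K33 hd hx (hm.comap φ.symm)

end MPe9314e
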