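import Mathlib
import Pool.Agent.Lib.MP_e9314e_an.Main

section

section

/-!
Injective paths in connected open subsets of the plane.
-/

namespace Pool.Agent.Lib.MP_e9314e_an

open Topology Set

/-- `u` and `v` are joined by an injective path in `W` -/
def FaJoin (W : Set ℂ) (u v : ℂ) : Prop :=
  ∃ (a b : ℝ) (δ : ℝ → ℂ), a < b ∧ ContinuousOn δ (Icc a b) ∧ InjOn δ (Icc a b) ∧ δ a = u ∧
    δ b = v ∧ ∀ t ∈ Icc a b, δ t ∈ W

theorem fa_concat {a b c : ℝ} {δ₁ δ₂ : ℝ → ℂ} (hab : a < b) (hbc : b < c)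
    (h1 : ContinuousOn δ₁ (Icc a b)) (i1 : InjOn δ₁ (Icc a b)) (h2 : ContinuousOn δ₂ (Icc b c))
    (i2 : InjOn δ₂ (Icc b c)) (heq : δ₁ b = δ₂ b)
    (hd : ∀ s ∈ Ico a b, ∀ t ∈ Icc b c, δ₁ s ≠ δ₂ t) :
    ContinuousOn (fun t => if t ≤ b then δ₁ t else δ₂ t) (Icc a c) ∧
      InjOn (fun t => if t ≤ b then δ₁ t else δ₂ t) (Icc a c) := by
  constructor
  · have hu : Icc a c = Icc a b ∪ Icc b c := (Icc_union_Icc_eq_Icc hab.le hbc.le).symm
    rw [hu]
    apply ContinuousOn.union_of_isClosed _ _ isClosed_Icc isClosed_Icc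
    · apply h1.congr
      intro t ht
      simp only
      rw [if_pos ht.2]
    · apply h2.congr
      intro t ht
      simp only
      split_ifs with h
      · have : t = b := le_antisymm h ht.1
        rw [this, heq]
      · rfl
  · intro s hs t ht hst
    simp only at hst
    split_ifs at hst with h3 h4 h4
    · exact i1 ⟨hs.1, h3⟩ ⟨ht.1, h4⟩ hst
    · exfalso
      rcases lt_or_eq_of_le h3 with h5 | h5
      · exact hd s ⟨hs.1, h5⟩ t ⟨(not_le.1 h4).le, ht.2⟩ hst
      · rw [h5, heq] at hst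
        have h6 := i2 ⟨le_rfl, hbc.le⟩ ⟨(not_le.1 h4).le, ht.2⟩ hst
        rw [h6] at h4
        exact h4 le_rfl
    · exfalso
      rcases lt_or_eq_of_le h4 with h5 | h5
      · exact hd t ⟨ht.1, h5⟩ s ⟨(not_le.1 h3).le, hs.2⟩ hst.symm
      · rw [h5, heq] at hst
        have h6 := i2 ⟨(not_le.1 h3).le, hs.2⟩ ⟨le_rfl, hbc.le⟩ hst
        rw [h6] at h3
        exact h3 le_rfl
    · exact i2 ⟨(not_le.1 h3).le, hs.2⟩ ⟨(not_le.1 h4).le, ht.2⟩ hst

theorem fa_line {u v : ℂ} (huv : u ≠ v) (c : ℝ) :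
    ContinuousOn (fun t : ℝ => AffineMap.lineMap u v (t - c)) (Icc c (c + 1)) ∧
      InjOn (fun t : ℝ => AffineMap.lineMap u v (t - c)) (Icc c (c + 1)) := by
  constructor
  · apply Continuous.continuousOn
    exact AffineMap.lineMap_continuous.comp (continuous_id.sub continuous_const)
  · intro s _ t _ hst
    have h1 := AffineMap.lineMap_injective ℝ huv hst
    linarith

theorem fa_extend {W : Set ℂ} {u v v' : ℂ} {r : ℝ} (hr : 0 < r)
    (h : v = u ∨ FaJoin W u v) (hB : Metric.closedBall v r ⊆ W) (hv' : v' ∈ Metric.closedBall v r) :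
    v' = u ∨ FaJoin W u v' := by
  classical
  by_cases hv'u : v' = u
  · exact Or.inl hv'u
  right
  have hconv := convex_closedBall v r
  by_cases hu : u ∈ Metric.closedBall v r
  · refine ⟨0, 0 + 1, fun t => AffineMap.lineMap u v' (t - 0), by norm_num,
      (fa_line (Ne.symm hv'u) 0).1, (fa_line (Ne.symm hv'u) 0).2, by simp, by simp, ?_⟩
    intro t ht
    apply hB
    apply hconv.segment_subset hu hv'
    rw [segment_eq_image_lineMap]
    exact ⟨t - 0, ⟨by linarith [ht.1], by linarith [ht.2]⟩, rfl⟩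
  -- first entrance in the ball
  have hvu : v ≠ u := by
    rintro rfl
    exact hu (Metric.mem_closedBall_self hr.le)
  obtain ⟨a, b, δ, hab, hc, hi, ha, hb, hW⟩ := h.resolve_left hvu
  have hT : IsCompact (Icc a b ∩ δ ⁻¹' Metric.closedBall v r) :=
    isCompact_Icc.of_isClosed_subset (hc.preimage_isClosed_of_isClosed isClosed_Icc
      Metric.isClosed_closedBall) inter_subset_left
  have hTne : (Icc a b ∩ δ ⁻¹' Metric.closedBall v r).Nonempty :=
    ⟨b, ⟨hab.le, le_rfl⟩, by
      rw [mem_preimage, hb]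
      exact Metric.mem_closedBall_self hr.le⟩
  obtain ⟨t₁, ⟨ht1, ht1B⟩, ht1m⟩ := hT.exists_isLeast hTne
  have hat : a < t₁ := by
    rcases lt_or_eq_of_le ht1.1 with h5 | h5
    · exact h5
    · exfalso
      rw [mem_preimage, ← h5, ha] at ht1B
      exact hu ht1B
  have hout : ∀ t ∈ Ico a t₁, δ t ∉ Metric.closedBall v r := by
    intro t ht hmem
    have := ht1m ⟨⟨ht.1, ht.2.le.trans ht1.2⟩, hmem⟩
    exact absurd ht.2 (not_lt.2 this)
  have hsub : Icc a t₁ ⊆ Icc a b := Icc_subset_Icc_right ht1.2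
  by_cases hw : δ t₁ = v'
  · exact ⟨a, t₁, δ, hat, hc.mono hsub, hi.mono hsub, ha, hw, fun t ht => hW t (hsub ht)⟩
  have hl := fa_line hw t₁
  have hmem2 : ∀ t ∈ Icc t₁ (t₁ + 1), AffineMap.lineMap (δ t₁) v' (t - t₁) ∈
      Metric.closedBall v r := by
    intro t ht
    apply hconv.segment_subset ht1B hv'
    rw [segment_eq_image_lineMap]
    exact ⟨t - t₁, ⟨by linarith [ht.1], by linarith [ht.2]⟩, rfl⟩
  have hcc := fa_concat (δ₁ := δ) (δ₂ := fun t => AffineMap.lineMap (δ t₁) v' (t - t₁)) hat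
    (lt_add_one t₁) (hc.mono hsub) (hi.mono hsub) hl.1 hl.2 (by simp) (by
      intro s hs t ht hst
      apply hout s hs
      rw [hst]
      exact hmem2 t ht)
  refine ⟨a, t₁ + 1, _, by linarith, hcc.1, hcc.2, ?_, ?_, ?_⟩
  · rw [if_pos hat.le, ha]
  · rw [if_neg (by linarith)]
    simp
  · intro t ht
    split_ifs with h6
    · exact hW t (hsub ⟨ht.1, h6⟩)
    · exact hB (hmem2 t ⟨(not_le.1 h6).le, ht.2⟩)

/-- two distinct points of a connected open subset of the plane are joined by an injective path -/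
theorem fa_join {W : Set ℂ} (hW : IsOpen W) (hc : IsPreconnected W) {u v : ℂ} (hu : u ∈ W)
    (hv : v ∈ W) (huv : u ≠ v) : FaJoin W u v := by
  have h1 : v = u ∨ FaJoin W u v := by
    by_contra hcon
    -- the set of reachable points
    let S : Set ℂ := {w | w ∈ W ∧ (w = u ∨ FaJoin W u w)}
    have hball : ∀ w ∈ W, ∃ r > 0, Metric.closedBall w (2 * r) ⊆ W := by
      intro w hw
      obtain ⟨r, hr, hrW⟩ := Metric.isOpen_iff.1 hW w hw
      refine ⟨r / 4, by positivity, ?_⟩
      intro z hz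
      apply hrW
      rw [Metric.mem_closedBall] at hz
      rw [Metric.mem_ball]
      linarith
    have hSo : IsOpen S := by
      rw [Metric.isOpen_iff]
      rintro w ⟨hw, hw'⟩
      obtain ⟨r, hr, hrW⟩ := hball w hw
      refine ⟨r, hr, ?_⟩
      intro z hz
      have hz' : z ∈ Metric.closedBall w (2 * r) := by
        rw [Metric.mem_closedBall]
        rw [Metric.mem_ball] at hz
        linarith
      exact ⟨hrW hz', fa_extend (by linarith) hw' hrW hz'⟩
    have hSo' : IsOpen (W \ S) := by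
      rw [Metric.isOpen_iff]
      rintro w ⟨hw, hw'⟩
      obtain ⟨r, hr, hrW⟩ := hball w hw
      refine ⟨r, hr, ?_⟩
      intro z hz
      rw [Metric.mem_ball] at hz
      have hz' : z ∈ Metric.closedBall w (2 * r) := by
        rw [Metric.mem_closedBall]
        linarith
      refine ⟨hrW hz', ?_⟩
      rintro ⟨hzW, hz2⟩
      apply hw'
      refine ⟨hw, ?_⟩
      apply fa_extend (r := r) hr hz2
      · intro y hy
        apply hrW
        rw [Metric.mem_closedBall] at hy ⊢
        have := dist_triangle y z w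
        linarith
      · rw [Metric.mem_closedBall, dist_comm]
        exact hz.le
    have h2 := hc S (W \ S) hSo hSo' (by
      intro w hw
      by_cases h : w ∈ S
      · exact Or.inl h
      · exact Or.inr ⟨hw, h⟩) ⟨u, hu, hu, Or.inl rfl⟩ ⟨v, hv, hv, fun h => hcon h.2⟩
    obtain ⟨w, -, hw1, hw2⟩ := h2
    exact hw2.2 hw1
  exact h1.resolve_left (Ne.symm huv)

end Pool.Agent.Lib.MP_e9314e_an
end

section

/-!
Continuous logarithms: homotopies of nonvanishing functions on a compact space, and the absence of a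
continuous logarithm on the unit circle.
-/

namespace Pool.Agent.Lib.MP_e9314e_an

open Complex Topology Set

/-- two members of a continuous family of nonvanishing functions on a compact space differ by an
exponential factor -/
theorem fa_log {T X : Type*} [TopologicalSpace T] [PreconnectedSpace T] [TopologicalSpace X]
    [CompactSpace X] (H : T → X → ℂ) (hH : Continuous (fun p : T × X => H p.1 p.2))
    (h0 : ∀ t x, H t x ≠ 0) (s t : T) : ∃ g : C(X, ℂ), ∀ x, H t x = H s x * exp (g x) := by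
  have hHt : ∀ t, Continuous (H t) := fun t => hH.comp (Continuous.prodMk_right t)
  apply PreconnectedSpace.induction₂' (fun s t => ∃ g : C(X, ℂ), ∀ x, H t x = H s x * exp (g x))
  · intro t₀
    have h1 : ∀ᶠ t in 𝓝 t₀, ∀ x ∈ (univ : Set X), H t x / H t₀ x ∈ slitPlane := by
      apply isCompact_univ.eventually_forall_of_forall_eventually
      intro x _
      have hc : ContinuousAt (fun p : T × X => H p.1 p.2 / H t₀ p.2) (t₀, x) := by
        apply ContinuousAt.div
        · exact hH.continuousAt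
        · exact ((hHt t₀).comp continuous_snd).continuousAt
        · exact h0 t₀ x
      apply hc.eventually_mem
      apply isOpen_slitPlane.mem_nhds
      rw [div_self (h0 t₀ x)]
      exact one_mem_slitPlane
    filter_upwards [h1] with t ht
    have hg : Continuous (fun x => log (H t x / H t₀ x)) := by
      apply Continuous.clog
      · exact (hHt t).div (hHt t₀) (h0 t₀)
      · intro x
        exact ht x (mem_univ x)
    refine ⟨⟨⟨_, hg⟩, fun x => ?_⟩, ⟨-⟨_, hg⟩, fun x => ?_⟩⟩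
    · simp only [ContinuousMap.coe_mk]
      rw [exp_log (div_ne_zero (h0 t x) (h0 t₀ x)), mul_div_cancel₀ _ (h0 t₀ x)]
    · simp only [ContinuousMap.coe_neg, ContinuousMap.coe_mk, Pi.neg_apply]
      rw [exp_neg, exp_log (div_ne_zero (h0 t x) (h0 t₀ x)), inv_div, mul_div_cancel₀ _ (h0 t x)]
  · refine ⟨fun a b c => ?_⟩
    rintro ⟨g, hg⟩ ⟨g', hg'⟩
    refine ⟨g + g', fun x => ?_⟩
    rw [hg' x, hg x, ContinuousMap.add_apply, exp_add, mul_assoc]

/-- there is no continuous logarithm on the unit circle -/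
theorem fa_circle (L : ℝ → ℂ) (hL : Continuous L) (hper : L (2 * Real.pi) = L 0)
    (h : ∀ θ : ℝ, exp (L θ) = exp (θ * I)) : False := by
  have h1 : ∀ θ : ℝ, ∃ k : ℤ, (L θ).im - θ = k * (2 * Real.pi) := by
    intro θ
    obtain ⟨k, hk⟩ := exp_eq_exp_iff_exists_int.1 (h θ)
    refine ⟨k, ?_⟩
    rw [hk]
    simp
  have hpi := Real.pi_pos
  let f : ℝ → ℝ := fun θ => ((L θ).im - θ) / (2 * Real.pi)
  have hf : Continuous f := by
    apply Continuous.div_const
    exact (continuous_im.comp hL).sub continuous_id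
  have hfk : ∀ θ, ∃ k : ℤ, f θ = k := by
    intro θ
    obtain ⟨k, hk⟩ := h1 θ
    refine ⟨k, ?_⟩
    simp only [f, hk]
    field_simp
  have h2 : f (2 * Real.pi) = f 0 - 1 := by
    simp only [f, hper]
    field_simp
    ring
  obtain ⟨k, hk⟩ := hfk 0
  have h3 : f 0 - 1 / 2 ∈ uIcc (f 0) (f (2 * Real.pi)) := by
    rw [h2, uIcc_of_ge (by linarith)]
    constructor <;> linarith
  obtain ⟨θ, -, hθ⟩ := intermediate_value_uIcc hf.continuousOn h3
  obtain ⟨l, hl⟩ := hfk θ
  rw [hl, hk] at hθ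
  have h4 : (2 * l : ℤ) = 2 * k - 1 := by
    have : (2 * l : ℝ) = 2 * k - 1 := by linarith
    exact_mod_cast this
  omega

end Pool.Agent.Lib.MP_e9314e_an
end
end

section

section

/-!
Borsuk's separation criterion in the plane: if `(z - u) / (z - v)` has a continuous logarithm on a
compact set `K`, then `u` and `v` lie in the same component of the complement of `K`.
-/

namespace Pool.Agent.Lib.MP_e9314e_an

open Complex Topology Set

/-- the case of a bounded component -/
theorem fa_borsuk_bounded {X : Type*} [TopologicalSpace X] [CompactSpace X] {φ : X → ℂ}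
    (hφ : Continuous φ) (hinj : Function.Injective φ) {u v : ℂ} (hu : u ∉ range φ)
    (hv : v ∉ range φ) (g : C(X, ℂ)) (hg : ∀ x, φ x - u = (φ x - v) * exp (g x))
    (hb : Bornology.IsBounded (connectedComponentIn (range φ)ᶜ u))
    (hvA : v ∉ connectedComponentIn (range φ)ᶜ u) : False := by
  classical
  have hK : IsClosed (range φ) := (isCompact_range hφ).isClosed
  have he : IsClosedEmbedding φ := hφ.isClosedEmbedding hinj
  obtain ⟨G, hG⟩ := ContinuousMap.exists_extension' he g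
  have hGx : ∀ x, G (φ x) = g x := fun x => congrFun hG x
  obtain ⟨A, hA⟩ : ∃ A, A = connectedComponentIn (range φ)ᶜ u := ⟨_, rfl⟩
  rw [← hA] at hb hvA
  have hAo : IsOpen A := by
    rw [hA]
    exact hK.isOpen_compl.connectedComponentIn
  have huA : u ∈ A := by
    rw [hA]
    exact mem_connectedComponentIn hu
  have hfr : ∀ z ∈ frontier A, z ∈ range φ := by
    intro z hz
    by_contra hzK
    have hz1 : z ∉ A := by
      rw [hAo.frontier_eq] at hz
      exact hz.2
    have ho : IsOpen (connectedComponentIn (range φ)ᶜ z) := hK.isOpen_compl.connectedComponentIn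
    have hzm : z ∈ connectedComponentIn (range φ)ᶜ z := mem_connectedComponentIn hzK
    have hcl : z ∈ closure A := frontier_subset_closure hz
    obtain ⟨y, hy1, hy2⟩ := mem_closure_iff.1 hcl _ ho hzm
    rw [hA] at hy2
    have h1 := connectedComponentIn_eq hy1
    have h2 := connectedComponentIn_eq hy2
    apply hz1
    rw [hA, h2, ← h1]
    exact hzm
  have hvcl : v ∉ closure A := by
    intro h
    rcases (closure_eq_self_union_frontier A ▸ h : v ∈ A ∪ frontier A) with h1 | h1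
    · exact hvA h1
    · exact hv (hfr v h1)
  -- the function `F`
  let F : ℂ → ℂ := fun z => if z ∈ A then (z - u) / (z - v) * exp (-G z) else 1
  have hF : Continuous F := by
    apply continuous_if
    · intro z hz
      obtain ⟨x, rfl⟩ := hfr z hz
      have hne : φ x - v ≠ 0 := by
        intro h
        exact hv ⟨x, (sub_eq_zero.1 h)⟩
      rw [hg x, hGx, exp_neg]
      field_simp
    · have h1 : {x | x ∈ A} = A := rfl
      rw [h1]
      intro z hz
      have hne : z - v ≠ 0 := by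
        intro h
        rw [sub_eq_zero] at h
        rw [h] at hz
        exact hvcl hz
      have h2 : ContinuousAt (fun z => (z - u) / (z - v) * exp (-G z)) z := by
        apply ContinuousAt.mul
        · apply ContinuousAt.div
          · fun_prop
          · fun_prop
          · exact hne
        · fun_prop
      exact h2.continuousWithinAt
    · exact continuousOn_const
  have hF0 : ∀ z, z ≠ u → F z ≠ 0 := by
    intro z hz
    simp only [F]
    split_ifs with h
    · apply mul_ne_zero _ (exp_ne_zero _)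
      apply div_ne_zero (sub_ne_zero.2 hz)
      intro h'
      rw [sub_eq_zero] at h'
      rw [h'] at h
      exact hvA h
    · exact one_ne_zero
  -- the homotopy
  have hcomp : CompactSpace (Metric.sphere (0 : ℂ) 1) :=
    isCompact_iff_compactSpace.1 (isCompact_sphere 0 1)
  let H : ℝ → Metric.sphere (0 : ℂ) 1 → ℂ := fun s ζ => F (u + Real.exp s * ζ)
  have hH : Continuous (fun p : ℝ × Metric.sphere (0 : ℂ) 1 => H p.1 p.2) := by
    apply hF.comp
    fun_prop
  have hζ : ∀ ζ : Metric.sphere (0 : ℂ) 1, ‖(ζ : ℂ)‖ = 1 := fun ζ => by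
    have := ζ.2
    rwa [mem_sphere_zero_iff_norm] at this
  have hH0 : ∀ s ζ, H s ζ ≠ 0 := by
    intro s ζ
    apply hF0
    intro h
    rw [add_eq_left] at h
    have h1 : ‖(Real.exp s : ℂ) * (ζ : ℂ)‖ = 0 := by rw [h, norm_zero]
    rw [norm_mul, hζ, mul_one, norm_real, Real.norm_of_nonneg (Real.exp_pos s).le] at h1
    exact (Real.exp_pos s).ne' h1
  -- large radius
  obtain ⟨R, hR⟩ := hb.subset_closedBall u
  obtain ⟨t, ht⟩ : ∃ t : ℝ, R < Real.exp t := by
    obtain ⟨t, ht⟩ := (Real.tendsto_exp_atTop.eventually_gt_atTop R).exists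
    exact ⟨t, ht⟩
  have hHt : ∀ ζ, H t ζ = 1 := by
    intro ζ
    simp only [H, F]
    rw [if_neg]
    intro h
    have h1 := hR h
    rw [Metric.mem_closedBall, dist_eq_norm, add_sub_cancel_left, norm_mul, hζ, mul_one, norm_real,
      Real.norm_of_nonneg (Real.exp_pos t).le] at h1
    linarith
  -- small radius
  obtain ⟨r, hr, hrA⟩ := Metric.isOpen_iff.1 hAo u huA
  have huv : u - v ≠ 0 := by
    intro h
    rw [sub_eq_zero] at h
    rw [h] at huA
    exact hvA huA
  have hr' : 0 < min r ‖u - v‖ := lt_min hr (norm_pos_iff.2 huv)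
  obtain ⟨s, hs⟩ : ∃ s : ℝ, Real.exp s < min r ‖u - v‖ := by
    obtain ⟨s, hs⟩ := (Real.tendsto_exp_atBot.eventually_lt_const hr').exists
    exact ⟨s, hs⟩
  have hns : ∀ ζ : Metric.sphere (0 : ℂ) 1, ‖(Real.exp s : ℂ) * (ζ : ℂ)‖ = Real.exp s := by
    intro ζ
    rw [norm_mul, hζ, mul_one, norm_real, Real.norm_of_nonneg (Real.exp_pos s).le]
  have hHs : ∀ ζ, H s ζ = (Real.exp s * ζ) / (u - v + Real.exp s * ζ) *
      exp (-G (u + Real.exp s * ζ)) := by
    intro ζ
    simp only [H, F]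
    rw [if_pos]
    · congr 2
      · ring
      · ring
    · apply hrA
      rw [Metric.mem_ball, dist_eq_norm, add_sub_cancel_left, hns]
      exact lt_of_lt_of_le hs (min_le_left _ _)
  obtain ⟨k, hk⟩ := fa_log H hH hH0 t s
  have hslit : ∀ ζ : Metric.sphere (0 : ℂ) 1,
      1 + (Real.exp s : ℂ) * (ζ : ℂ) / (u - v) ∈ slitPlane := by
    intro ζ
    apply mem_slitPlane_of_norm_lt_one
    rw [norm_div, hns, div_lt_one (norm_pos_iff.2 huv)]
    exact lt_of_lt_of_le hs (min_le_right _ _)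
  -- the logarithm on the circle
  let pt : ℝ → Metric.sphere (0 : ℂ) 1 := fun θ => ⟨exp (θ * I), by
    rw [mem_sphere_zero_iff_norm, norm_exp_ofReal_mul_I]⟩
  have hpt : Continuous pt := by
    apply Continuous.subtype_mk
    fun_prop
  let L : ℝ → ℂ := fun θ => log (u - v) + log (1 + Real.exp s * (pt θ : ℂ) / (u - v)) +
    G (u + Real.exp s * (pt θ : ℂ)) + k (pt θ) - s
  have hL : Continuous L := by
    have h1 : Continuous (fun θ => (pt θ : ℂ)) := continuous_subtype_val.comp hpt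
    have h2 : Continuous (fun θ => log (1 + Real.exp s * (pt θ : ℂ) / (u - v))) := by
      apply Continuous.clog
      · fun_prop
      · intro θ
        exact hslit (pt θ)
    have h3 : Continuous (fun θ => k (pt θ)) := k.continuous.comp hpt
    fun_prop
  apply fa_circle L hL
  · have h1 : pt (2 * Real.pi) = pt 0 := by
      apply Subtype.ext
      simp only [pt]
      push_cast
      rw [exp_two_pi_mul_I, zero_mul, exp_zero]
    simp only [L, h1]
  · intro θ
    have h1 := hk (pt θ)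
    rw [hHt, one_mul, hHs] at h1
    have h2 : (pt θ : ℂ) = exp (θ * I) := rfl
    have h3 : u - v + Real.exp s * (pt θ : ℂ) ≠ 0 := by
      intro h
      have h4 := slitPlane_ne_zero (hslit (pt θ))
      apply h4
      field_simp
      rw [h, mul_zero]
    have h5 : (1 : ℂ) + Real.exp s * (pt θ : ℂ) / (u - v) =
        (u - v + Real.exp s * (pt θ : ℂ)) / (u - v) := by
      field_simp
    simp only [L]
    rw [exp_sub, exp_add, exp_add, exp_add, exp_log huv, exp_log (slitPlane_ne_zero (hslit (pt θ))),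
      ← h1, ← h2, h5, exp_neg, ofReal_exp]
    have h6 : exp (s : ℂ) ≠ 0 := exp_ne_zero _
    rw [ofReal_exp] at h3
    field_simp

/-- **Borsuk's criterion** -/
theorem fa_borsuk {X : Type*} [TopologicalSpace X] [CompactSpace X] {φ : X → ℂ}
    (hφ : Continuous φ) (hinj : Function.Injective φ) {u v : ℂ} (hu : u ∉ range φ)
    (hv : v ∉ range φ) (g : C(X, ℂ)) (hg : ∀ x, φ x - u = (φ x - v) * exp (g x)) :
    v ∈ connectedComponentIn (range φ)ᶜ u := by
  by_contra hvA
  by_cases hb : Bornology.IsBounded (connectedComponentIn (range φ)ᶜ u)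
  · exact fa_borsuk_bounded hφ hinj hu hv g hg hb hvA
  by_cases hb' : Bornology.IsBounded (connectedComponentIn (range φ)ᶜ v)
  · apply fa_borsuk_bounded hφ hinj hv hu (-g) _ hb'
    · intro h
      apply hvA
      rw [← connectedComponentIn_eq h]
      exact mem_connectedComponentIn hv
    · intro x
      rw [ContinuousMap.neg_apply, exp_neg, hg x]
      field_simp
  -- both unbounded
  obtain ⟨R, hR⟩ := (isCompact_range hφ).isBounded.subset_ball 0
  obtain ⟨R', hR'⟩ : ∃ R', R' = max R 1 := ⟨_, rfl⟩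
  have hR'1 : 0 < R' := by
    rw [hR']
    exact lt_of_lt_of_le one_pos (le_max_right _ _)
  let E : Set ℂ := {z | R' < ‖z‖}
  have hE : IsPreconnected E := by
    have h1 : E = (fun w => exp w) '' {w : ℂ | Real.log R' < w.re} := by
      ext z
      constructor
      · intro hz
        have hz' : R' < ‖z‖ := hz
        have hz0 : z ≠ 0 := by
          intro h
          rw [h, norm_zero] at hz'
          linarith
        refine ⟨log z, ?_, exp_log hz0⟩
        rw [mem_ofPred_eq, log_re]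
        exact Real.log_lt_log hR'1 hz'
      · rintro ⟨w, hw, rfl⟩
        have hw' : Real.log R' < w.re := hw
        change R' < ‖exp w‖
        rw [norm_exp]
        exact (Real.log_lt_iff_lt_exp hR'1).1 hw'
    rw [h1]
    apply IsPreconnected.image
    · exact (convex_halfSpace_re_gt _).isPreconnected
    · fun_prop
  have hEK : E ⊆ (range φ)ᶜ := by
    intro z hz hzK
    have h1 := hR hzK
    rw [mem_ball_zero_iff] at h1
    have hz' : R' < ‖z‖ := hz
    have : R ≤ R' := by
      rw [hR']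
      exact le_max_left _ _
    linarith
  have hmeet : ∀ w : ℂ, ¬ Bornology.IsBounded (connectedComponentIn (range φ)ᶜ w) →
      ∃ z ∈ connectedComponentIn (range φ)ᶜ w, z ∈ E := by
    intro w hw
    by_contra hcon
    push Not at hcon
    apply hw
    apply (Metric.isBounded_closedBall (x := (0 : ℂ)) (r := R')).subset
    intro z hz
    rw [mem_closedBall_zero_iff]
    have := hcon z hz
    simp only [E, mem_ofPred_eq, not_lt] at this
    exact this
  obtain ⟨z, hz1, hz2⟩ := hmeet u hb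
  obtain ⟨z', hz1', hz2'⟩ := hmeet v hb'
  have h1 : z' ∈ connectedComponentIn (range φ)ᶜ z :=
    hE.subset_connectedComponentIn hz2 hEK hz2'
  apply hvA
  rw [connectedComponentIn_eq hz1, connectedComponentIn_eq h1, ← connectedComponentIn_eq hz1']
  exact mem_connectedComponentIn hv

end Pool.Agent.Lib.MP_e9314e_an
end

section

/-!
Gluing: re-embedding a compact space along a free arc.
-/

namespace Pool.Agent.Lib.MP_e9314e_an

open Topology Set

theorem fa_glue {Q : Type*} [TopologicalSpace Q] [CompactSpace Q] [T2Space Q] {γ : ℝ → Q}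
    (hγ : IsOpenEmbedding γ) {s₁ s₂ : ℝ} (hs : s₁ < s₂) {φ : Q → ℂ}
    (hφ : ContinuousOn φ (γ '' Ioo s₁ s₂)ᶜ) (hi : InjOn φ (γ '' Ioo s₁ s₂)ᶜ)
    (hconn : φ (γ s₂) ∈ connectedComponentIn (φ '' (range γ)ᶜ)ᶜ (φ (γ s₁))) :
    ∃ Ψ : Q → ℂ, Continuous Ψ ∧ Function.Injective Ψ := by
  classical
  have hinj : Function.Injective γ := hγ.injective
  have hmemγ : ∀ (t : ℝ) (S : Set ℝ), γ t ∈ γ '' S ↔ t ∈ S := fun t S =>
    hinj.mem_set_image
  -- closed sets
  have hclosed : ∀ S : Set ℝ, IsOpen S → IsClosed (γ '' S)ᶜ := fun S hS =>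
    (hγ.isOpenMap S hS).isClosed_compl
  have hcl_img : ∀ S : Set ℝ, IsOpen S → Ioo s₁ s₂ ⊆ S → IsClosed (φ '' (γ '' S)ᶜ) := by
    intro S hS hsub
    have h1 : IsCompact (γ '' S)ᶜ := (hclosed S hS).isCompact
    have h2 : ContinuousOn φ (γ '' S)ᶜ := hφ.mono (compl_subset_compl.2 (image_mono hsub))
    exact (h1.image_of_continuousOn h2).isClosed
  have hK : IsClosed (φ '' (range γ)ᶜ) := by
    have := hcl_img univ isOpen_univ (subset_univ _)
    rwa [image_univ] at this
  obtain ⟨W, hWdef⟩ : ∃ W, W = connectedComponentIn (φ '' (range γ)ᶜ)ᶜ (φ (γ s₁)) := ⟨_, rfl⟩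
  rw [← hWdef] at hconn
  have hWo : IsOpen W := by
    rw [hWdef]
    exact hK.isOpen_compl.connectedComponentIn
  have hWp : IsPreconnected W := by
    rw [hWdef]
    exact isPreconnected_connectedComponentIn
  have hWK : ∀ w ∈ W, w ∉ φ '' (range γ)ᶜ := by
    intro w hw
    rw [hWdef] at hw
    exact connectedComponentIn_subset _ _ hw
  have hs1m : γ s₁ ∈ (γ '' Ioo s₁ s₂)ᶜ := by
    rw [mem_compl_iff, hmemγ]
    exact fun h => lt_irrefl _ h.1
  have hs2m : γ s₂ ∈ (γ '' Ioo s₁ s₂)ᶜ := by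
    rw [mem_compl_iff, hmemγ]
    exact fun h => lt_irrefl _ h.2
  have hWne : W.Nonempty := ⟨_, hconn⟩
  have hs1W : φ (γ s₁) ∈ W := by
    rw [hWdef]
    apply mem_connectedComponentIn
    rw [hWdef] at hWne
    exact connectedComponentIn_nonempty_iff.1 hWne
  have hne : φ (γ s₁) ≠ φ (γ s₂) := by
    intro h
    exact hs.ne (hinj (hi hs1m hs2m h))
  obtain ⟨a, b, δ, hab, hδc, hδi, hδa, hδb, hδW⟩ := fa_join hWo hWp hs1W hconn hne
  -- last point on the left arc
  have hαc : IsClosed (φ '' (γ '' Ioi s₁)ᶜ) :=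
    hcl_img _ isOpen_Ioi (fun t ht => ht.1)
  have hβc : IsClosed (φ '' (γ '' Iio s₂)ᶜ) :=
    hcl_img _ isOpen_Iio (fun t ht => ht.2)
  have hαsub : (γ '' Ioi s₁)ᶜ ⊆ (γ '' Ioo s₁ s₂)ᶜ :=
    compl_subset_compl.2 (image_mono (fun t ht => ht.1))
  have hβsub : (γ '' Iio s₂)ᶜ ⊆ (γ '' Ioo s₁ s₂)ᶜ :=
    compl_subset_compl.2 (image_mono (fun t ht => ht.2))
  have hT0 : IsCompact (Icc a b ∩ δ ⁻¹' (φ '' (γ '' Ioi s₁)ᶜ)) :=
    isCompact_Icc.of_isClosed_subset (hδc.preimage_isClosed_of_isClosed isClosed_Icc hαc)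
      inter_subset_left
  obtain ⟨t₀, ⟨ht0, ht0m⟩, ht0g⟩ := hT0.exists_isGreatest ⟨a, ⟨le_rfl, hab.le⟩, by
    rw [mem_preimage, hδa]
    refine ⟨γ s₁, ?_, rfl⟩
    rw [mem_compl_iff, hmemγ]
    exact fun h => lt_irrefl s₁ h⟩
  have ht0b : t₀ < b := by
    rcases lt_or_eq_of_le ht0.2 with h | h
    · exact h
    exfalso
    rw [mem_preimage, h, hδb] at ht0m
    obtain ⟨x, hx, hxe⟩ := ht0m
    have h1 := hi (hαsub hx) hs2m hxe
    rw [h1, mem_compl_iff, hmemγ] at hx
    exact hx hs
  -- first point on the right arc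
  have hT1 : IsCompact (Icc t₀ b ∩ δ ⁻¹' (φ '' (γ '' Iio s₂)ᶜ)) :=
    isCompact_Icc.of_isClosed_subset ((hδc.mono
      (Icc_subset_Icc_left ht0.1)).preimage_isClosed_of_isClosed isClosed_Icc hβc)
      inter_subset_left
  obtain ⟨t₁, ⟨ht1, ht1m⟩, ht1l⟩ := hT1.exists_isLeast ⟨b, ⟨ht0b.le, le_rfl⟩, by
    rw [mem_preimage, hδb]
    refine ⟨γ s₂, ?_, rfl⟩
    rw [mem_compl_iff, hmemγ]
    exact fun h => lt_irrefl s₂ h⟩
  obtain ⟨x₀, hx₀, hx₀e⟩ := ht0m
  obtain ⟨x₁, hx₁, hx₁e⟩ := ht1m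
  have hr : ∀ x : Q, φ x ∈ W → ∃ r, x = γ r := by
    intro x hx
    by_contra hcon
    apply hWK _ hx
    refine ⟨x, ?_, rfl⟩
    rintro ⟨r, hr⟩
    exact hcon ⟨r, hr.symm⟩
  have hW0 : φ x₀ ∈ W := by
    rw [hx₀e]
    exact hδW t₀ ht0
  have hW1 : φ x₁ ∈ W := by
    rw [hx₁e]
    exact hδW t₁ ⟨ht0.1.trans ht1.1, ht1.2⟩
  obtain ⟨r₁, rfl⟩ := hr x₀ hW0
  obtain ⟨r₂, rfl⟩ := hr x₁ hW1
  have hr1 : r₁ ≤ s₁ := by
    rw [mem_compl_iff, hmemγ] at hx₀
    exact not_lt.1 hx₀
  have hr2 : s₂ ≤ r₂ := by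
    rw [mem_compl_iff, hmemγ] at hx₁
    exact not_lt.1 hx₁
  have h01 : t₀ < t₁ := by
    rcases lt_or_eq_of_le ht1.1 with h | h
    · exact h
    exfalso
    rw [← h, ← hx₀e] at hx₁e
    have := hinj (hi (hβsub hx₁) (hαsub hx₀) hx₁e)
    linarith
  have hr12 : r₁ < r₂ := by linarith
  -- the affine change of parameter
  obtain ⟨κ, hκ⟩ : ∃ κ, κ = (t₁ - t₀) / (r₂ - r₁) := ⟨_, rfl⟩
  have hκ0 : 0 < κ := by
    rw [hκ]
    apply div_pos <;> linarith
  have hκ1 : κ * (r₂ - r₁) = t₁ - t₀ := by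
    rw [hκ]
    field_simp [sub_ne_zero.2 hr12.ne']
  have haff : ∀ t ∈ Icc r₁ r₂, t₀ + κ * (t - r₁) ∈ Icc t₀ t₁ := by
    intro t ht
    constructor
    · have := mul_nonneg hκ0.le (sub_nonneg.2 ht.1)
      linarith
    · have : κ * (t - r₁) ≤ κ * (r₂ - r₁) := mul_le_mul_of_nonneg_left (by linarith [ht.2]) hκ0.le
      linarith
  have haff' : ∀ t ∈ Ioo r₁ r₂, t₀ + κ * (t - r₁) ∈ Ioo t₀ t₁ := by
    intro t ht
    constructor
    · have := mul_pos hκ0 (sub_pos.2 ht.1)
      linarith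
    · have : κ * (t - r₁) < κ * (r₂ - r₁) := mul_lt_mul_of_pos_left (by linarith [ht.2]) hκ0
      linarith
  have hsub01 : Icc t₀ t₁ ⊆ Icc a b := Icc_subset_Icc ht0.1 ht1.2
  -- the inverse of `γ`
  let e : Q → ℝ := Function.invFun γ
  have he : ∀ t, e (γ t) = t := Function.leftInverse_invFun hinj
  have hec : ∀ t, ContinuousAt e (γ t) := by
    intro t
    have h1 : Filter.map γ (𝓝 t) = 𝓝 (γ t) := hγ.map_nhds_eq t
    rw [ContinuousAt, ← h1, he, Filter.tendsto_map'_iff]
    have h2 : e ∘ γ = id := funext he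
    rw [h2]
    exact Filter.tendsto_id
  let Ψ : Q → ℂ := fun x => if x ∈ γ '' Ioo r₁ r₂ then δ (t₀ + κ * (e x - r₁)) else φ x
  have hΨ2 : ∀ t ∈ Icc r₁ r₂, Ψ (γ t) = δ (t₀ + κ * (t - r₁)) := by
    intro t ht
    simp only [Ψ]
    split_ifs with h
    · rw [he]
    · rw [hmemγ] at h
      have h3 : t = r₁ ∨ t = r₂ := by
        by_contra hcon
        push Not at hcon
        exact h ⟨lt_of_le_of_ne ht.1 (Ne.symm hcon.1), lt_of_le_of_ne ht.2 hcon.2⟩
      rcases h3 with rfl | rfl
      · rw [sub_self, mul_zero, add_zero, hx₀e]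
      · rw [hκ1, add_sub_cancel, hx₁e]
  have hsubr : Ioo s₁ s₂ ⊆ Ioo r₁ r₂ := Ioo_subset_Ioo hr1 hr2
  have hcompl : (γ '' Ioo r₁ r₂)ᶜ ⊆ (γ '' Ioo s₁ s₂)ᶜ := compl_subset_compl.2 (image_mono hsubr)
  refine ⟨Ψ, ?_, ?_⟩
  · rw [← continuousOn_univ]
    have hu : (univ : Set Q) = (γ '' Ioo r₁ r₂)ᶜ ∪ γ '' Icc r₁ r₂ := by
      ext x
      simp only [mem_univ, true_iff]
      by_cases h : x ∈ γ '' Ioo r₁ r₂
      · exact Or.inr (image_mono Ioo_subset_Icc_self h)
      · exact Or.inl h
    rw [hu]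
    apply ContinuousOn.union_of_isClosed _ _ (hclosed _ isOpen_Ioo)
      (isCompact_Icc.image hγ.continuous).isClosed
    · apply (hφ.mono hcompl).congr
      intro x hx
      simp only [Ψ]
      rw [if_neg hx]
    · have h4 : ContinuousOn (fun x => δ (t₀ + κ * (e x - r₁))) (γ '' Icc r₁ r₂) := by
        apply (hδc.mono hsub01).comp
        · rintro _ ⟨t, -, rfl⟩
          apply ContinuousAt.continuousWithinAt
          have := hec t
          fun_prop
        · rintro _ ⟨t, ht, rfl⟩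
          simp only [he]
          exact haff t ht
      apply h4.congr
      rintro _ ⟨t, ht, rfl⟩
      rw [hΨ2 t ht]
      simp only [he]
  · -- mixed case
    have hmix : ∀ t ∈ Ioo r₁ r₂, ∀ y, y ∉ γ '' Ioo r₁ r₂ → δ (t₀ + κ * (t - r₁)) ≠ φ y := by
      intro t ht y hy hty
      have h5 := haff' t ht
      have h6 := hδW _ (hsub01 (Ioo_subset_Icc_self h5))
      rw [hty] at h6
      obtain ⟨r, rfl⟩ := hr y h6
      rw [hmemγ] at hy
      by_cases h7 : r ≤ r₁
      · have h8 := ht0g ⟨hsub01 (Ioo_subset_Icc_self h5), by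
          rw [mem_preimage, hty]
          refine ⟨γ r, ?_, rfl⟩
          rw [mem_compl_iff, hmemγ]
          intro h9
          have : s₁ < r := h9
          linarith⟩
        linarith [h5.1]
      · have h9 : r₂ ≤ r := by
          by_contra h10
          exact hy ⟨not_le.1 h7, not_le.1 h10⟩
        have h8 := ht1l ⟨⟨h5.1.le, h5.2.le.trans ht1.2⟩, by
          rw [mem_preimage, hty]
          refine ⟨γ r, ?_, rfl⟩
          rw [mem_compl_iff, hmemγ]
          intro h9'
          have : r < s₂ := h9'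
          linarith⟩
        linarith [h5.2]
    intro x y hxy
    simp only [Ψ] at hxy
    split_ifs at hxy with h1 h2 h2
    · obtain ⟨t, ht, rfl⟩ := h1
      obtain ⟨t', ht', rfl⟩ := h2
      rw [he, he] at hxy
      have h3 := hδi (hsub01 (Ioo_subset_Icc_self (haff' t ht)))
        (hsub01 (Ioo_subset_Icc_self (haff' t' ht'))) hxy
      have h4 : κ * (t - r₁) = κ * (t' - r₁) := by linarith
      have h5 := mul_left_cancel₀ hκ0.ne' h4
      have h6 : t = t' := by linarith
      rw [h6]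
    · obtain ⟨t, ht, rfl⟩ := h1
      rw [he] at hxy
      exact absurd hxy (hmix t ht y h2)
    · obtain ⟨t, ht, rfl⟩ := h2
      rw [he] at hxy
      exact absurd hxy.symm (hmix t ht x h1)
    · exact hi (hcompl h1) (hcompl h2) hxy

end Pool.Agent.Lib.MP_e9314e_an
end

section

/-!
A compact space with an injective map to the complex projective line which lifts to a nonvanishing
pair of functions embeds in the plane.
-/

namespace Pool.Agent.Lib.MP_e9314e_an

open Topology Set

/-- a continuous choice of solutions -/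
theorem fa_section {X : Type*} [TopologicalSpace X] [CompactSpace X] {P E : X → ℂ}
    (hP : Continuous P) (hE : Continuous E) (h0 : ∀ y, P y ≠ 0 ∨ E y ≠ 0)
    (hi : ∀ y y', P y * E y' = P y' * E y → y = y') (hs : ∀ z : ℂ, ∃ y, P y = z * E y) :
    ∃ σ : ℂ → X, Continuous σ ∧ (∀ z, P (σ z) = z * E (σ z)) ∧ ∀ z, E (σ z) ≠ 0 := by
  choose σ hσ using hs
  have hE0 : ∀ z, E (σ z) ≠ 0 := by
    intro z h
    rcases h0 (σ z) with h1 | h1
    · apply h1
      rw [hσ, h, mul_zero]
    · exact h1 h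
  have huniq : ∀ z y, P y = z * E y → σ z = y := by
    intro z y hy
    apply hi
    rw [hσ, hy]
    ring
  refine ⟨σ, ?_, hσ, hE0⟩
  rw [continuous_iff_isClosed]
  intro C hC
  have h1 : IsClosed {p : ℂ × X | P p.2 = p.1 * E p.2 ∧ p.2 ∈ C} := by
    apply IsClosed.inter
    · exact isClosed_eq (hP.comp continuous_snd) (continuous_fst.mul (hE.comp continuous_snd))
    · exact hC.preimage continuous_snd
  have h2 : σ ⁻¹' C = Prod.fst '' {p : ℂ × X | P p.2 = p.1 * E p.2 ∧ p.2 ∈ C} := by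
    ext z
    constructor
    · intro hz
      exact ⟨(z, σ z), ⟨hσ z, hz⟩, rfl⟩
    · rintro ⟨⟨z', y⟩, ⟨h3, h4⟩, rfl⟩
      have h5 := huniq z' y h3
      show σ z' ∈ C
      rw [h5]
      exact h4
  rw [h2]
  exact isClosedMap_fst_of_compactSpace _ h1

/-- a nonvanishing function on the plane has a logarithm on the unit circle -/
theorem fa_disc {l : ℂ → ℂ} (hl : Continuous l) (h0 : ∀ z, l z ≠ 0) :
    ∃ g : ℂ → ℂ, Continuous (fun θ : ℝ => g (Complex.exp (θ * Complex.I))) ∧
      ∀ θ : ℝ, l (Complex.exp (θ * Complex.I)) =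
        l 0 * Complex.exp (g (Complex.exp (θ * Complex.I))) := by
  classical
  have hcs : CompactSpace ↥(Metric.sphere (0 : ℂ) 1) :=
    isCompact_iff_compactSpace.1 (isCompact_sphere 0 1)
  obtain ⟨g, hg⟩ := fa_log (T := ℝ) (X := ↥(Metric.sphere (0 : ℂ) 1))
    (fun t z => l ((t : ℂ) * (z : ℂ)))
    (hl.comp ((Complex.continuous_ofReal.comp continuous_fst).mul
      (continuous_subtype_val.comp continuous_snd))) (fun t z => h0 _) 0 1
  have hmem : ∀ θ : ℝ, Complex.exp (θ * Complex.I) ∈ Metric.sphere (0 : ℂ) 1 := by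
    intro θ
    rw [mem_sphere_zero_iff_norm]
    exact Complex.norm_exp_ofReal_mul_I θ
  refine ⟨fun z => if hz : z ∈ Metric.sphere (0 : ℂ) 1 then g ⟨z, hz⟩ else 0, ?_, ?_⟩
  · have h1 : (fun θ : ℝ => (fun z => if hz : z ∈ Metric.sphere (0 : ℂ) 1 then g ⟨z, hz⟩ else 0)
        (Complex.exp (θ * Complex.I))) = fun θ : ℝ => g ⟨Complex.exp (θ * Complex.I), hmem θ⟩ := by
      funext θ
      simp only
      rw [dif_pos (hmem θ)]
    rw [h1]
    apply g.continuous.comp
    apply Continuous.subtype_mk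
    fun_prop
  · intro θ
    simp only
    rw [dif_pos (hmem θ)]
    have := hg ⟨Complex.exp (θ * Complex.I), hmem θ⟩
    simpa using this

/-- the pair cannot take all directions -/
theorem fa_miss {X : Type*} [TopologicalSpace X] [CompactSpace X] {P E : X → ℂ}
    (hP : Continuous P) (hE : Continuous E) (h0 : ∀ y, P y ≠ 0 ∨ E y ≠ 0)
    (hi : ∀ y y', P y * E y' = P y' * E y → y = y')
    (hs : ∀ c d : ℂ, (c, d) ≠ (0, 0) → ∃ y, c * P y + d * E y = 0) : False := by
  obtain ⟨σ, hσc, hσ, hσ0⟩ := fa_section hP hE h0 hi (fun z => by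
    obtain ⟨y, hy⟩ := hs 1 (-z) (by simp)
    exact ⟨y, by linear_combination hy⟩)
  obtain ⟨τ, hτc, hτ, hτ0⟩ := fa_section hE hP (fun y => (h0 y).symm)
    (fun y y' h => hi y y' (by linear_combination -h)) (fun z => by
    obtain ⟨y, hy⟩ := hs (-z) 1 (by simp)
    exact ⟨y, by linear_combination hy⟩)
  obtain ⟨g, hgc, hg⟩ := fa_disc (l := fun z => E (σ z)) (hE.comp hσc) hσ0
  obtain ⟨g', hgc', hg'⟩ := fa_disc (l := fun z => P (τ z)) (hP.comp hτc) hτ0
  -- on the unit circle the two sections agree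
  have hst : ∀ z : ℂ, z ≠ 0 → σ z = τ z⁻¹ := by
    intro z hz
    apply hi
    rw [hσ, hτ]
    field_simp
  have hc0 : P (τ 0) / E (σ 0) ≠ 0 := div_ne_zero (hτ0 0) (hσ0 0)
  have hinv : ∀ θ : ℝ, (Complex.exp (θ * Complex.I))⁻¹ =
      Complex.exp (((-θ : ℝ) : ℂ) * Complex.I) := by
    intro θ
    rw [← Complex.exp_neg]
    congr 1
    push_cast
    ring
  apply fa_circle (fun θ : ℝ => g' (Complex.exp (((-θ : ℝ) : ℂ) * Complex.I)) -
    g (Complex.exp (θ * Complex.I)) + Complex.log (P (τ 0) / E (σ 0)))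
  · exact ((hgc'.comp continuous_neg).sub hgc).add continuous_const
  · have e1 : Complex.exp (((2 * Real.pi : ℝ) : ℂ) * Complex.I) = 1 := by
      push_cast
      exact Complex.exp_two_pi_mul_I
    have e2 : Complex.exp (((-(2 * Real.pi) : ℝ) : ℂ) * Complex.I) = 1 := by
      rw [← hinv, e1, inv_one]
    rw [e1, e2]
    simp
  · intro θ
    rw [Complex.exp_add, Complex.exp_log hc0, Complex.exp_sub]
    have h1 := hg θ
    have h2 := hg' (-θ)
    have h3 := hσ (Complex.exp (θ * Complex.I))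
    rw [hst _ (Complex.exp_ne_zero _), hinv] at h3
    rw [hst _ (Complex.exp_ne_zero _), hinv] at h1
    rw [h1, h2] at h3
    have hP0 := hτ0 0
    have hE0 := hσ0 0
    have he1 := Complex.exp_ne_zero (g (Complex.exp (θ * Complex.I)))
    have he2 := Complex.exp_ne_zero (g' (Complex.exp (((-θ : ℝ) : ℂ) * Complex.I)))
    rw [div_mul_div_comm, div_eq_iff (mul_ne_zero he1 hE0)]
    linear_combination h3

/-- a compact set with an injective map to the projective line that lifts to the plane over it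
embeds in the plane -/
theorem fa_sphere {Q : Type*} [TopologicalSpace Q] {S : Set Q} (hS : IsCompact S) {P E : Q → ℂ}
    (hP : ContinuousOn P S) (hE : ContinuousOn E S) (h0 : ∀ y ∈ S, P y ≠ 0 ∨ E y ≠ 0)
    (hi : ∀ y ∈ S, ∀ y' ∈ S, P y * E y' = P y' * E y → y = y') :
    ∃ φ : Q → ℂ, ContinuousOn φ S ∧ InjOn φ S := by
  have hcs : CompactSpace S := isCompact_iff_compactSpace.1 hS
  have h1 : ∃ c d : ℂ, (c, d) ≠ (0, 0) ∧ ∀ y ∈ S, c * P y + d * E y ≠ 0 := by
    by_contra h
    push Not at h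
    apply fa_miss (X := S) (P := fun y => P y) (E := fun y => E y) hP.domRestrict hE.domRestrict
      (fun y => h0 y y.2) (fun y y' hy => Subtype.ext (hi y y.2 y' y'.2 hy))
    intro c d hcd
    obtain ⟨y, hyS, hy⟩ := h c d hcd
    exact ⟨⟨y, hyS⟩, hy⟩
  obtain ⟨c, d, hcd, hne⟩ := h1
  obtain ⟨c', d', hdet⟩ : ∃ c' d' : ℂ, c' * d - d' * c ≠ 0 := by
    by_cases hc : c = 0
    · refine ⟨1, 0, ?_⟩
      have hd : d ≠ 0 := by
        intro h
        apply hcd
        rw [hc, h]
      simpa using hd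
    · refine ⟨0, 1, ?_⟩
      simpa using hc
  refine ⟨fun y => (c' * P y + d' * E y) / (c * P y + d * E y), ?_, ?_⟩
  · apply ContinuousOn.div _ _ hne
    · exact (continuousOn_const.mul hP).add (continuousOn_const.mul hE)
    · exact (continuousOn_const.mul hP).add (continuousOn_const.mul hE)
  · intro y hy y' hy' h
    simp only at h
    rw [div_eq_div_iff (hne y hy) (hne y' hy')] at h
    apply hi y hy y' hy'
    have h2 : (c' * d - d' * c) * (P y * E y' - P y' * E y) = 0 := by
      linear_combination h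
    rcases mul_eq_zero.1 h2 with h3 | h3
    · exact absurd h3 hdet
    · exact sub_eq_zero.1 h3

end Pool.Agent.Lib.MP_e9314e_an
end

section

/-!
Compact spaces with a complex Chebyshev system: planar embeddings of complements of finite sets.
-/

namespace Pool.Agent.Lib.MP_e9314e_an

open Topology Set

set_option linter.unusedSectionVars false

/-- a linear functional that vanishes on the rows of an invertible matrix is zero -/
theorem fa_func {N : ℕ} (M : Fin N → (Fin N → ℂ)) (hM : (Matrix.of M).det ≠ 0)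
    (f : (Fin N → ℂ) →ₗ[ℂ] ℂ) (hf : ∀ j, f (M j) = 0) (w : Fin N → ℂ) : f w = 0 := by
  have h1 : ∀ w : Fin N → ℂ, f w = ∑ k, w k * f (Pi.single k 1) := by
    intro w
    conv_lhs => rw [pi_eq_sum_univ' w]
    rw [map_sum]
    apply Finset.sum_congr rfl
    intro k _
    rw [map_smul, smul_eq_mul]
  have h2 : Matrix.mulVec (Matrix.of M) (fun k => f (Pi.single k 1)) = 0 := by
    funext j
    rw [Pi.zero_apply, ← hf j, h1 (M j)]
    rfl
  have h3 := Matrix.eq_zero_of_mulVec_eq_zero hM h2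
  rw [h1 w]
  apply Finset.sum_eq_zero
  intro k _
  have := congrFun h3 k
  simp only [Pi.zero_apply] at this
  rw [this, mul_zero]

variable {Q : Type*} [TopologicalSpace Q] {m : ℕ}

/-- the value vector of the system -/
noncomputable def faV (x : Fin (m + 2) → C(Q, ℂ)) (q : Q) : Fin (m + 2) → ℂ := fun k => x k q

/-- the linear functional `w ↦ det (v b_0, ..., v b_m, w)` -/
noncomputable def faE (x : Fin (m + 2) → C(Q, ℂ)) (b : Fin (m + 1) → Q) :
    (Fin (m + 2) → ℂ) →ₗ[ℂ] ℂ :=
  (Matrix.detRowAlternating (R := ℂ) (n := Fin (m + 2))).toMultilinearMap.toLinearMap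
    (Fin.snoc (fun i => faV x (b i)) 0) (Fin.last (m + 1))

theorem faE_apply (x : Fin (m + 2) → C(Q, ℂ)) (b : Fin (m + 1) → Q) (w : Fin (m + 2) → ℂ) :
    faE x b w = (Matrix.of (Fin.snoc (fun i => faV x (b i)) w :
      Fin (m + 2) → (Fin (m + 2) → ℂ))).det := by
  unfold faE
  rw [MultilinearMap.toLinearMap_apply, Fin.update_snoc_last]
  rfl

theorem faE_point (x : Fin (m + 2) → C(Q, ℂ)) (b : Fin (m + 1) → Q) (y : Q) :
    faE x b (faV x y) = (Matrix.of fun j k =>
      x k ((Fin.snoc b y : Fin (m + 2) → Q) j)).det := by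
  rw [faE_apply]
  congr 1
  ext j k
  rw [Matrix.of_apply, Matrix.of_apply]
  refine Fin.lastCases ?_ (fun i => ?_) j
  · rw [Fin.snoc_last, Fin.snoc_last]
    rfl
  · rw [Fin.snoc_castSucc, Fin.snoc_castSucc]
    rfl

theorem faE_self (x : Fin (m + 2) → C(Q, ℂ)) (b : Fin (m + 1) → Q) (i : Fin (m + 1)) :
    faE x b (faV x (b i)) = 0 := by
  rw [faE_point]
  apply Matrix.det_zero_of_row_eq (i := i.castSucc) (j := Fin.last (m + 1))
  · exact (Fin.castSucc_lt_last i).ne
  · funext k
    simp only [Matrix.of_apply]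
    rw [Fin.snoc_last, Fin.snoc_castSucc]

theorem fa_snoc_inj {b : Fin (m + 1) → Q} (hb : Function.Injective b) {y : Q}
    (hy : ∀ i, b i ≠ y) : Function.Injective (Fin.snoc b y : Fin (m + 2) → Q) := by
  intro i j
  refine Fin.lastCases ?_ (fun i => ?_) i
  · refine Fin.lastCases ?_ (fun j => ?_) j
    · intro _
      rfl
    · intro h
      rw [Fin.snoc_last, Fin.snoc_castSucc] at h
      exact absurd h.symm (hy j)
  · refine Fin.lastCases ?_ (fun j => ?_) j
    · intro h
      rw [Fin.snoc_last, Fin.snoc_castSucc] at h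
      exact absurd h (hy i)
    · intro h
      rw [Fin.snoc_castSucc, Fin.snoc_castSucc] at h
      rw [hb h]

theorem fa_cons_inj {a : Fin m → Q} (ha : Function.Injective a) {y : Q}
    (hy : ∀ i, a i ≠ y) : Function.Injective (Fin.cons y a : Fin (m + 1) → Q) := by
  rw [Fin.cons_injective_iff]
  refine ⟨?_, ha⟩
  rintro ⟨i, hi⟩
  exact hy i hi

section

variable (x : Fin (m + 2) → C(Q, ℂ))
  (hx : ∀ q : Fin (m + 2) → Q, Function.Injective q → (Matrix.of fun j k => x k (q j)).det ≠ 0)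

include hx

theorem faE_ne {b : Fin (m + 1) → Q} (hb : Function.Injective b) {y : Q}
    (hy : ∀ i, b i ≠ y) : faE x b (faV x y) ≠ 0 := by
  rw [faE_point]
  exact hx _ (fa_snoc_inj hb hy)

theorem fa_func' {b : Fin (m + 1) → Q} (hb : Function.Injective b) {y : Q}
    (hy : ∀ i, b i ≠ y) (f : (Fin (m + 2) → ℂ) →ₗ[ℂ] ℂ) (h1 : ∀ i, f (faV x (b i)) = 0)
    (h2 : f (faV x y) = 0) (w : Fin (m + 2) → ℂ) : f w = 0 := by
  have h3 := faE_ne x hx hb hy
  rw [faE_apply] at h3
  apply fa_func _ h3 f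
  intro j
  refine Fin.lastCases ?_ (fun i => ?_) j
  · rw [Fin.snoc_last]
    exact h2
  · rw [Fin.snoc_castSucc]
    exact h1 i

/-- the quotient of two functionals with `m` common points is injective away from the points of
the denominator -/
theorem fa_inj {a : Fin m → Q} (ha : Function.Injective a) {p e : Q} (hp : ∀ i, a i ≠ p)
    (he : ∀ i, a i ≠ e) (hpe : p ≠ e) {y y' : Q} (hy : ∀ i, a i ≠ y) (hye : y ≠ e)
    (hy' : ∀ i, a i ≠ y') (hye' : y' ≠ e)
    (h : faE x (Fin.cons p a) (faV x y) / faE x (Fin.cons e a) (faV x y) =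
      faE x (Fin.cons p a) (faV x y') / faE x (Fin.cons e a) (faV x y')) : y = y' := by
  by_contra hyy
  have hea : Function.Injective (Fin.cons e a : Fin (m + 1) → Q) := fa_cons_inj ha he
  have hpa : Function.Injective (Fin.cons p a : Fin (m + 1) → Q) := fa_cons_inj ha hp
  have hya : Function.Injective (Fin.cons y a : Fin (m + 1) → Q) := fa_cons_inj ha hy
  have hcons : ∀ {s t : Q}, s ≠ t → (∀ i, a i ≠ t) →
      ∀ i, (Fin.cons s a : Fin (m + 1) → Q) i ≠ t := by
    intro s t hst ht i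
    refine Fin.cases ?_ (fun i => ?_) i
    · rw [Fin.cons_zero]
      exact hst
    · rw [Fin.cons_succ]
      exact ht i
  have d1 : faE x (Fin.cons e a) (faV x y) ≠ 0 := faE_ne x hx hea (hcons hye.symm hy)
  have d2 : faE x (Fin.cons e a) (faV x y') ≠ 0 := faE_ne x hx hea (hcons hye'.symm hy')
  have d3 : faE x (Fin.cons p a) (faV x e) ≠ 0 := faE_ne x hx hpa (hcons hpe he)
  rw [div_eq_div_iff d1 d2] at h
  obtain ⟨f, hf⟩ : ∃ f : (Fin (m + 2) → ℂ) →ₗ[ℂ] ℂ,
      f = faE x (Fin.cons e a) (faV x y') • faE x (Fin.cons p a) -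
        faE x (Fin.cons p a) (faV x y') • faE x (Fin.cons e a) := ⟨_, rfl⟩
  have hfw : ∀ w, f w = faE x (Fin.cons e a) (faV x y') * faE x (Fin.cons p a) w -
      faE x (Fin.cons p a) (faV x y') * faE x (Fin.cons e a) w := by
    intro w
    rw [hf, LinearMap.sub_apply, LinearMap.smul_apply, LinearMap.smul_apply, smul_eq_mul,
      smul_eq_mul]
  have h0 := fa_func' x hx hya (hcons hyy hy') f (by
    intro i
    rw [hfw]
    refine Fin.cases ?_ (fun i => ?_) i
    · rw [Fin.cons_zero]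
      linear_combination h
    · rw [Fin.cons_succ]
      have e1 := faE_self x (Fin.cons e a) i.succ
      have e2 := faE_self x (Fin.cons p a) i.succ
      rw [Fin.cons_succ] at e1 e2
      rw [e1, e2, mul_zero, mul_zero, sub_zero]) (by
    rw [hfw]
    ring) (faV x e)
  rw [hfw] at h0
  have e1 := faE_self x (Fin.cons e a) 0
  rw [Fin.cons_zero] at e1
  rw [e1, mul_zero, sub_zero] at h0
  rcases mul_eq_zero.1 h0 with h | h
  · exact d2 h
  · exact d3 h

end

theorem faE_cont (x : Fin (m + 2) → C(Q, ℂ)) {T : Type*} [TopologicalSpace T]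
    {b : T → Fin (m + 1) → Q} {y : T → Q} (hb : ∀ i, Continuous fun t => b t i)
    (hy : Continuous y) : Continuous fun t => faE x (b t) (faV x (y t)) := by
  simp_rw [faE_point]
  apply Continuous.matrix_det
  apply continuous_matrix
  intro j k
  simp only [Matrix.of_apply]
  refine Fin.lastCases ?_ (fun i => ?_) j
  · simp only [Fin.snoc_last]
    exact (x k).continuous.comp hy
  · simp only [Fin.snoc_castSucc]
    exact (x k).continuous.comp (hb i)

/-- the two functionals separate points of the complement of the `m` common points -/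
theorem fa_inj2 (x : Fin (m + 2) → C(Q, ℂ))
    (hx : ∀ q : Fin (m + 2) → Q, Function.Injective q → (Matrix.of fun j k => x k (q j)).det ≠ 0)
    {a : Fin m → Q} (ha : Function.Injective a) {p e : Q} (hp : ∀ i, a i ≠ p)
    (he : ∀ i, a i ≠ e) (hpe : p ≠ e) {y y' : Q} (hy : ∀ i, a i ≠ y) (hy' : ∀ i, a i ≠ y')
    (h : faE x (Fin.cons p a) (faV x y) * faE x (Fin.cons e a) (faV x y') =
      faE x (Fin.cons p a) (faV x y') * faE x (Fin.cons e a) (faV x y)) : y = y' := by
  by_contra hyy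
  have hea : Function.Injective (Fin.cons e a : Fin (m + 1) → Q) := fa_cons_inj ha he
  have hpa : Function.Injective (Fin.cons p a : Fin (m + 1) → Q) := fa_cons_inj ha hp
  have hya : Function.Injective (Fin.cons y a : Fin (m + 1) → Q) := fa_cons_inj ha hy
  have hcons : ∀ {s t : Q}, s ≠ t → (∀ i, a i ≠ t) →
      ∀ i, (Fin.cons s a : Fin (m + 1) → Q) i ≠ t := by
    intro s t hst ht i
    refine Fin.cases ?_ (fun i => ?_) i
    · rw [Fin.cons_zero]
      exact hst
    · rw [Fin.cons_succ]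
      exact ht i
  have d3 : faE x (Fin.cons p a) (faV x e) ≠ 0 := faE_ne x hx hpa (hcons hpe he)
  have d4 : faE x (Fin.cons e a) (faV x p) ≠ 0 := faE_ne x hx hea (hcons hpe.symm hp)
  obtain ⟨f, hf⟩ : ∃ f : (Fin (m + 2) → ℂ) →ₗ[ℂ] ℂ,
      f = faE x (Fin.cons e a) (faV x y') • faE x (Fin.cons p a) -
        faE x (Fin.cons p a) (faV x y') • faE x (Fin.cons e a) := ⟨_, rfl⟩
  have hfw : ∀ w, f w = faE x (Fin.cons e a) (faV x y') * faE x (Fin.cons p a) w -
      faE x (Fin.cons p a) (faV x y') * faE x (Fin.cons e a) w := by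
    intro w
    rw [hf, LinearMap.sub_apply, LinearMap.smul_apply, LinearMap.smul_apply, smul_eq_mul,
      smul_eq_mul]
  have h0 := fa_func' x hx hya (hcons hyy hy') f (by
    intro i
    rw [hfw]
    refine Fin.cases ?_ (fun i => ?_) i
    · rw [Fin.cons_zero]
      linear_combination h
    · rw [Fin.cons_succ]
      have e1 := faE_self x (Fin.cons e a) i.succ
      have e2 := faE_self x (Fin.cons p a) i.succ
      rw [Fin.cons_succ] at e1 e2
      rw [e1, e2, mul_zero, mul_zero, sub_zero]) (by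
    rw [hfw]
    ring)
  have h1 := h0 (faV x e)
  have h2 := h0 (faV x p)
  rw [hfw] at h1 h2
  have e1 := faE_self x (Fin.cons e a) 0
  rw [Fin.cons_zero] at e1
  have e2 := faE_self x (Fin.cons p a) 0
  rw [Fin.cons_zero] at e2
  rw [e1, mul_zero, sub_zero] at h1
  rw [e2, mul_zero, zero_sub, neg_eq_zero] at h2
  have d1 : faE x (Fin.cons e a) (faV x y') = 0 := (mul_eq_zero.1 h1).resolve_right d3
  have d2 : faE x (Fin.cons p a) (faV x y') = 0 := (mul_eq_zero.1 h2).resolve_right d4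
  by_cases h3 : e = y'
  · subst h3
    exact d3 d2
  · exact faE_ne x hx hea (hcons h3 hy') d1

/-- every closed set that misses `m` points embeds in the plane -/
theorem fa_part [CompactSpace Q] (x : Fin (m + 2) → C(Q, ℂ))
    (hx : ∀ q : Fin (m + 2) → Q, Function.Injective q → (Matrix.of fun j k => x k (q j)).det ≠ 0)
    {a : Fin m → Q} (ha : Function.Injective a) {S : Set Q} (hSc : IsClosed S)
    (hS : ∀ i, a i ∉ S) : ∃ φ : Q → ℂ, ContinuousOn φ S ∧ InjOn φ S := by
  by_cases hsub : S.Subsingleton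
  · exact ⟨fun _ => 0, continuousOn_const, hsub.injOn _⟩
  rw [not_subsingleton_iff] at hsub
  obtain ⟨p, hp, e, he, hpe⟩ := hsub
  have hS' : ∀ {y : Q}, y ∈ S → ∀ i, a i ≠ y := by
    intro y hy i h
    apply hS i
    rw [h]
    exact hy
  have hcons : ∀ {s t : Q}, s ≠ t → (∀ i, a i ≠ t) →
      ∀ i, (Fin.cons s a : Fin (m + 1) → Q) i ≠ t := by
    intro s t hst ht i
    refine Fin.cases ?_ (fun i => ?_) i
    · rw [Fin.cons_zero]
      exact hst
    · rw [Fin.cons_succ]
      exact ht i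
  apply fa_sphere (P := fun y => faE x (Fin.cons p a) (faV x y))
    (E := fun y => faE x (Fin.cons e a) (faV x y)) hSc.isCompact
  · exact (faE_cont x (b := fun _ => Fin.cons p a) (fun i => continuous_const)
      continuous_id).continuousOn
  · exact (faE_cont x (b := fun _ => Fin.cons e a) (fun i => continuous_const)
      continuous_id).continuousOn
  · intro y hy
    by_cases h : p = y
    · right
      subst h
      exact faE_ne x hx (fa_cons_inj ha (hS' he)) (hcons hpe.symm (hS' hp))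
    · left
      exact faE_ne x hx (fa_cons_inj ha (hS' hp)) (hcons h (hS' hy))
  · intro y hy y' hy' h
    exact fa_inj2 x hx ha (hS' hp) (hS' he) hpe (hS' hy) (hS' hy') h

/-- two clopen parts that embed in the plane -/
theorem fa_union [CompactSpace Q] {S : Set Q} (hS : IsClopen S) {φ₁ φ₂ : Q → ℂ}
    (h1 : ContinuousOn φ₁ S) (i1 : InjOn φ₁ S) (h2 : ContinuousOn φ₂ Sᶜ) (i2 : InjOn φ₂ Sᶜ) :
    ∃ φ : Q → ℂ, Continuous φ ∧ Function.Injective φ := by
  classical
  have c1 : IsCompact (φ₁ '' S) := hS.isClosed.isCompact.image_of_continuousOn h1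
  have c2 : IsCompact (φ₂ '' Sᶜ) := hS.compl.isClosed.isCompact.image_of_continuousOn h2
  obtain ⟨R₁, hR₁⟩ := c1.isBounded.subset_closedBall 0
  obtain ⟨R₂, hR₂⟩ := c2.isBounded.subset_closedBall 0
  have n1 : ∀ y ∈ S, ‖φ₁ y‖ ≤ |R₁| := by
    intro y hy
    have := hR₁ (mem_image_of_mem _ hy)
    rw [mem_closedBall_zero_iff] at this
    exact this.trans (le_abs_self _)
  have n2 : ∀ y ∈ Sᶜ, ‖φ₂ y‖ ≤ |R₂| := by
    intro y hy
    have := hR₂ (mem_image_of_mem _ hy)
    rw [mem_closedBall_zero_iff] at this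
    exact this.trans (le_abs_self _)
  obtain ⟨R, hR⟩ : ∃ R : ℝ, R = |R₁| + |R₂| + 1 := ⟨_, rfl⟩
  have hne : ∀ y ∈ S, ∀ y' ∈ Sᶜ, φ₁ y ≠ φ₂ y' + (R : ℂ) := by
    intro y hy y' hy' h
    have h3 : (R : ℂ) = φ₁ y - φ₂ y' := by
      rw [h]
      ring
    have h4 : ‖(R : ℂ)‖ ≤ |R₁| + |R₂| := by
      rw [h3]
      exact (norm_sub_le _ _).trans (add_le_add (n1 y hy) (n2 y' hy'))
    rw [Complex.norm_real, Real.norm_eq_abs, hR] at h4
    have := le_abs_self (|R₁| + |R₂| + 1)
    linarith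
  refine ⟨fun y => if y ∈ S then φ₁ y else φ₂ y + (R : ℂ), ?_, ?_⟩
  · rw [continuous_iff_continuousAt]
    intro y
    by_cases hy : y ∈ S
    · have h3 : S ∈ 𝓝 y := hS.isOpen.mem_nhds hy
      apply (h1.continuousAt h3).congr
      filter_upwards [h3] with z hz
      rw [if_pos hz]
    · have h3 : Sᶜ ∈ 𝓝 y := hS.compl.isOpen.mem_nhds hy
      have h5 : ContinuousAt (fun z => φ₂ z + (R : ℂ)) y :=
        (h2.continuousAt h3).add continuousAt_const
      apply h5.congr
      filter_upwards [h3] with z hz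
      rw [if_neg hz]
  · intro y y' h
    simp only at h
    split_ifs at h with h3 h4 h4
    · exact i1 h3 h4 h
    · exact absurd h (hne y h3 y' h4)
    · exact absurd h.symm (hne y' h4 y h3)
    · exact i2 h3 h4 (add_right_cancel h)

/-- `N` points in a set that is not small -/
theorem fa_choose {N : ℕ} {S : Set Q} (hS : ¬ S.encard < N) :
    ∃ b : Fin N → Q, Function.Injective b ∧ ∀ i, b i ∈ S := by
  have h1 : ((N : ℕ) : ℕ∞) ≤ S.encard := not_lt.1 hS
  obtain ⟨t, hts, ht⟩ := Set.exists_subset_encard_eq h1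
  have htf : t.Finite := Set.finite_of_encard_eq_coe ht
  have : Fintype t := htf.fintype
  have hc : Fintype.card t = N := by
    have h2 := Set.encard_eq_coe_toFinset_card t
    rw [ht] at h2
    have h3 : N = t.toFinset.card := by exact_mod_cast h2
    rw [h3, Set.toFinset_card]
  let e := (Fintype.equivFinOfCardEq hc).symm
  exact ⟨fun i => (e i : Q), Subtype.val_injective.comp e.injective, fun i => hts (e i).2⟩

section

variable [CompactSpace Q] [T2Space Q] (x : Fin (m + 2) → C(Q, ℂ))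
  (hx : ∀ q : Fin (m + 2) → Q, Function.Injective q → (Matrix.of fun j k => x k (q j)).det ≠ 0)

include hx

/-- a clopen set or its complement is small -/
theorem fa_clopen (hQ : ¬ ∃ φ : Q → ℂ, Continuous φ ∧ Function.Injective φ) {S : Set Q}
    (hS : IsClopen S) : S.encard < m ∨ Sᶜ.encard < m := by
  by_contra h
  rw [not_or] at h
  obtain ⟨b, hb, hbS⟩ := fa_choose h.1
  obtain ⟨b', hb', hbS'⟩ := fa_choose h.2
  obtain ⟨φ₂, h2, i2⟩ := fa_part x hx hb (S := Sᶜ) hS.compl.isClosed (fun i hi => hi (hbS i))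
  obtain ⟨φ₁, h1, i1⟩ := fa_part x hx hb' (S := S) hS.isClosed (fun i hi => hbS' i hi)
  exact hQ (fa_union hS h1 i1 h2 i2)

/-- there are few isolated points -/
theorem fa_isolated (hQ : ¬ ∃ φ : Q → ℂ, Continuous φ ∧ Function.Injective φ) :
    {q : Q | IsOpen {q}}.encard < m := by
  classical
  by_contra h
  obtain ⟨b, hb, hbS⟩ := fa_choose h
  have hopen : IsOpen (range b) := by
    have : range b = ⋃ i, {b i} := by
      ext y
      simp [eq_comm]
    rw [this]
    exact isOpen_iUnion hbS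
  have hcl : IsClosed (range b) := (finite_range b).isClosed
  obtain ⟨φ₂, h2, i2⟩ := fa_part x hx hb (S := (range b)ᶜ) hopen.isClosed_compl
    (fun i hi => hi (mem_range_self i))
  obtain ⟨g, hg⟩ : ∃ g : Q → ℂ, ∀ i, g (b i) = ((i : ℕ) : ℂ) := by
    refine ⟨fun y => if hy : ∃ i, b i = y then ((hy.choose : ℕ) : ℂ) else 0, fun i => ?_⟩
    have hy : ∃ j, b j = b i := ⟨i, rfl⟩
    simp only
    rw [dif_pos hy]
    rw [hb hy.choose_spec]
  have hgc : ContinuousOn g (range b) := by
    rintro _ ⟨i, rfl⟩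
    have h3 : ({b i} : Set Q) ∈ 𝓝 (b i) := (hbS i).mem_nhds rfl
    apply ContinuousAt.continuousWithinAt
    have h4 : g =ᶠ[𝓝 (b i)] fun _ => g (b i) := by
      filter_upwards [h3] with z hz
      rw [mem_singleton_iff.1 hz]
    exact continuousAt_const.congr h4.symm
  have hgi : InjOn g (range b) := by
    rintro _ ⟨i, rfl⟩ _ ⟨j, rfl⟩ h3
    rw [hg, hg] at h3
    have h4 : (i : ℕ) = j := by exact_mod_cast h3
    rw [Fin.ext h4]
  exact hQ (fa_union ⟨hcl, hopen⟩ hgc hgi h2 i2)

/-- the set of non-isolated points is connected -/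
theorem fa_connected (hQ : ¬ ∃ φ : Q → ℂ, Continuous φ ∧ Function.Injective φ) :
    IsConnected {q : Q | IsOpen {q}}ᶜ := by
  have hfin : {q : Q | IsOpen {q}}.Finite :=
    Set.finite_of_encard_le_coe (fa_isolated x hx hQ).le
  have hopen : IsOpen {q : Q | IsOpen {q}} := by
    rw [isOpen_iff_forall_mem_open]
    intro q hq
    exact ⟨{q}, singleton_subset_iff.2 hq, hq, rfl⟩
  have hsmall : ∀ S : Set Q, IsOpen S → S.encard < m → S ⊆ {q : Q | IsOpen {q}} := by
    intro S hS hSm q hq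
    have hSf : S.Finite := Set.finite_of_encard_le_coe hSm.le
    have h1 : IsClosed (S \ {q}) := (hSf.subset sdiff_subset).isClosed
    have h2 : ({q} : Set Q) = S \ (S \ {q}) := by
      rw [sdiff_sdiff_cancel_left (singleton_subset_iff.2 hq)]
    show IsOpen {q}
    rw [h2]
    exact hS.sdiff h1
  constructor
  · by_contra h
    rw [not_nonempty_iff_eq_empty, compl_empty_iff] at h
    have hdisc : ∀ q : Q, IsOpen {q} := fun q => by
      have : q ∈ {q : Q | IsOpen {q}} := by
        rw [h]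
        exact mem_univ q
      exact this
    have : Finite Q := by
      rw [← Set.finite_univ_iff, ← h]
      exact hfin
    obtain ⟨N, ⟨e⟩⟩ := Finite.exists_equiv_fin Q
    apply hQ
    have : DiscreteTopology Q := discreteTopology_iff_isOpen_singleton.2 hdisc
    refine ⟨fun q => ((e q : ℕ) : ℂ), continuous_of_discreteTopology, ?_⟩
    intro q q' hqq
    simp only [Nat.cast_inj] at hqq
    exact e.injective (Fin.ext hqq)
  · rw [isPreconnected_closed_iff]
    intro u v hu hv huv ⟨y, hyP, hyu⟩ ⟨z, hzP, hzv⟩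
    by_contra hne
    rw [not_nonempty_iff_eq_empty] at hne
    have hPc : IsClosed {q : Q | IsOpen {q}}ᶜ := hopen.isClosed_compl
    have hcomp : ({q : Q | IsOpen {q}}ᶜ ∩ u)ᶜ = {q : Q | IsOpen {q}} ∪
        ({q : Q | IsOpen {q}}ᶜ ∩ v) := by
      ext w
      constructor
      · intro hw
        by_cases h1 : w ∈ {q : Q | IsOpen {q}}
        · exact Or.inl h1
        · right
          refine ⟨h1, ?_⟩
          rcases huv h1 with h2 | h2
          · exact absurd ⟨h1, h2⟩ hw
          · exact h2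
      · rintro (h1 | ⟨h1, h2⟩) ⟨h3, h4⟩
        · exact h3 h1
        · have : w ∈ {q : Q | IsOpen {q}}ᶜ ∩ (u ∩ v) := ⟨h1, h4, h2⟩
          rw [hne] at this
          exact this
    have hS : IsClopen ({q : Q | IsOpen {q}}ᶜ ∩ u) := by
      refine ⟨hPc.inter hu, ?_⟩
      rw [← isClosed_compl_iff, hcomp]
      exact hfin.isClosed.union (hPc.inter hv)
    rcases fa_clopen x hx hQ hS with h1 | h1
    · exact hyP (hsmall _ hS.isOpen h1 ⟨hyP, hyu⟩)
    · have h2 : z ∈ ({q : Q | IsOpen {q}}ᶜ ∩ u)ᶜ := by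
        rw [hcomp]
        exact Or.inr ⟨hzP, hzv⟩
      exact hzP (hsmall _ hS.compl.isOpen h1 h2)

/-- there is no free arc -/
theorem fa_arc {γ : ℝ → Q} (hγ : IsOpenEmbedding γ) :
    ∃ φ : Q → ℂ, Continuous φ ∧ Function.Injective φ := by
  have hinj : Function.Injective γ := hγ.injective
  obtain ⟨a, ha⟩ : ∃ a : Fin m → Q, a = fun i : Fin m => γ (((i : ℕ) : ℝ) + 1) := ⟨_, rfl⟩
  obtain ⟨p, hp⟩ : ∃ p : Q, p = γ 0 := ⟨_, rfl⟩
  obtain ⟨q, hq⟩ : ∃ q : Q, q = γ ((m : ℝ) + 1) := ⟨_, rfl⟩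
  obtain ⟨e, he⟩ : ∃ e : Q, e = γ (1 / 2) := ⟨_, rfl⟩
  have hs : (0 : ℝ) < (m : ℝ) + 1 := by positivity
  have hai : Function.Injective a := by
    rw [ha]
    intro i j hij
    have h1 := hinj hij
    have h2 : ((i : ℕ) : ℝ) = ((j : ℕ) : ℝ) := by linarith
    exact Fin.ext (by exact_mod_cast h2)
  -- points outside the arc segment
  have hout : ∀ {y : Q}, y ∈ (γ '' Ioo 0 ((m : ℝ) + 1))ᶜ → (∀ i, a i ≠ y) ∧ y ≠ e := by
    intro y hy
    constructor
    · intro i h
      apply hy
      rw [← h, ha]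
      refine ⟨_, ⟨by positivity, ?_⟩, rfl⟩
      have : ((i : ℕ) : ℝ) < m := by exact_mod_cast i.2
      linarith
    · intro h
      apply hy
      rw [h, he]
      refine ⟨_, ⟨by norm_num, ?_⟩, rfl⟩
      have : (0 : ℝ) ≤ m := Nat.cast_nonneg m
      linarith
  have hpo : p ∈ (γ '' Ioo 0 ((m : ℝ) + 1))ᶜ := by
    rw [hp, mem_compl_iff, hinj.mem_set_image]
    exact fun h => lt_irrefl _ h.1
  have hqo : q ∈ (γ '' Ioo 0 ((m : ℝ) + 1))ᶜ := by
    rw [hq, mem_compl_iff, hinj.mem_set_image]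
    exact fun h => lt_irrefl _ h.2
  have hae : ∀ i, a i ≠ e := by
    intro i h
    rw [ha, he] at h
    have h1 := hinj h
    have : (0 : ℝ) ≤ ((i : ℕ) : ℝ) := Nat.cast_nonneg _
    linarith
  have hpq : p ≠ q := by
    rw [hp, hq]
    intro h
    exact hs.ne (hinj h)
  obtain ⟨b, hb⟩ : ∃ b : ℝ → Fin (m + 1) → Q, b = fun (t : ℝ) (j : Fin (m + 1)) => γ (t + ((j : ℕ) : ℝ)) := ⟨_, rfl⟩
  have hbi : ∀ t, Function.Injective (b t) := by
    intro t
    rw [hb]
    intro i j hij
    have h1 := hinj hij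
    have h2 : ((i : ℕ) : ℝ) = ((j : ℕ) : ℝ) := by linarith
    exact Fin.ext (by exact_mod_cast h2)
  have hb0 : b 0 = Fin.cons p a := by
    funext j
    refine Fin.cases ?_ (fun i => ?_) j
    · rw [Fin.cons_zero, hb, hp]
      simp
    · rw [Fin.cons_succ, hb, ha]
      simp
  have hb1l : b 1 (Fin.last m) = q := by
    rw [hb, hq]
    simp [add_comm]
  have hb1c : ∀ i : Fin m, b 1 i.castSucc = a i := by
    intro i
    rw [hb, ha]
    simp [add_comm]
  obtain ⟨φ, hφ⟩ : ∃ φ : Q → ℂ, φ = fun y =>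
    faE x (Fin.cons p a) (faV x y) / faE x (Fin.cons e a) (faV x y) := ⟨_, rfl⟩
  have hpa : Function.Injective (Fin.cons p a : Fin (m + 1) → Q) :=
    fa_cons_inj hai (hout hpo).1
  have hea : Function.Injective (Fin.cons e a : Fin (m + 1) → Q) := fa_cons_inj hai hae
  have hcons : ∀ {s t : Q}, s ≠ t → (∀ i, a i ≠ t) →
      ∀ i, (Fin.cons s a : Fin (m + 1) → Q) i ≠ t := by
    intro s t hst ht i
    refine Fin.cases ?_ (fun i => ?_) i
    · rw [Fin.cons_zero]
      exact hst
    · rw [Fin.cons_succ]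
      exact ht i
  have hden : ∀ y ∈ (γ '' Ioo 0 ((m : ℝ) + 1))ᶜ, faE x (Fin.cons e a) (faV x y) ≠ 0 := by
    intro y hy
    exact faE_ne x hx hea (hcons (hout hy).2.symm (hout hy).1)
  have hφc : ContinuousOn φ (γ '' Ioo 0 ((m : ℝ) + 1))ᶜ := by
    rw [hφ]
    apply ContinuousOn.div
    · exact (faE_cont x (b := fun _ => Fin.cons p a) (fun i => continuous_const)
        continuous_id).continuousOn
    · exact (faE_cont x (b := fun _ => Fin.cons e a) (fun i => continuous_const)
        continuous_id).continuousOn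
    · exact hden
  have hφi : InjOn φ (γ '' Ioo 0 ((m : ℝ) + 1))ᶜ := by
    intro y hy y' hy' h
    rw [hφ] at h
    exact fa_inj x hx hai (hout hpo).1 hae (hout hpo).2 (hout hy).1 (hout hy).2 (hout hy').1
      (hout hy').2 h
  apply fa_glue hγ hs hφc hφi
  rw [← hp, ← hq]
  -- the compact set
  have hKsub : (range γ)ᶜ ⊆ (γ '' Ioo 0 ((m : ℝ) + 1))ᶜ :=
    compl_subset_compl.2 (image_subset_range _ _)
  have hKc : IsCompact (range γ)ᶜ := hγ.isOpen_range.isClosed_compl.isCompact
  have : CompactSpace ↥(range γ)ᶜ := isCompact_iff_compactSpace.1 hKc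
  obtain ⟨g, hg⟩ := fa_log (T := ℝ) (X := ↥(range γ)ᶜ) (fun t y => faE x (b t) (faV x (y : Q)))
    (by
      apply faE_cont x (T := ℝ × ↥(range γ)ᶜ) (b := fun p => b p.1) (y := fun p => (p.2 : Q))
      · intro i
        rw [hb]
        exact hγ.continuous.comp (continuous_fst.add continuous_const)
      · exact continuous_subtype_val.comp continuous_snd)
    (by
      intro t y
      apply faE_ne x hx (hbi t)
      intro i h
      apply y.2
      rw [← h, hb]
      exact mem_range_self _) 1 0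
  -- constants
  obtain ⟨Fp, hFp⟩ : ∃ Fp, Fp = faE x (Fin.cons p a) := ⟨_, rfl⟩
  obtain ⟨Fe, hFe⟩ : ∃ Fe, Fe = faE x (Fin.cons e a) := ⟨_, rfl⟩
  obtain ⟨Fq, hFq⟩ : ∃ Fq, Fq = faE x (b 1) := ⟨_, rfl⟩
  have n1 : Fq (faV x p) ≠ 0 := by
    rw [hFq]
    apply faE_ne x hx (hbi 1)
    intro i h
    rw [hb, hp] at h
    have h1 := hinj h
    have : (0 : ℝ) ≤ ((i : ℕ) : ℝ) := Nat.cast_nonneg _
    linarith
  have n2 : Fp (faV x q) ≠ 0 := by
    rw [hFp]
    exact faE_ne x hx hpa (hcons hpq (hout hqo).1)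
  have n3 : Fe (faV x p) ≠ 0 := by
    rw [hFe]
    exact hden p hpo
  have n4 : Fe (faV x q) ≠ 0 := by
    rw [hFe]
    exact hden q hqo
  obtain ⟨c, hc⟩ : ∃ c, c = -(Fp (faV x q) * Fe (faV x p)) / Fq (faV x p) := ⟨_, rfl⟩
  have hc0 : c ≠ 0 := by
    rw [hc]
    exact div_ne_zero (neg_ne_zero.2 (mul_ne_zero n2 n3)) n1
  have z1 : ∀ i, Fp (faV x (a i)) = 0 := by
    intro i
    have := faE_self x (Fin.cons p a) i.succ
    rwa [Fin.cons_succ, ← hFp] at this
  have z2 : ∀ i, Fe (faV x (a i)) = 0 := by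
    intro i
    have := faE_self x (Fin.cons e a) i.succ
    rwa [Fin.cons_succ, ← hFe] at this
  have z3 : ∀ i, Fq (faV x (a i)) = 0 := by
    intro i
    have := faE_self x (b 1) i.castSucc
    rwa [hb1c, ← hFq] at this
  have z4 : Fq (faV x q) = 0 := by
    have := faE_self x (b 1) (Fin.last m)
    rwa [hb1l, ← hFq] at this
  have z5 : Fp (faV x p) = 0 := by
    have := faE_self x (Fin.cons p a) 0
    rwa [Fin.cons_zero, ← hFp] at this
  have hrel : ∀ w, Fe (faV x q) * Fp w - Fp (faV x q) * Fe w = c * Fq w := by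
    intro w
    obtain ⟨f, hf⟩ : ∃ f : (Fin (m + 2) → ℂ) →ₗ[ℂ] ℂ,
      f = Fe (faV x q) • Fp - Fp (faV x q) • Fe - c • Fq := ⟨_, rfl⟩
    have hfw : ∀ w, f w = Fe (faV x q) * Fp w - Fp (faV x q) * Fe w - c * Fq w := by
      intro w
      rw [hf, LinearMap.sub_apply, LinearMap.sub_apply, LinearMap.smul_apply,
        LinearMap.smul_apply, LinearMap.smul_apply, smul_eq_mul, smul_eq_mul, smul_eq_mul]
    have h0 := fa_func' x hx hpa (hcons hpq (hout hqo).1) f (by
      intro i
      rw [hfw]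
      refine Fin.cases ?_ (fun i => ?_) i
      · rw [Fin.cons_zero, z5, hc]
        field_simp
        ring
      · rw [Fin.cons_succ, z1, z2, z3]
        ring) (by
      rw [hfw, z4]
      ring) w
    rw [hfw] at h0
    linear_combination h0
  have hφp : φ p = 0 := by
    rw [hφ]
    simp only
    rw [← hFp, z5, zero_div]
  have hφy : ∀ y, φ y = Fp (faV x y) / Fe (faV x y) := by
    intro y
    rw [hφ, hFp, hFe]
  obtain ⟨ψ, hψ⟩ : ∃ ψ : ↥(range γ)ᶜ → ℂ, ψ = fun y : ↥(range γ)ᶜ => φ (y : Q) := ⟨_, rfl⟩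
  have hrange : φ '' (range γ)ᶜ = range ψ := by
    rw [hψ]
    ext w
    simp
  rw [hrange]
  have hψi : Function.Injective ψ := by
    rw [hψ]
    intro y y' h
    exact Subtype.ext (hφi (hKsub y.2) (hKsub y'.2) h)
  have hψc : Continuous ψ := by
    rw [hψ]
    exact (hφc.mono hKsub).domRestrict
  have hnot : ∀ t : ℝ, γ t ∈ (γ '' Ioo 0 ((m : ℝ) + 1))ᶜ → φ (γ t) ∉ range ψ := by
    rintro t ht ⟨y, hy⟩
    rw [hψ] at hy
    have h1 := hφi (hKsub y.2) ht hy
    apply y.2
    rw [h1]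
    exact mem_range_self t
  apply fa_borsuk hψc hψi (u := φ p) (v := φ q)
    (by
      rw [hp]
      exact hnot 0 (by rw [← hp]; exact hpo))
    (by
      rw [hq]
      exact hnot _ (by rw [← hq]; exact hqo))
    (g + ContinuousMap.const _ (Complex.log (Fe (faV x q) / c)))
  intro y
  have hye : Fe (faV x (y : Q)) ≠ 0 := by
    rw [hFe]
    exact hden _ (hKsub y.2)
  rw [ContinuousMap.add_apply, ContinuousMap.const_apply, Complex.exp_add,
    Complex.exp_log (div_ne_zero n4 hc0), hφp, hψ]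
  simp only
  have hgy := hg y
  rw [hb0, ← hFp, ← hFq] at hgy
  have hr := hrel (faV x (y : Q))
  rw [hφy, hφy]
  have h1 : Fp (faV x (y : Q)) / Fe (faV x (y : Q)) - Fp (faV x q) / Fe (faV x q) =
      c * Fq (faV x (y : Q)) / (Fe (faV x (y : Q)) * Fe (faV x q)) := by
    rw [← hr]
    field_simp
  rw [h1, hgy]
  field_simp
  ring

end

end Pool.Agent.Lib.MP_e9314e_an
end
end

section

/-!
# Disconnected spaces and the reduction to continua
-/

set_option autoImplicit false

open Topology Set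

namespace MPe9314e

variable {Q : Type*} [TopologicalSpace Q] {d : ℕ}

/-- gluing two planar clopen pieces -/
theorem glue_clopen [CompactSpace Q] {A : Set Q} (hA : IsClopen A) {f g : Q → ℂ}
    (hf : ContinuousOn f A) (hfi : InjOn f A) (hg : ContinuousOn g Aᶜ) (hgi : InjOn g Aᶜ) :
    ∃ ψ : Q → ℂ, Continuous ψ ∧ Function.Injective ψ := by
  classical
  obtain ⟨R, hR⟩ := (hA.isClosed.isCompact.image_of_continuousOn hf).isBounded.subset_closedBall 0
  obtain ⟨R', hR'⟩ :=
    (hA.compl.isClosed.isCompact.image_of_continuousOn hg).isBounded.subset_closedBall 0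
  set c : ℂ := ((|R| + |R'| + 1 : ℝ) : ℂ) with hc
  have hcn : ‖c‖ = |R| + |R'| + 1 := by
    rw [hc, Complex.norm_real, Real.norm_eq_abs, abs_of_pos (by positivity)]
  set ψ : Q → ℂ := fun z => if z ∈ A then f z else g z + c with hψ
  have h1 : ∀ z ∈ A, ψ z = f z := fun z hz => by simp only [hψ, if_pos hz]
  have h2 : ∀ z, z ∉ A → ψ z = g z + c := fun z hz => by simp only [hψ, if_neg hz]
  refine ⟨ψ, ?_, ?_⟩
  · rw [← continuousOn_univ, ← union_compl_self A]
    apply ContinuousOn.union_of_isClosed _ _ hA.isClosed hA.compl.isClosed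
    · exact hf.congr h1
    · exact (hg.add continuousOn_const).congr h2
  · have hcross : ∀ z ∈ A, ∀ w, w ∉ A → ψ z ≠ ψ w := by
      intro z hz w hw heq
      rw [h1 z hz, h2 w hw] at heq
      have e1 := hR (mem_image_of_mem f hz)
      have e2 := hR' (mem_image_of_mem g (show w ∈ Aᶜ from hw))
      rw [mem_closedBall_zero_iff] at e1 e2
      have e3 : c = f z - g w := by rw [heq]; ring
      have e4 : ‖c‖ ≤ ‖f z‖ + ‖g w‖ := by rw [e3]; exact norm_sub_le _ _
      rw [hcn] at e4
      have := le_abs_self R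
      have := le_abs_self R'
      linarith
    intro z w heq
    by_cases hz : z ∈ A
    · by_cases hw : w ∈ A
      · rw [h1 z hz, h1 w hw] at heq
        exact hfi hz hw heq
      · exact absurd heq (hcross z hz w hw)
    · by_cases hw : w ∈ A
      · exact absurd heq.symm (hcross w hw z hz)
      · rw [h2 z hz, h2 w hw] at heq
        exact hgi hz hw (add_right_cancel heq)

/-- disconnected spaces -/
theorem clopen_planar [CompactSpace Q] {x : Fin (d + 1) → C(Q, ℂ)} (hd : 1 ≤ d)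
    (hx : IsChebyshevSystem x) {A : Set Q} (hA : IsClopen A) {S T : Finset Q} (hS : S.card = d)
    (hT : T.card = d) (hSA : ∀ q ∈ S, q ∈ A) (hTA : ∀ q ∈ T, q ∉ A) :
    ∃ ψ : Q → ℂ, Continuous ψ ∧ Function.Injective ψ := by
  obtain ⟨f, hf, hfi⟩ := closed_planar hd hx (Z := A) hT hTA
  obtain ⟨g, hg, hgi⟩ := closed_planar hd hx (Z := Aᶜ) hS (fun q hq h => h (hSA q hq))
  exact glue_clopen hA hf hfi hg hgi

theorem finite_planar [T2Space Q] [Finite Q] : ∃ ψ : Q → ℂ, Continuous ψ ∧ Function.Injective ψ := by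
  obtain ⟨m, ⟨e⟩⟩ := Finite.exists_equiv_fin Q
  have : DiscreteTopology Q := inferInstance
  refine ⟨fun q => ((e q : ℕ) : ℂ), continuous_of_discreteTopology, ?_⟩
  intro a b hab
  apply e.injective
  apply Fin.ext
  have hab' : ((e a : ℕ) : ℂ) = ((e b : ℕ) : ℂ) := hab
  exact_mod_cast hab'

/-- a point of a finite open set is isolated -/
theorem isolated_of_finite [T1Space Q] {U : Set Q} (hU : IsOpen U) (hfin : U.Finite) {q : Q}
    (hq : q ∈ U) : IsOpen ({q} : Set Q) := by
  have h : ({q} : Set Q) = U \ (U \ {q}) := by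
    ext z
    simp only [mem_singleton_iff, mem_sdiff, not_and, not_not]
    constructor
    · rintro rfl
      exact ⟨hq, fun _ => rfl⟩
    · rintro ⟨h1, h2⟩
      exact h2 h1
  rw [h]
  exact hU.sdiff (hfin.subset sdiff_subset).isClosed

/-- the reduction to continua -/
theorem reduction [CompactSpace Q] [T2Space Q] {x : Fin (d + 1) → C(Q, ℂ)} (hd : 1 ≤ d)
    (hx : IsChebyshevSystem x) (hQ : ¬ ∃ ψ : Q → ℂ, Continuous ψ ∧ Function.Injective ψ) :
    ∃ F : Finset Q, F.card ≤ d - 1 ∧ (∀ q ∈ F, IsOpen ({q} : Set Q)) ∧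
      IsConnected ((F : Set Q)ᶜ) ∧
      ∀ Z : Set Q, IsClosed Z → ¬ ((F : Set Q)ᶜ ⊆ Z) → ∃ ψ : Q → ℂ, ContinuousOn ψ Z ∧ InjOn ψ Z := by
  classical
  have hinf : ¬ Finite Q := fun h => hQ finite_planar
  have hinfQ : (univ : Set Q).Infinite := fun h => hinf (finite_univ_iff.1 h)
  have hcofin : ∀ S : Set Q, S.Finite → Sᶜ.Infinite := by
    intro S hS h
    exact hinfQ (by rw [← union_compl_self S]; exact hS.union h)
  -- a clopen set with infinite complement has fewer than `d` points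
  have hclopen : ∀ A : Set Q, IsClopen A → Aᶜ.Infinite → ∀ S : Finset Q, (∀ q ∈ S, q ∈ A) →
      S.card < d := by
    intro A hA hAc S hS
    by_contra hcon
    obtain ⟨S', hS', hS'c⟩ := Finset.exists_subset_card_eq (not_lt.1 hcon)
    obtain ⟨T, hT, hTc⟩ := hAc.exists_subset_card_eq d
    exact hQ (clopen_planar hd hx hA hS'c hTc (fun q hq => hS q (hS' hq)) (fun q hq => hT hq))
  -- isolated points
  set I : Set Q := {q | IsOpen ({q} : Set Q)} with hI
  have hIfin : ∀ S : Finset Q, (∀ q ∈ S, q ∈ I) → S.card < d := by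
    intro S hS
    have hop : IsOpen (S : Set Q) := by
      have : (S : Set Q) = ⋃ q ∈ S, {q} := by ext z; simp
      rw [this]
      exact isOpen_biUnion fun q hq => hS q hq
    apply hclopen (S : Set Q) ⟨S.finite_toSet.isClosed, hop⟩ _ S (fun q hq => hq)
    exact hcofin _ S.finite_toSet
  have hIf : I.Finite := by
    by_contra h
    obtain ⟨T, hT, hTc⟩ := (show I.Infinite from h).exists_subset_card_eq d
    have := hIfin T (fun q hq => hT hq)
    omega
  set F := hIf.toFinset with hF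
  have hFI : ∀ q, q ∈ F ↔ IsOpen ({q} : Set Q) := by
    intro q
    rw [hF, Finite.mem_toFinset]
    rfl
  have hFcl : IsClosed (F : Set Q) := F.finite_toSet.isClosed
  have hFop : IsOpen (F : Set Q) := by
    have : (F : Set Q) = ⋃ q ∈ F, {q} := by ext z; simp
    rw [this]
    exact isOpen_biUnion fun q hq => (hFI q).1 hq
  have hKop : IsOpen ((F : Set Q)ᶜ) := hFcl.isOpen_compl
  have hKcl : IsClosed ((F : Set Q)ᶜ) := hFop.isClosed_compl
  -- nonempty open subsets of the complement of `F` are infinite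
  have hopinf : ∀ U : Set Q, IsOpen U → (U ∩ (F : Set Q)ᶜ).Nonempty → (U ∩ (F : Set Q)ᶜ).Infinite := by
    rintro U hU ⟨q, hq⟩ hfin
    exact hq.2 ((hFI q).2 (isolated_of_finite (hU.inter hKop) hfin hq))
  refine ⟨F, ?_, fun q hq => (hFI q).1 hq, ⟨?_, ?_⟩, ?_⟩
  · have := hIfin F (fun q hq => (hFI q).1 hq)
    omega
  · have h := hcofin _ F.finite_toSet
    exact h.nonempty
  · rw [isPreconnected_closed_iff]
    intro A B hA hB hAB hKA hKB
    by_contra hcon
    have hdisj : ∀ z, z ∉ F → z ∈ A → z ∈ B → False := by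
      intro z hzF hzA hzB
      exact hcon ⟨z, hzF, hzA, hzB⟩
    -- `F ∪ (K ∩ B)` is the complement of `K ∩ A`
    have hcompl : ((F : Set Q)ᶜ ∩ A)ᶜ = (F : Set Q) ∪ ((F : Set Q)ᶜ ∩ B) := by
      ext z
      simp only [mem_compl_iff, mem_inter_iff, mem_union, Finset.mem_coe, not_and]
      constructor
      · intro h
        by_cases hz : z ∈ F
        · exact Or.inl hz
        · right
          refine ⟨hz, ?_⟩
          rcases hAB (show z ∈ (F : Set Q)ᶜ from hz) with h' | h'
          · exact absurd h' (h hz)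
          · exact h'
      · rintro (h | ⟨h1, h2⟩) h3
        · exact absurd h h3
        · exact fun h4 => hdisj z h1 h4 h2
    have hcl1 : IsClosed ((F : Set Q)ᶜ ∩ A) := hKcl.inter hA
    have hcl2 : IsClosed ((F : Set Q)ᶜ ∩ A)ᶜ := by
      rw [hcompl]
      exact hFcl.union (hKcl.inter hB)
    have hop1 : IsOpen ((F : Set Q)ᶜ ∩ A) := by
      rw [← compl_compl ((F : Set Q)ᶜ ∩ A)]
      exact hcl2.isOpen_compl
    have hi1 : ((F : Set Q)ᶜ ∩ A).Infinite := by
      have h1 := hopinf _ hop1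
      have h2 : ((F : Set Q)ᶜ ∩ A) ∩ (F : Set Q)ᶜ = (F : Set Q)ᶜ ∩ A := by
        ext z
        simp only [mem_inter_iff]
        tauto
      rw [h2] at h1
      exact h1 hKA
    have hi2 : (((F : Set Q)ᶜ ∩ A)ᶜ).Infinite := by
      have h1 := hopinf _ hcl1.isOpen_compl
      have h2 : ((((F : Set Q)ᶜ ∩ A)ᶜ) ∩ (F : Set Q)ᶜ).Nonempty := by
        obtain ⟨z, hz1, hz2⟩ := hKB
        exact ⟨z, fun h => hdisj z hz1 h.2 hz2, hz1⟩
      exact (h1 h2).mono inter_subset_left
    obtain ⟨T, hT, hTc⟩ := hi1.exists_subset_card_eq d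
    have := hclopen _ ⟨hcl1, hop1⟩ hi2 T (fun q hq => hT hq)
    omega
  · intro Z hZ hKZ
    obtain ⟨z, hz1, hz2⟩ := not_subset.1 hKZ
    have h1 := hopinf _ hZ.isOpen_compl ⟨z, hz2, hz1⟩
    obtain ⟨T, hT, hTc⟩ := h1.exists_subset_card_eq d
    exact closed_planar hd hx hTc (fun q hq => (hT hq).1)

end MPe9314e
end
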